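import Pool.Agent.Work.MP_8da9ea_nt.CH.Stmts

set_option autoImplicit false

namespace Pool.Agent.Work.MP_8da9ea_nt.CH

open MvPolynomial Filter Topology Pool.Agent.Work.MP_327059_nt.GL Pool.Agent.Work.MP_8da9ea_nt.S
  Pool.Agent.Work.MP_8da9ea_nt.EB

namespace I_Aux

theorem ana_xg (h1 : S_Bas) {τ μ : ℂ} (hτ : 0 < τ.im) (hμ : μ ≠ 0) : AnalyticAt ℂ (xg τ μ) 0 := by
  obtain ⟨⟨r, hr, h⟩, -⟩ := h1 τ μ hτ hμ
  have hd : DifferentiableOn ℂ (xg τ μ) (Metric.ball 0 r) := fun s hs =>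
    ((h 0 s (by simpa using hs)).2.1).differentiableAt.differentiableWithinAt
  exact hd.analyticAt (Metric.ball_mem_nhds 0 hr)

theorem ana_wg (h1 : S_Bas) {τ μ : ℂ} (hτ : 0 < τ.im) (hμ : μ ≠ 0) (θ₁ : ℂ) :
    AnalyticAt ℂ (wg τ μ θ₁) 0 := by
  obtain ⟨⟨r, hr, h⟩, -⟩ := h1 τ μ hτ hμ
  have hd : DifferentiableOn ℂ (wg τ μ θ₁) (Metric.ball 0 r) := fun s hs =>
    ((h θ₁ s (by simpa using hs)).2.2.2.1).differentiableAt.differentiableWithinAt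
  exact hd.analyticAt (Metric.ball_mem_nhds 0 hr)

theorem ana_mon (h1 : S_Bas) {τ μ : ℂ} (hτ : 0 < τ.im) (hμ : μ ≠ 0) (θ₁ θ₂ : ℂ) (n a b : ℕ) :
    AnalyticAt ℂ (fun s => xg τ μ s ^ a * (wg τ μ θ₁ s - n * θ₂) ^ b) 0 :=
  ((ana_xg h1 hτ hμ).pow a).mul (((ana_wg h1 hτ hμ θ₁).sub analyticAt_const).pow b)

theorem fg_aux (τ μ θ₁ θ₂ : ℂ) (n L : ℕ) (p : Fin L → Fin L → Polynomial ℤ) (ξ : ℂ) :
    fg τ μ θ₁ θ₂ n (auxP p ξ) = fun s => ∑ a : Fin L, ∑ b : Fin L, Polynomial.aeval ξ (p a b) *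
      (xg τ μ s ^ (a : ℕ) * (wg τ μ θ₁ s - n * θ₂) ^ (b : ℕ)) := by
  funext s
  simp only [fg, auxP, map_sum, map_mul, map_pow, eval_C, eval_X]
  simp [mul_assoc]

theorem ana_fg (h1 : S_Bas) {τ μ : ℂ} (hτ : 0 < τ.im) (hμ : μ ≠ 0) (θ₁ θ₂ : ℂ) (n L : ℕ)
    (p : Fin L → Fin L → Polynomial ℤ) (ξ : ℂ) :
    AnalyticAt ℂ (fg τ μ θ₁ θ₂ n (auxP p ξ)) 0 := by
  rw [fg_aux]
  exact Finset.analyticAt_fun_sum _ fun a _ => Finset.analyticAt_fun_sum _ fun b _ =>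
    analyticAt_const.mul (ana_mon h1 hτ hμ θ₁ θ₂ n a b)

theorem iter_fg (h1 : S_Bas) {τ μ : ℂ} (hτ : 0 < τ.im) (hμ : μ ≠ 0) (θ₁ θ₂ : ℂ) (n L t : ℕ)
    (p : Fin L → Fin L → Polynomial ℤ) (ξ : ℂ) :
    iteratedDeriv t (fg τ μ θ₁ θ₂ n (auxP p ξ)) 0 = ∑ a : Fin L, ∑ b : Fin L,
      Polynomial.aeval ξ (p a b) *
        iteratedDeriv t (fun s => xg τ μ s ^ (a : ℕ) * (wg τ μ θ₁ s - n * θ₂) ^ (b : ℕ)) 0 := by
  rw [fg_aux]
  have hm : ∀ (a b : Fin L), AnalyticAt ℂ (fun s => Polynomial.aeval ξ (p a b) *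
      (xg τ μ s ^ (a : ℕ) * (wg τ μ θ₁ s - n * θ₂) ^ (b : ℕ))) 0 := fun a b =>
    analyticAt_const.mul (ana_mon h1 hτ hμ θ₁ θ₂ n a b)
  rw [iteratedDeriv_fun_sum (fun a _ =>
    (Finset.analyticAt_fun_sum _ fun b _ => hm a b).contDiffAt)]
  refine Finset.sum_congr rfl fun a _ => ?_
  rw [iteratedDeriv_fun_sum (fun b _ => (hm a b).contDiffAt)]
  refine Finset.sum_congr rfl fun b _ => ?_
  rw [iteratedDeriv_const_mul_field]

theorem aux_eq {L : ℕ} (p : Fin L → Fin L → Polynomial ℤ) (ξ : ℂ) :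
    auxP p ξ = ∑ a : Fin L, ∑ b : Fin L,
      monomial (Finsupp.single 0 (a : ℕ) + Finsupp.single 1 (b : ℕ))
        (Polynomial.aeval ξ (p a b)) := by
  unfold auxP
  refine Finset.sum_congr rfl fun a _ => Finset.sum_congr rfl fun b _ => ?_
  rw [X_pow_eq_monomial, X_pow_eq_monomial, C_mul_monomial, monomial_mul]
  simp

theorem deg_aux {L : ℕ} (p : Fin L → Fin L → Polynomial ℤ) (ξ : ℂ) (i : Fin 2) :
    (auxP p ξ).degreeOf i ≤ L := by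
  rw [aux_eq]
  refine (degreeOf_sum_le _ _ _).trans (Finset.sup_le fun a _ => ?_)
  refine (degreeOf_sum_le _ _ _).trans (Finset.sup_le fun b _ => ?_)
  rw [degreeOf_le_iff]
  intro m hm
  have := Finset.mem_singleton.1 (support_monomial_subset hm)
  rw [this]
  fin_cases i
  · simp [a.2.le]
  · simp [b.2.le]

theorem coeff_aux {L : ℕ} (p : Fin L → Fin L → Polynomial ℤ) (ξ : ℂ) (m : Fin 2 →₀ ℕ) {B : ℝ}
    (hB : ∀ a b, ‖Polynomial.aeval ξ (p a b)‖ ≤ B) : ‖(auxP p ξ).coeff m‖ ≤ L ^ 2 * B := by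
  rw [aux_eq]
  simp only [coeff_sum, coeff_monomial]
  refine (norm_sum_le _ _).trans ?_
  have h : ∀ a : Fin L, ‖∑ b : Fin L, (if (Finsupp.single 0 (a : ℕ) + Finsupp.single 1 (b : ℕ) : Fin 2 →₀ ℕ) = m
      then Polynomial.aeval ξ (p a b) else 0)‖ ≤ L * B := by
    intro a
    refine (norm_sum_le _ _).trans ?_
    have h2 : ∀ b : Fin L, ‖(if (Finsupp.single 0 (a : ℕ) + Finsupp.single 1 (b : ℕ) : Fin 2 →₀ ℕ) = m
      then Polynomial.aeval ξ (p a b) else 0)‖ ≤ B := by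
      intro b
      split_ifs
      · exact hB a b
      · simpa using (norm_nonneg _).trans (hB a b)
    refine (Finset.sum_le_sum fun b _ => h2 b).trans ?_
    simp
  refine (Finset.sum_le_sum fun a _ => h a).trans ?_
  simp
  rw [sq, mul_assoc]

theorem aeval_bound (q : Polynomial ℤ) (ξ : ℂ) (D : ℕ) (H : ℝ) (hd : q.natDegree ≤ D)
    (hq : ∀ k, |((q.coeff k : ℤ) : ℝ)| ≤ Real.exp H) :
    ‖Polynomial.aeval ξ q‖ ≤ Real.exp (D + H + ‖ξ‖ * D) := by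
  rw [Polynomial.aeval_eq_sum_range' (Nat.lt_succ_of_le hd)]
  refine (norm_sum_le _ _).trans ?_
  have h : ∀ k ∈ Finset.range (D + 1), ‖(q.coeff k) • ξ ^ k‖ ≤ Real.exp (H + ‖ξ‖ * D) := by
    intro k hk
    rw [Finset.mem_range] at hk
    rw [zsmul_eq_mul, norm_mul, norm_pow, Real.exp_add]
    have e1 : ‖((q.coeff k : ℤ) : ℂ)‖ ≤ Real.exp H := by
      simpa using hq k
    have e2 : ‖ξ‖ ^ k ≤ Real.exp (‖ξ‖ * D) := by
      have e3 : ‖ξ‖ ≤ Real.exp ‖ξ‖ := by linarith [Real.add_one_le_exp ‖ξ‖]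
      calc ‖ξ‖ ^ k ≤ (Real.exp ‖ξ‖) ^ k := by gcongr
        _ ≤ (Real.exp ‖ξ‖) ^ D := by
          apply pow_le_pow_right₀ (Real.one_le_exp (norm_nonneg _)) (by omega)
        _ = Real.exp (‖ξ‖ * D) := by rw [← Real.exp_nat_mul]; ring_nf
    exact mul_le_mul e1 e2 (by positivity) (by positivity)
  refine (Finset.sum_le_sum h).trans ?_
  rw [Finset.sum_const, Finset.card_range, nsmul_eq_mul]
  calc ((D + 1 : ℕ) : ℝ) * Real.exp (H + ‖ξ‖ * D) ≤ Real.exp D * Real.exp (H + ‖ξ‖ * D) := by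
        gcongr
        push_cast
        exact Real.add_one_le_exp _
    _ = _ := by rw [← Real.exp_add]; ring_nf

theorem sz_le (L : ℕ) (hL : 1 ≤ L) : sz L ≤ L ^ 2 := by
  unfold sz
  have : Nat.log 2 L < L := Nat.log_lt_self 2 (by omega)
  nlinarith

theorem le_sz (L : ℕ) : L ≤ sz L := by
  unfold sz
  nlinarith [Nat.zero_le (Nat.log 2 L)]

theorem lt_pow (L : ℕ) : L + 1 ≤ 2 ^ (Nat.log 2 L + 1) :=
  Nat.lt_pow_succ_log_self (by norm_num) L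

/-- `(L + 1)^(c L) ≤ exp(c * sz L)` -/
theorem pow_le_exp (L c : ℕ) : ((L : ℝ) + 1) ^ (c * L) ≤ Real.exp (c * sz L) := by
  have h1 : (L : ℝ) + 1 ≤ Real.exp ((Nat.log 2 L + 1 : ℕ) : ℝ) := by
    have h2 : (L : ℝ) + 1 ≤ (2 : ℝ) ^ (Nat.log 2 L + 1) := by exact_mod_cast lt_pow L
    refine h2.trans ?_
    rw [← mul_one ((Nat.log 2 L + 1 : ℕ) : ℝ), Real.exp_nat_mul]
    gcongr
    linarith [Real.add_one_le_exp (1 : ℝ)]
  calc ((L : ℝ) + 1) ^ (c * L) ≤ (Real.exp ((Nat.log 2 L + 1 : ℕ) : ℝ)) ^ (c * L) := by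
        gcongr
    _ = Real.exp (c * sz L) := by
        rw [← Real.exp_nat_mul]
        unfold sz
        push_cast
        ring_nf

theorem siegel (h1 : S_Bas) (h2 : S_Val) {τ μ : ℂ} (hτ : 0 < τ.im) (hμ : μ ≠ 0) {i₀ : Fin 4}
    {C₁ : ℕ}
    (hS : ∀ (M N X : ℕ), 1 ≤ X → 1 ≤ N → C₁ * M ≤ N → N ≤ 2 ^ X →
      ∀ A : Fin M → Fin N → MvPolynomial (Fin 4) ℤ,
        (∀ j i, (A j i).totalDegree ≤ X ∧ len (A j i) ≤ Real.exp X) →
        ∃ p : Fin N → Polynomial ℤ,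
          (∀ i, (p i).natDegree ≤ C₁ * X ∧
            ∀ k, |(((p i).coeff k : ℤ) : ℝ)| ≤ Real.exp ((C₁ * X : ℕ) : ℝ)) ∧
          (∀ x : ℂ, ∃ i, Polynomial.aeval x (p i) ≠ 0) ∧
          ∀ j, ∑ i, Polynomial.aeval (th τ μ i₀) (p i) * aeval (th τ μ) (A j i) = 0)
    (T L S X : ℕ) (hL : 1 ≤ L) (hX : 1 ≤ X) (hM : C₁ * (T * S) ≤ L * L) (hN : L * L ≤ 2 ^ X)
    (hsz : ∀ t n a b : ℕ, t < T → n < S → a < L → b < L → a + b + t ≤ X ∧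
      (10 * (a + b + t : ℝ)) ^ t * ((n : ℝ) + 1) ^ b ≤ Real.exp X) :
    ∃ p : Fin L → Fin L → Polynomial ℤ,
      (∀ a b, (p a b).natDegree ≤ C₁ * X ∧
        ∀ k, |(((p a b).coeff k : ℤ) : ℝ)| ≤ Real.exp ((C₁ * X : ℕ) : ℝ)) ∧
      (∀ x : ℂ, ∃ a b, Polynomial.aeval x (p a b) ≠ 0) ∧
      ∀ n < S, (T : ℕ∞) ≤ og τ μ (μ ^ 2 * et τ) (μ * kap) n (auxP p (th τ μ i₀)) := by
  choose A hA1 hA2 hA3 using h2
  obtain ⟨p, hp1, hp2, hp3⟩ := hS (T * S) (L * L) X hX (Nat.mul_pos hL hL) hM hN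
    (fun j i => A (finProdFinEquiv.symm j).1 (finProdFinEquiv.symm j).2
      (finProdFinEquiv.symm i).1 (finProdFinEquiv.symm i).2)
    (fun j i => by
      have h := hsz _ _ _ _ (finProdFinEquiv.symm j).1.2 (finProdFinEquiv.symm j).2.2
        (finProdFinEquiv.symm i).1.2 (finProdFinEquiv.symm i).2.2
      exact ⟨(hA1 _ _ _ _).trans h.1, (hA2 _ _ _ _).trans h.2⟩)
  refine ⟨fun a b => p (finProdFinEquiv (a, b)), fun a b => hp1 _, fun x => ?_, fun n hn => ?_⟩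
  · obtain ⟨i, hi⟩ := hp2 x
    refine ⟨(finProdFinEquiv.symm i).1, (finProdFinEquiv.symm i).2, ?_⟩
    show Polynomial.aeval x (p (finProdFinEquiv (finProdFinEquiv.symm i))) ≠ 0
    rw [Equiv.apply_symm_apply]
    exact hi
  · refine (natCast_le_analyticOrderAt_iff_iteratedDeriv_eq_zero
      (ana_fg h1 hτ hμ _ _ n L _ _)).2 fun t ht => ?_
    rw [iter_fg h1 hτ hμ]
    have h := hp3 (finProdFinEquiv (⟨t, ht⟩, ⟨n, hn⟩))
    rw [← finProdFinEquiv.sum_comp, Fintype.sum_prod_type] at h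
    simp only [Equiv.symm_apply_apply] at h
    refine Eq.trans ?_ h
    refine Finset.sum_congr rfl fun a _ => Finset.sum_congr rfl fun b _ => ?_
    rw [hA3 t n a b τ μ _ _ hτ hμ]
    rfl

theorem size_ok (K₀ L t n a b S : ℕ) (ht : t < K₀ * L) (hS : S ≤ L) (hn : n < S) (ha : a < L)
    (hb : b < L) :
    a + b + t ≤ (10 * (2 + K₀) * K₀ + K₀ + 2) * sz L ∧
    (10 * (a + b + t : ℝ)) ^ t * ((n : ℝ) + 1) ^ b ≤
      Real.exp (((10 * (2 + K₀) * K₀ + K₀ + 2) * sz L : ℕ) : ℝ) := by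
  have hLs := le_sz L
  constructor
  · calc a + b + t ≤ (2 + K₀) * L := by nlinarith
      _ ≤ (10 * (2 + K₀) * K₀ + K₀ + 2) * sz L := by
        apply Nat.mul_le_mul _ hLs
        have : 0 ≤ 10 * (2 + K₀) * K₀ := Nat.zero_le _
        omega
  · have hL1 : (1 : ℝ) ≤ (L : ℝ) + 1 := by
      have : (0 : ℝ) ≤ L := Nat.cast_nonneg _
      linarith
    have e0 : (a : ℝ) + b + t ≤ (2 + K₀) * (L + 1) := by
      have e1 : (a : ℝ) ≤ L := by exact_mod_cast ha.le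
      have e2 : (b : ℝ) ≤ L := by exact_mod_cast hb.le
      have e3 : (t : ℝ) ≤ K₀ * L := by exact_mod_cast ht.le
      have e4 : (0 : ℝ) ≤ K₀ := Nat.cast_nonneg _
      nlinarith
    have e1 : (10 * (a + b + t : ℝ)) ≤ Real.exp (10 * (2 + K₀)) * (L + 1) := by
      calc (10 * (a + b + t : ℝ)) ≤ (10 * (2 + K₀)) * (L + 1) := by nlinarith
        _ ≤ _ := by
          gcongr
          linarith [Real.add_one_le_exp (10 * (2 + (K₀ : ℝ)))]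
    have hb1 : (1 : ℝ) ≤ Real.exp (10 * (2 + K₀)) * (L + 1) := by
      have : (1 : ℝ) ≤ Real.exp (10 * (2 + K₀)) := Real.one_le_exp (by positivity)
      nlinarith
    have e2 : (10 * (a + b + t : ℝ)) ^ t ≤ (Real.exp (10 * (2 + K₀)) * (L + 1)) ^ (K₀ * L) := by
      calc (10 * (a + b + t : ℝ)) ^ t ≤ (Real.exp (10 * (2 + K₀)) * (L + 1)) ^ t := by
            apply pow_le_pow_left₀ _ e1
            positivity
        _ ≤ _ := pow_le_pow_right₀ hb1 ht.le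
    have e3 : ((n : ℝ) + 1) ^ b ≤ ((L : ℝ) + 1) ^ (1 * L) := by
      have : (n : ℝ) ≤ L := by exact_mod_cast (by omega : n ≤ L)
      calc ((n : ℝ) + 1) ^ b ≤ ((L : ℝ) + 1) ^ b := by gcongr
        _ ≤ _ := pow_le_pow_right₀ hL1 (by omega)
    have e4 : (Real.exp (10 * (2 + K₀)) * (L + 1)) ^ (K₀ * L) ≤
        Real.exp ((10 * (2 + K₀) * K₀) * sz L) * Real.exp (K₀ * sz L) := by
      rw [mul_pow]
      refine mul_le_mul ?_ (pow_le_exp L K₀) (by positivity) (by positivity)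
      rw [← Real.exp_nat_mul]
      apply Real.exp_le_exp.2
      have : (L : ℝ) ≤ sz L := by exact_mod_cast hLs
      push_cast
      have h5 : (0 : ℝ) ≤ 10 * (2 + K₀) * K₀ := by positivity
      nlinarith
    calc (10 * (a + b + t : ℝ)) ^ t * ((n : ℝ) + 1) ^ b
        ≤ (Real.exp ((10 * (2 + K₀) * K₀) * sz L) * Real.exp (K₀ * sz L)) *
          Real.exp ((1 : ℕ) * sz L) := by
          refine mul_le_mul (e2.trans e4) (e3.trans (pow_le_exp L 1)) (by positivity)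
            (by positivity)
      _ ≤ _ := by
          rw [← Real.exp_add, ← Real.exp_add]
          apply Real.exp_le_exp.2
          push_cast
          have : (0 : ℝ) ≤ sz L := Nat.cast_nonneg _
          nlinarith

theorem sq_le_two_pow (L c : ℕ) (hL : 1 ≤ L) (hc : 2 ≤ c) : L * L ≤ 2 ^ (c * sz L) := by
  have h := lt_pow L
  have h1 : L ≤ 2 ^ (Nat.log 2 L + 1) := by omega
  calc L * L ≤ 2 ^ (Nat.log 2 L + 1) * 2 ^ (Nat.log 2 L + 1) := Nat.mul_le_mul h1 h1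
    _ = 2 ^ (2 * (Nat.log 2 L + 1)) := by rw [← pow_add]; ring_nf
    _ ≤ _ := by
      apply Nat.pow_le_pow_right (by norm_num)
      unfold sz
      have : 1 * (Nat.log 2 L + 1) ≤ L * (Nat.log 2 L + 1) := Nat.mul_le_mul_right _ hL
      nlinarith

theorem fact_bound (t K L : ℕ) (C : ℝ) (hC : 1 ≤ C) (ht : t ≤ K * L) :
    t.factorial * C ^ t ≤ Real.exp (C * K ^ 2 * L ^ 2) := by
  have h1 : (t.factorial : ℝ) ≤ (t : ℝ) ^ t := by exact_mod_cast Nat.factorial_le_pow t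
  have h2 : (t : ℝ) * C ≤ Real.exp (t * C) := by linarith [Real.add_one_le_exp (t * C)]
  calc (t.factorial : ℝ) * C ^ t ≤ (t : ℝ) ^ t * C ^ t := by gcongr
    _ = (t * C) ^ t := by rw [mul_pow]
    _ ≤ (Real.exp (t * C)) ^ t := by gcongr
    _ = Real.exp (t * (t * C)) := by rw [← Real.exp_nat_mul]
    _ ≤ _ := by
      apply Real.exp_le_exp.2
      have h3 : (t : ℝ) ≤ K * L := by exact_mod_cast ht
      have h4 : (0 : ℝ) ≤ t := Nat.cast_nonneg _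
      have h5 : (t : ℝ) * t ≤ (K * L) * (K * L) := mul_le_mul h3 h3 h4 (by positivity)
      calc (t : ℝ) * (t * C) = C * (t * t) := by ring
        _ ≤ C * ((K * L) * (K * L)) := by gcongr
        _ = _ := by ring

end I_Aux

/-- F1 for all lattices. -/
def S_AuxG : Prop := ∀ τ μ : ℂ, 0 < τ.im → μ ≠ 0 → TrLe 1 (th τ μ) → ∃ (i₀ : Fin 4) (C : ℕ), 1 ≤ C ∧
  ∀ K : ℕ, ∃ L₀ : ℕ, ∀ L : ℕ, L₀ ≤ L → ∃ p : Fin L → Fin L → Polynomial ℤ,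
    (∀ a b, (p a b).natDegree ≤ C * sz L ∧
      ∀ k, |(((p a b).coeff k : ℤ) : ℝ)| ≤ Real.exp ((C * sz L : ℕ) : ℝ)) ∧
    (∀ x : ℂ, ∃ a b, Polynomial.aeval x (p a b) ≠ 0) ∧
    ∀ n t : ℕ, C * n ≤ L → t ≤ K * L →
      ‖iteratedDeriv t (fg τ μ (μ ^ 2 * et τ) (μ * kap) n (auxP p (th τ μ i₀))) 0‖ ≤
        Real.exp (-((L : ℝ) ^ 3 / C))

open I_Aux in
theorem AuxG_pf (h1 : S_Bas) (h2 : S_Val) (h3 : S_Small) (h4 : S_SiegT) : S_AuxG := by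
  intro τ μ hτ hμ hT
  obtain ⟨i₀, C₁, hC₁, hS⟩ := h4 (Fin 4) (th τ μ) hT
  obtain ⟨C₂, hC₂, hSm⟩ := h3 τ μ hτ hμ
  -- constants
  have hC1r : (1 : ℝ) ≤ C₁ := by exact_mod_cast hC₁
  set ρ : ℝ := 1 / (8 * C₂ ^ 2 * C₁) with hρ
  have hρ0 : 0 < ρ := by positivity
  set K₀ : ℕ := ⌈16 * C₂ ^ 3⌉₊ with hK₀
  have hK₀1 : 16 * C₂ ^ 3 ≤ K₀ := Nat.le_ceil _
  have hK₀2 : 1 ≤ K₀ := by
    have : (1 : ℝ) ≤ K₀ := by nlinarith [one_le_pow₀ hC₂ (n := 3)]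
    exact_mod_cast this
  have hK₀r : (1 : ℝ) ≤ K₀ := by exact_mod_cast hK₀2
  set C₃ : ℕ := 10 * (2 + K₀) * K₀ + K₀ + 2 with hC₃
  set γ : ℝ := ρ / (C₁ * C₂) with hγ
  have hγ0 : 0 < γ := by positivity
  set C₅ : ℝ := 1 + (2 + ‖th τ μ i₀‖) * (C₁ * C₃ : ℕ) with hC₅
  have hC₅1 : 1 ≤ C₅ := by
    have : (0 : ℝ) ≤ (2 + ‖th τ μ i₀‖) * (C₁ * C₃ : ℕ) := by positivity
    linarith
  set C : ℕ := C₁ * C₃ + ⌈2 / γ⌉₊ + ⌈2 * C₂ / ρ⌉₊ with hC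
  have hCa : C₁ * C₃ ≤ C := by omega
  have hCb : 2 / γ ≤ C := by
    have : (⌈2 / γ⌉₊ : ℝ) ≤ C := by exact_mod_cast (by omega : ⌈2 / γ⌉₊ ≤ C)
    exact (Nat.le_ceil _).trans this
  have hCc : 2 * C₂ / ρ ≤ C := by
    have : (⌈2 * C₂ / ρ⌉₊ : ℝ) ≤ C := by exact_mod_cast (by omega : ⌈2 * C₂ / ρ⌉₊ ≤ C)
    exact (Nat.le_ceil _).trans this
  have hC1 : 1 ≤ C := by
    have : 1 ≤ C₁ * C₃ := Nat.mul_pos hC₁ (by omega)
    omega
  refine ⟨i₀, C, hC1, fun K => ?_⟩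
  set E : ℝ := (C₂ * K ^ 2 + C₅ + K₀ * ρ / C₂) * (8 / (3 * γ)) with hE
  refine ⟨⌈E⌉₊ + ⌈2 * C₂ / ρ⌉₊ + 2, fun L hL => ?_⟩
  have hL1 : 1 ≤ L := by omega
  have hLE : E ≤ L := by
    have : (⌈E⌉₊ : ℝ) ≤ L := by exact_mod_cast (by omega : ⌈E⌉₊ ≤ L)
    exact (Nat.le_ceil _).trans this
  have hLc : 2 * C₂ / ρ ≤ L := by
    have : (⌈2 * C₂ / ρ⌉₊ : ℝ) ≤ L := by exact_mod_cast (by omega : ⌈2 * C₂ / ρ⌉₊ ≤ L)
    exact (Nat.le_ceil _).trans this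
  have hL0 : (0 : ℝ) < L := by exact_mod_cast hL1
  have hL1r : (1 : ℝ) ≤ L := by exact_mod_cast hL1
  set S : ℕ := L / (C₁ * K₀) with hSdef
  have hpos : 0 < C₁ * K₀ := Nat.mul_pos hC₁ hK₀2
  have hS1 : C₁ * K₀ * S ≤ L := Nat.mul_div_le L (C₁ * K₀)
  have hS2 : L < C₁ * K₀ * (S + 1) := by
    rw [hSdef]
    exact Nat.lt_mul_div_succ L hpos
  have hSL : S ≤ L := Nat.div_le_self _ _
  have hss : 1 ≤ sz L := hL1.trans (le_sz L)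
  obtain ⟨p, hp1, hp2, hp3⟩ := siegel h1 h2 hτ hμ hS (K₀ * L) L S (C₃ * sz L) hL1
    (Nat.mul_pos (by omega) hss)
    (by
      calc C₁ * (K₀ * L * S) = (C₁ * K₀ * S) * L := by ring
        _ ≤ L * L := Nat.mul_le_mul_right _ hS1)
    (sq_le_two_pow L C₃ hL1 (by omega))
    (fun t n a b ht hn ha hb => size_ok K₀ L t n a b S ht hSL hn ha hb)
  have hmono : C₁ * (C₃ * sz L) ≤ C * sz L := by
    rw [← mul_assoc]
    exact Nat.mul_le_mul_right _ hCa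
  refine ⟨p, fun a b => ⟨(hp1 a b).1.trans hmono, fun k => ((hp1 a b).2 k).trans ?_⟩, hp2, ?_⟩
  · apply Real.exp_le_exp.2
    exact_mod_cast hmono
  intro n t hn ht
  -- the coefficients
  have hszL : (sz L : ℝ) ≤ (L : ℝ) ^ 2 := by exact_mod_cast sz_le L hL1
  have hcoef : ∀ m, ‖(auxP p (th τ μ i₀)).coeff m‖ ≤ Real.exp (C₅ * L ^ 2) := by
    intro m
    have hB : ∀ a b, ‖Polynomial.aeval (th τ μ i₀) (p a b)‖ ≤
        Real.exp ((C₁ * (C₃ * sz L) : ℕ) + (C₁ * (C₃ * sz L) : ℕ) +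
          ‖th τ μ i₀‖ * (C₁ * (C₃ * sz L) : ℕ)) := fun a b =>
      aeval_bound (p a b) (th τ μ i₀) (C₁ * (C₃ * sz L)) _ (hp1 a b).1 (hp1 a b).2
    refine (coeff_aux p (th τ μ i₀) m hB).trans ?_
    have e1 : (L : ℝ) ^ 2 ≤ Real.exp ((L : ℝ) ^ 2) := by linarith [Real.add_one_le_exp ((L : ℝ) ^ 2)]
    refine (mul_le_mul_of_nonneg_right e1 (Real.exp_nonneg _)).trans ?_
    rw [← Real.exp_add]
    apply Real.exp_le_exp.2
    have e2 : ((C₁ * (C₃ * sz L) : ℕ) : ℝ) ≤ (C₁ * C₃ : ℕ) * (L : ℝ) ^ 2 := by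
      push_cast
      rw [← mul_assoc]
      gcongr
    have e3 : 0 ≤ ‖th τ μ i₀‖ := norm_nonneg _
    rw [hC₅]
    nlinarith [mul_le_mul_of_nonneg_left e2 e3]
  -- S_Small
  have hSr : (C₁ * K₀ * S : ℝ) ≤ L := by exact_mod_cast hS1
  have hSr2 : (L : ℝ) < C₁ * K₀ * (S + 1) := by exact_mod_cast hS2
  have hρL : C₂ ≤ ρ * L / 2 := by
    rw [div_le_iff₀ hρ0] at hLc
    linarith
  have hCS : C₂ * S ≤ ρ * L / 2 := by
    have e1 : C₁ * (16 * C₂ ^ 3) * S ≤ L := by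
      refine le_trans ?_ hSr
      gcongr
    have e2 : ρ * L / 2 = L / (16 * C₂ ^ 2 * C₁) := by
      rw [hρ]
      field_simp
      ring
    rw [e2, le_div_iff₀ (by positivity)]
    have e3 : C₂ * S * (16 * C₂ ^ 2 * C₁) = C₁ * (16 * C₂ ^ 3) * S := by ring
    rw [e3]
    exact e1
  have hCn : C₂ * n ≤ ρ * L / 2 := by
    have e1 : (C : ℝ) * n ≤ L := by exact_mod_cast hn
    have e2 : 2 * C₂ / ρ * n ≤ L := by
      refine le_trans ?_ e1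
      gcongr
    have e3 : 2 * C₂ / ρ * n = (2 * C₂ * n) / ρ := by ring
    rw [e3, div_le_iff₀ hρ0] at e2
    linarith
  have hfin := hSm L (K₀ * L) S (ρ * L) (C₅ * L ^ 2) (auxP p (th τ μ i₀)) hL1
    (by nlinarith [one_le_pow₀ hL1r (n := 2)]) (by linarith) (deg_aux p _ 0) (deg_aux p _ 1) hcoef
    hp3 n t (by linarith)
  refine hfin.trans ?_
  have hfb := fact_bound t K L C₂ hC₂ ht
  refine (mul_le_mul_of_nonneg_right hfb (Real.exp_nonneg _)).trans ?_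
  rw [← Real.exp_add]
  apply Real.exp_le_exp.2
  -- numbers
  have f1 : C₂ * L * (ρ * L) ^ 2 = γ / 8 * L ^ 3 := by
    rw [hγ, hρ]
    field_simp
  have f2 : γ * L ^ 3 - K₀ * ρ / C₂ * L ^ 2 ≤ ((K₀ * L : ℕ) : ℝ) * S * (ρ * L) / C₂ := by
    have g1 : (L : ℝ) / C₁ - K₀ ≤ K₀ * S := by
      have : (L : ℝ) / C₁ ≤ K₀ * (S + 1) := by
        rw [div_le_iff₀ (by positivity)]
        linarith
      linarith
    have g2 : 0 ≤ ρ * L ^ 2 / C₂ := by positivity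
    have g3 := mul_le_mul_of_nonneg_left g1 g2
    have g4 : ρ * L ^ 2 / C₂ * ((L : ℝ) / C₁ - K₀) = γ * L ^ 3 - K₀ * ρ / C₂ * L ^ 2 := by
      rw [hγ]
      field_simp
    have g5 : ρ * L ^ 2 / C₂ * (K₀ * S : ℝ) = ((K₀ * L : ℕ) : ℝ) * S * (ρ * L) / C₂ := by
      push_cast
      ring
    rw [g4, g5] at g3
    exact g3
  have f3 : (C₂ * K ^ 2 + C₅ + K₀ * ρ / C₂) * L ^ 2 ≤ 3 / 8 * γ * L ^ 3 := by
    have g1 : (C₂ * K ^ 2 + C₅ + K₀ * ρ / C₂) ≤ 3 / 8 * γ * L := by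
      have : (C₂ * K ^ 2 + C₅ + K₀ * ρ / C₂) = 3 / 8 * γ * E := by
        rw [hE]
        field_simp
      rw [this]
      gcongr
    calc (C₂ * K ^ 2 + C₅ + K₀ * ρ / C₂) * L ^ 2 ≤ (3 / 8 * γ * L) * L ^ 2 := by gcongr
      _ = _ := by ring
  have f4 : (L : ℝ) ^ 3 / C ≤ γ / 2 * L ^ 3 := by
    have hC0 : (0 : ℝ) < C := by exact_mod_cast hC1
    rw [div_le_iff₀ hC0]
    have : 2 ≤ C * γ := by rwa [div_le_iff₀ hγ0] at hCb
    have h5 : (0 : ℝ) ≤ L ^ 3 := by positivity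
    nlinarith
  have f5 : C₂ * K ^ 2 * L ^ 2 + (C₂ * L * (ρ * L) ^ 2 + C₅ * L ^ 2 -
      ((K₀ * L : ℕ) : ℝ) * S * (ρ * L) / C₂) ≤ -(γ / 2 * L ^ 3) := by
    rw [f1]
    nlinarith
  linarith

theorem Aux_pf (h1 : S_Bas) (h2 : S_Val) (h3 : S_Small) (h4 : S_SiegT) : S_Aux :=
  fun τ μ hN hT => AuxG_pf h1 h2 h3 h4 τ μ hN.im hN.mu hT

end Pool.Agent.Work.MP_8da9ea_nt.CH
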