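import Pool.Agent.Work.MP_8da9ea_nt.CH.Stmts

/-!
# `BaseCM`: the inequality of the problem without points, in the case of complex multiplication
-/

set_option autoImplicit false

namespace Pool.Agent.Work.MP_8da9ea_nt.CH

namespace I_BaseCM

/-- The dimension `tDim` of the empty family is `0`. -/
theorem tDim_zero (t : Fin 0 → ℂ) : tDim t = 0 := by
  have h : Module.finrank ℚ (Submodule.span ℚ (Set.range t ∪ {2 * (Real.pi : ℂ) * Complex.I})) ≤ 1 := by
    rw [Set.range_eq_empty t, Set.empty_union]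
    have h1 := finrank_span_finset_le_card (R := ℚ) ({2 * (Real.pi : ℂ) * Complex.I} : Finset ℂ)
    rw [Finset.coe_singleton, Finset.card_singleton] at h1
    exact h1
  unfold tDim
  omega

/-- The dimension `kDim2` of the empty family is `0` in the case of complex multiplication. -/
theorem kDim2_zero (ω₁ ω₂ : ℂ) (hcm : IsCM ω₁ ω₂) (p : Fin 0 → ℂ) : kDim2 ω₁ ω₂ p = 0 := by
  have h : Module.finrank ℚ (Submodule.span ℚ
      (Set.range p ∪ Set.range (fun i => ω₂ / ω₁ * p i) ∪ {ω₁, ω₂})) ≤ 2 := by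
    rw [Set.range_eq_empty p, Set.range_eq_empty (fun i => ω₂ / ω₁ * p i), Set.empty_union,
      Set.empty_union]
    have h1 := finrank_span_finset_le_card (R := ℚ) ({ω₁, ω₂} : Finset ℂ)
    have h2 : ({ω₁, ω₂} : Finset ℂ).card ≤ 2 := Finset.card_le_two
    have h3 : (({ω₁, ω₂} : Finset ℂ) : Set ℂ) = {ω₁, ω₂} := by simp
    rw [h3] at h1
    exact le_trans h1 h2
  unfold kDim2
  rw [if_pos hcm]
  omega

end I_BaseCM

/-- F4: the inequality of the problem holds without points for every lattice with complex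
multiplication and algebraic invariant. -/
theorem BaseCM_pf (h : S_Period) : S_BaseCM := by
  intro ω₁ ω₂ hli hj hcm t p
  unfold Q1
  rw [if_pos hcm, I_BaseCM.tDim_zero, I_BaseCM.kDim2_zero ω₁ ω₂ hcm]
  exact h ω₁ ω₂ hli hj 0 0 t p

end Pool.Agent.Work.MP_8da9ea_nt.CH
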