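import Pool.Agent.Work.MP_8da9ea_nt.CH.Stmts

/-!
# Z3: Bezout by counting dimensions
-/

set_option autoImplicit false

namespace Pool.Agent.Work.MP_8da9ea_nt.CH

open MvPolynomial

namespace I_Bez

/-- exponents in a box -/
def box (A B : ℕ) : Set (Fin 2 →₀ ℕ) := {m | m 0 < A ∧ m 1 < B}

/-- polynomials with exponents in a box -/
noncomputable def E (A B : ℕ) : Submodule ℂ (MvPolynomial (Fin 2) ℂ) :=
  restrictSupport ℂ (box A B)

/-- the box is a product -/
noncomputable def boxEquiv (A B : ℕ) : box A B ≃ Fin A × Fin B where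
  toFun m := (⟨m.1 0, m.2.1⟩, ⟨m.1 1, m.2.2⟩)
  invFun p := ⟨Finsupp.equivFunOnFinite.symm ![p.1.1, p.2.1], by
    refine ⟨?_, ?_⟩
    · simp
    · simp⟩
  left_inv m := by
    apply Subtype.ext
    ext i
    fin_cases i <;> simp
  right_inv p := by
    refine Prod.ext ?_ ?_
    · apply Fin.ext
      simp
    · apply Fin.ext
      simp

/-- the basis of the box space -/
noncomputable def bas (A B : ℕ) : Module.Basis (Fin A × Fin B) ℂ (E A B) :=
  (basisRestrictSupport ℂ (box A B)).reindex (boxEquiv A B)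

instance finE (A B : ℕ) : Module.Finite ℂ (E A B) := Module.Finite.of_basis (bas A B)

theorem finrank_E (A B : ℕ) : Module.finrank ℂ (E A B) = A * B := by
  rw [Module.finrank_eq_card_basis (bas A B), Fintype.card_prod, Fintype.card_fin,
    Fintype.card_fin]

theorem mem_E {A B : ℕ} (hA : 0 < A) (hB : 0 < B) (f : MvPolynomial (Fin 2) ℂ) :
    f ∈ E A B ↔ f.degreeOf 0 < A ∧ f.degreeOf 1 < B := by
  rw [degreeOf_lt_iff hA, degreeOf_lt_iff hB]
  unfold E
  rw [mem_restrictSupport_iff]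
  constructor
  · intro h
    exact ⟨fun m hm => (h (Finset.mem_coe.mpr hm)).1, fun m hm => (h (Finset.mem_coe.mpr hm)).2⟩
  · rintro ⟨h1, h2⟩ m hm
    exact ⟨h1 m (Finset.mem_coe.mp hm), h2 m (Finset.mem_coe.mp hm)⟩

theorem mul_mem {A B a b : ℕ} (hA : 0 < A) (hB : 0 < B) {P u : MvPolynomial (Fin 2) ℂ}
    (h0 : P.degreeOf 0 ≤ a) (h1 : P.degreeOf 1 ≤ b) (hu : u ∈ E A B) :
    P * u ∈ E (A + a) (B + b) := by
  rw [mem_E hA hB] at hu
  rw [mem_E (by omega) (by omega)]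
  have h2 := degreeOf_mul_le 0 P u
  have h3 := degreeOf_mul_le 1 P u
  omega

/-- the count for one box -/
theorem count {P Q : MvPolynomial (Fin 2) ℂ} {a b : ℕ} (hP : Irreducible P) (hPQ : ¬ P ∣ Q)
    (ha : Q.degreeOf 0 ≤ a) (hb : Q.degreeOf 1 ≤ b) {d : ℕ}
    (Λ : MvPolynomial (Fin 2) ℂ →ₗ[ℂ] (Fin d → ℂ))
    (hΛP : ∀ u, Λ (P * u) = 0) (hΛQ : ∀ u, Λ (Q * u) = 0) (A B : ℕ) (hA : 0 < A) (hB : 0 < B) :
    Module.finrank ℂ (LinearMap.range (Λ.domRestrict
      (E (A + a + P.degreeOf 0) (B + b + P.degreeOf 1)))) ≤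
      P.degreeOf 0 * b + P.degreeOf 1 * a := by
  set a₁ := P.degreeOf 0 with ha₁
  set b₁ := P.degreeOf 1 with hb₁
  have hP0 : P ≠ 0 := hP.ne_zero
  -- the map `(u, v) ↦ P u + Q v`
  have hm1 : ∀ u : E (A + a) (B + b), P * u.1 ∈ E (A + a + a₁) (B + b + b₁) := fun u =>
    mul_mem (by omega) (by omega) le_rfl le_rfl u.2
  have hm2 : ∀ v : E (A + a₁) (B + b₁), Q * v.1 ∈ E (A + a + a₁) (B + b + b₁) := fun v => by
    have h := mul_mem (by omega) (by omega) ha hb v.2
    have e1 : A + a₁ + a = A + a + a₁ := by omega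
    have e2 : B + b₁ + b = B + b + b₁ := by omega
    rw [e1, e2] at h
    exact h
  let φ₁ : E (A + a) (B + b) →ₗ[ℂ] E (A + a + a₁) (B + b + b₁) :=
    LinearMap.codRestrict _ ((LinearMap.mulLeft ℂ P).comp (E (A + a) (B + b)).subtype) hm1
  let φ₂ : E (A + a₁) (B + b₁) →ₗ[ℂ] E (A + a + a₁) (B + b + b₁) :=
    LinearMap.codRestrict _ ((LinearMap.mulLeft ℂ Q).comp (E (A + a₁) (B + b₁)).subtype) hm2
  let φ : (E (A + a) (B + b) × E (A + a₁) (B + b₁)) →ₗ[ℂ] E (A + a + a₁) (B + b + b₁) :=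
    φ₁.coprod φ₂
  have hφ : ∀ u v, (φ (u, v)).1 = P * u.1 + Q * v.1 := fun u v => by
    show ((φ₁ u + φ₂ v : E (A + a + a₁) (B + b + b₁)) : MvPolynomial (Fin 2) ℂ) = _
    rfl
  -- the map `v ↦ (-Q v, P v)`
  have hm3 : ∀ v : E A B, -(Q * v.1) ∈ E (A + a) (B + b) := fun v =>
    Submodule.neg_mem _ (mul_mem hA hB ha hb v.2)
  have hm4 : ∀ v : E A B, P * v.1 ∈ E (A + a₁) (B + b₁) := fun v =>
    mul_mem hA hB le_rfl le_rfl v.2
  let ψ₁ : E A B →ₗ[ℂ] E (A + a) (B + b) :=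
    LinearMap.codRestrict _ (-((LinearMap.mulLeft ℂ Q).comp (E A B).subtype)) hm3
  let ψ₂ : E A B →ₗ[ℂ] E (A + a₁) (B + b₁) :=
    LinearMap.codRestrict _ ((LinearMap.mulLeft ℂ P).comp (E A B).subtype) hm4
  let ψ : E A B →ₗ[ℂ] (E (A + a) (B + b) × E (A + a₁) (B + b₁)) := ψ₁.prod ψ₂
  have hker : LinearMap.ker φ ≤ LinearMap.range ψ := by
    rintro ⟨u, v⟩ huv
    have h1 : P * u.1 + Q * v.1 = 0 := by
      rw [← hφ u v]
      have := LinearMap.mem_ker.mp huv
      rw [this]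
      rfl
    have h2 : P ∣ Q * v.1 := ⟨-u.1, by linear_combination h1⟩
    have h3 : P ∣ v.1 := (hP.prime.dvd_or_dvd h2).resolve_left hPQ
    obtain ⟨w, hw⟩ := h3
    have h4 : u.1 = -(Q * w) := by
      apply mul_left_cancel₀ hP0
      rw [hw] at h1
      linear_combination h1
    have h5 : w ∈ E A B := by
      by_cases hw0 : w = 0
      · rw [hw0]
        exact Submodule.zero_mem _
      · have hv := v.2
        rw [mem_E (by omega) (by omega), hw, degreeOf_mul_eq hP0 hw0, degreeOf_mul_eq hP0 hw0]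
          at hv
        rw [mem_E hA hB]
        omega
    refine ⟨⟨w, h5⟩, ?_⟩
    refine Prod.ext ?_ ?_
    · apply Subtype.ext
      show -(Q * w) = u.1
      exact h4.symm
    · apply Subtype.ext
      show P * w = v.1
      exact hw.symm
  have hrange : LinearMap.range φ ≤
      LinearMap.ker (Λ.domRestrict (E (A + a + a₁) (B + b + b₁))) := by
    rintro _ ⟨⟨u, v⟩, rfl⟩
    rw [LinearMap.mem_ker, LinearMap.domRestrict_apply, hφ u v, map_add, hΛP, hΛQ, add_zero]
  have e1 := LinearMap.finrank_range_add_finrank_ker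
    (Λ.domRestrict (E (A + a + a₁) (B + b + b₁)))
  have e2 := LinearMap.finrank_range_add_finrank_ker φ
  have e3 := Submodule.finrank_mono hrange
  have e4 := Submodule.finrank_mono hker
  have e5 := LinearMap.finrank_range_le ψ
  rw [finrank_E] at e1 e5
  rw [Module.finrank_prod, finrank_E, finrank_E] at e2
  have e6 : (A + a + a₁) * (B + b + b₁) + A * B =
      (A + a) * (B + b) + (A + a₁) * (B + b₁) + (a₁ * b + b₁ * a) := by ring
  omega

end I_Bez

open I_Bez in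
/-- Z3: Bezout by counting. -/
theorem Bez_pf : S_Bez := by
  intro P Q a b hP hPQ ha hb d Λ hΛP hΛQ
  classical
  let bs := Module.finBasis ℂ (LinearMap.range Λ)
  have hex : ∀ i, ∃ f, Λ f = (bs i : Fin d → ℂ) := fun i => (bs i).2
  choose f hf using hex
  let N : ℕ := 1 + ∑ i, ((f i).degreeOf 0 + (f i).degreeOf 1)
  have hN : 0 < N := by omega
  have hle : ∀ i, (f i).degreeOf 0 + (f i).degreeOf 1 < N := fun i => by
    have := Finset.single_le_sum (f := fun i => (f i).degreeOf 0 + (f i).degreeOf 1)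
      (fun _ _ => Nat.zero_le _) (Finset.mem_univ i)
    have h2 : (f i).degreeOf 0 + (f i).degreeOf 1 ≤
      ∑ i, ((f i).degreeOf 0 + (f i).degreeOf 1) := this
    omega
  have hmem : ∀ i, f i ∈ E (N + a + P.degreeOf 0) (N + b + P.degreeOf 1) := fun i => by
    rw [mem_E (by omega) (by omega)]
    have := hle i
    omega
  refine le_trans (Submodule.finrank_mono ?_) (count hP hPQ ha hb Λ hΛP hΛQ N N hN hN)
  intro y hy
  have h1 := bs.sum_repr ⟨y, hy⟩
  have h2 : y = Λ (∑ i, (bs.repr ⟨y, hy⟩ i) • f i) := by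
    rw [map_sum]
    have h3 := congrArg (fun z : LinearMap.range Λ => (z : Fin d → ℂ)) h1
    simp only [AddSubmonoidClass.coe_finsetSum, Submodule.coe_smul] at h3
    refine h3.symm.trans ?_
    apply Finset.sum_congr rfl
    intro i _
    rw [map_smul, hf]
  refine ⟨⟨∑ i, (bs.repr ⟨y, hy⟩ i) • f i, ?_⟩, ?_⟩
  · exact Submodule.sum_mem _ fun i _ => Submodule.smul_mem _ _ (hmem i)
  · rw [LinearMap.domRestrict_apply]
    exact h2.symm

end Pool.Agent.Work.MP_8da9ea_nt.CH
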