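import Pool.Agent.Work.MP_8da9ea_nt.CH.Stmts
import Pool.Agent.Work.MP_327059_nt.Bd.B11

/-!
# Chudnovsky's theorem from the auxiliary function, the criterion and the zero estimate
-/

set_option autoImplicit false

namespace Pool.Agent.Work.MP_8da9ea_nt.CH

open MvPolynomial Filter Topology Pool.Agent.Work.MP_327059_nt.GL Pool.Agent.Work.MP_8da9ea_nt.S
  Pool.Agent.Work.MP_8da9ea_nt.EB

namespace I_Chud

/-! ### Algebraicity -/

theorem alg_root {e G2 G3 : ℂ} (h2 : IsAlgebraic ℚ G2) (h3 : IsAlgebraic ℚ G3)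
    (h : 4 * e ^ 3 - G2 * e - G3 = 0) : IsAlgebraic ℚ e := by
  set K := algebraicClosure ℚ ℂ with hK
  have g2 : G2 ∈ K := by rw [hK, mem_algebraicClosure_iff]; exact h2
  have g3 : G3 ∈ K := by rw [hK, mem_algebraicClosure_iff]; exact h3
  have hKe : IsAlgebraic K e := by
    refine ⟨Polynomial.C 4 * Polynomial.X ^ 3 - Polynomial.C (⟨G2, g2⟩ : K) * Polynomial.X -
      Polynomial.C (⟨G3, g3⟩ : K), ?_, ?_⟩
    · intro h0
      have h1 := congrArg (fun p : Polynomial K => p.coeff 3) h0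
      simp at h1
    · rw [← h]
      simp only [map_sub, map_mul, map_pow, Polynomial.aeval_C, Polynomial.aeval_X]
      rfl
  exact @IsAlgebraic.restrictScalars ℚ (algebraicClosure ℚ ℂ) ℂ _ _ _ _ _ _ _ _
    (algebraicClosure.isAlgebraic ℚ ℂ) _ hKe

theorem trle (τ μ : ℂ) (h : TrLe 1 ![μ ^ 2 * et τ, μ * kap])
    (he : IsAlgebraic ℚ (xe τ μ (1 / 2))) (hH : IsAlgebraic ℚ (μ ^ 4 * gg2 τ / 2)) :
    TrLe 1 (th τ μ) := by
  intro s hs
  have h1 : ∀ i, ∃ j : Fin 2, th τ μ (s i) = ![μ ^ 2 * et τ, μ * kap] j := by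
    intro i
    have h2 := hs.transcendental i
    have h3 : s i = 0 ∨ s i = 1 ∨ s i = 2 ∨ s i = 3 := by
      have := (s i).isLt
      have h4 : (s i : ℕ) = 0 ∨ (s i : ℕ) = 1 ∨ (s i : ℕ) = 2 ∨ (s i : ℕ) = 3 := by omega
      rcases h4 with h4 | h4 | h4 | h4
      · exact Or.inl (Fin.ext h4)
      · exact Or.inr (Or.inl (Fin.ext h4))
      · exact Or.inr (Or.inr (Or.inl (Fin.ext h4)))
      · exact Or.inr (Or.inr (Or.inr (Fin.ext h4)))
    rcases h3 with h3 | h3 | h3 | h3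
    · exact ⟨0, by rw [h3]; simp [th]⟩
    · exact ⟨1, by rw [h3]; simp [th]⟩
    · exfalso
      apply h2
      rw [h3]
      simpa [th] using he
    · exfalso
      apply h2
      rw [h3]
      simpa [th] using hH
  choose j hj using h1
  apply h j
  convert hs using 1
  funext i
  exact (hj i).symm

/-! ### Analyticity and the values -/

theorem an_xg (hB : S_Bas) {τ μ : ℂ} (hτ : 0 < τ.im) (hμ : μ ≠ 0) : AnalyticAt ℂ (xg τ μ) 0 := by
  obtain ⟨⟨r, hr, h⟩, -⟩ := hB τ μ hτ hμ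
  have hd : DifferentiableOn ℂ (xg τ μ) (Metric.ball 0 r) := by
    intro s hs
    rw [mem_ball_zero_iff] at hs
    exact (h 0 s hs).2.1.differentiableAt.differentiableWithinAt
  exact hd.analyticAt (Metric.ball_mem_nhds 0 hr)

theorem an_wg (hB : S_Bas) {τ μ : ℂ} (θ₁ : ℂ) (hτ : 0 < τ.im) (hμ : μ ≠ 0) :
    AnalyticAt ℂ (wg τ μ θ₁) 0 := by
  obtain ⟨⟨r, hr, h⟩, -⟩ := hB τ μ hτ hμ
  have hd : DifferentiableOn ℂ (wg τ μ θ₁) (Metric.ball 0 r) := by
    intro s hs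
    rw [mem_ball_zero_iff] at hs
    exact (h θ₁ s hs).2.2.2.1.differentiableAt.differentiableWithinAt
  exact hd.analyticAt (Metric.ball_mem_nhds 0 hr)

theorem fg_aux {L : ℕ} (τ μ θ₁ θ₂ : ℂ) (n : ℕ) (p : Fin L → Fin L → Polynomial ℤ) (ξ : ℂ) :
    fg τ μ θ₁ θ₂ n (auxP p ξ) = fun s => ∑ a : Fin L, ∑ b : Fin L,
      Polynomial.aeval ξ (p a b) * (xg τ μ s ^ (a : ℕ) * (wg τ μ θ₁ s - n * θ₂) ^ (b : ℕ)) := by
  funext s
  unfold fg auxP
  rw [map_sum]
  refine Finset.sum_congr rfl fun a _ => ?_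
  rw [map_sum]
  refine Finset.sum_congr rfl fun b _ => ?_
  simp only [map_mul, map_pow, eval_C, eval_X, Matrix.cons_val_zero, Matrix.cons_val_one]
  ring

/-- The values of the derivatives of the auxiliary function as integral polynomials. -/
noncomputable def BB {L : ℕ} (A : ℕ → ℕ → ℕ → ℕ → MvPolynomial (Fin 4) ℤ)
    (p : Fin L → Fin L → Polynomial ℤ) (i₀ : Fin 4) (n t : ℕ) : MvPolynomial (Fin 4) ℤ :=
  ∑ a : Fin L, ∑ b : Fin L,
    Polynomial.aeval (X i₀ : MvPolynomial (Fin 4) ℤ) (p a b) * A t n a b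

theorem aeval_one (v : Fin 4 → ℂ) (i₀ : Fin 4) (q : Polynomial ℤ) :
    aeval v (Polynomial.aeval (X i₀ : MvPolynomial (Fin 4) ℤ) q) = Polynomial.aeval (v i₀) q := by
  rw [← Polynomial.aeval_algHom_apply, aeval_X]

theorem an_mon (hB : S_Bas) {τ μ : ℂ} (θ₁ θ₂ : ℂ) (hτ : 0 < τ.im) (hμ : μ ≠ 0) (n a b : ℕ) :
    AnalyticAt ℂ (fun s => xg τ μ s ^ a * (wg τ μ θ₁ s - n * θ₂) ^ b) 0 :=
  ((an_xg hB hτ hμ).pow a).mul (((an_wg hB θ₁ hτ hμ).sub analyticAt_const).pow b)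

theorem val_eq (hB : S_Bas) {A : ℕ → ℕ → ℕ → ℕ → MvPolynomial (Fin 4) ℤ}
    (hA : ∀ t n a b : ℕ, ∀ (τ μ θ₁ θ₂ : ℂ), 0 < τ.im → μ ≠ 0 →
      iteratedDeriv t (fun s => xg τ μ s ^ a * (wg τ μ θ₁ s - n * θ₂) ^ b) 0 =
        aeval ![θ₁, θ₂, xe τ μ (1 / 2), μ ^ 4 * gg2 τ / 2] (A t n a b))
    {L : ℕ} (p : Fin L → Fin L → Polynomial ℤ) (i₀ : Fin 4) (τ μ θ₁ θ₂ : ℂ) (hτ : 0 < τ.im)
    (hμ : μ ≠ 0) (n t : ℕ) :
    iteratedDeriv t (fg τ μ θ₁ θ₂ n
      (auxP p ((![θ₁, θ₂, xe τ μ (1 / 2), μ ^ 4 * gg2 τ / 2] : Fin 4 → ℂ) i₀))) 0 =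
      aeval ![θ₁, θ₂, xe τ μ (1 / 2), μ ^ 4 * gg2 τ / 2] (BB A p i₀ n t) := by
  rw [fg_aux, iteratedDeriv_fun_sum]
  · unfold BB
    rw [map_sum]
    refine Finset.sum_congr rfl fun a _ => ?_
    rw [iteratedDeriv_fun_sum]
    · rw [map_sum]
      refine Finset.sum_congr rfl fun b _ => ?_
      rw [iteratedDeriv_const_mul_field, hA t n a b τ μ θ₁ θ₂ hτ hμ, map_mul, aeval_one]
    · intro b _
      exact (analyticAt_const.mul (an_mon hB θ₁ θ₂ hτ hμ n a b)).contDiffAt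
  · intro a _
    refine AnalyticAt.contDiffAt ?_
    refine Finset.analyticAt_fun_sum _ fun b _ => ?_
    exact analyticAt_const.mul (an_mon hB θ₁ θ₂ hτ hμ n a b)

theorem an_fg (hB : S_Bas) {τ μ : ℂ} (θ₁ θ₂ : ℂ) (hτ : 0 < τ.im) (hμ : μ ≠ 0) (n : ℕ) {L : ℕ}
    (p : Fin L → Fin L → Polynomial ℤ) (ξ : ℂ) :
    AnalyticAt ℂ (fg τ μ θ₁ θ₂ n (auxP p ξ)) 0 := by
  rw [fg_aux]
  refine Finset.analyticAt_fun_sum _ fun a _ => ?_
  refine Finset.analyticAt_fun_sum _ fun b _ => ?_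
  exact analyticAt_const.mul (an_mon hB θ₁ θ₂ hτ hμ n a b)

/-! ### The auxiliary polynomial -/

theorem auxP_ne {L : ℕ} (p : Fin L → Fin L → Polynomial ℤ) (ξ : ℂ) (a b : Fin L)
    (h : Polynomial.aeval ξ (p a b) ≠ 0) : auxP p ξ ≠ 0 := by
  classical
  intro h0
  apply h
  have h1 := congrArg (coeff (Finsupp.single 0 (a : ℕ) + Finsupp.single 1 (b : ℕ))) h0
  have h2 : ∀ (a' b' : Fin L), C (Polynomial.aeval ξ (p a' b')) * X 0 ^ (a' : ℕ) * X 1 ^ (b' : ℕ) =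
      monomial (Finsupp.single (0 : Fin 2) (a' : ℕ) + Finsupp.single 1 (b' : ℕ))
        (Polynomial.aeval ξ (p a' b')) := by
    intro a' b'
    rw [X_pow_eq_monomial, X_pow_eq_monomial, mul_assoc, monomial_mul, C_mul_monomial]
    simp
  have h3 : ∀ (a' b' : Fin L), (Finsupp.single (0 : Fin 2) (a' : ℕ) + Finsupp.single 1 (b' : ℕ) =
      Finsupp.single 0 (a : ℕ) + Finsupp.single 1 (b : ℕ)) ↔ a' = a ∧ b' = b := by
    intro a' b'
    constructor
    · intro h4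
      have h5 := DFunLike.congr_fun h4 0
      have h6 := DFunLike.congr_fun h4 1
      simp at h5 h6
      exact ⟨Fin.ext h5, Fin.ext h6⟩
    · rintro ⟨rfl, rfl⟩
      rfl
  unfold auxP at h1
  simp only [h2, coeff_sum, coeff_monomial, h3] at h1
  rw [Finset.sum_eq_single a, Finset.sum_eq_single b] at h1
  · simpa using h1
  · intro b' _ hb'
    rw [if_neg (fun h => hb' h.2)]
  · simp
  · intro a' _ ha'
    refine Finset.sum_eq_zero fun b' _ => ?_
    rw [if_neg (fun h => ha' h.1)]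
  · simp

theorem auxP_deg {L : ℕ} (p : Fin L → Fin L → Polynomial ℤ) (ξ : ℂ) (i : Fin 2) :
    (auxP p ξ).degreeOf i ≤ L := by
  classical
  unfold auxP
  refine (degreeOf_sum_le _ _ _).trans (Finset.sup_le fun a _ => ?_)
  refine (degreeOf_sum_le _ _ _).trans (Finset.sup_le fun b _ => ?_)
  rw [mul_assoc]
  refine (degreeOf_C_mul_le _ _ _).trans ((degreeOf_mul_le _ _ _).trans ?_)
  have ha := a.isLt
  have hb := b.isLt
  fin_cases i
  · have h1 : degreeOf (0 : Fin 2) (X 0 ^ (a : ℕ) : MvPolynomial (Fin 2) ℂ) = a :=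
      degreeOf_X_self_pow _ _
    have h2 : degreeOf (0 : Fin 2) (X 1 ^ (b : ℕ) : MvPolynomial (Fin 2) ℂ) = 0 :=
      degreeOf_X_pow_of_ne _ (by decide)
    simp only [Fin.zero_eta, Fin.isValue, h1, h2]
    omega
  · have h1 : degreeOf (1 : Fin 2) (X 0 ^ (a : ℕ) : MvPolynomial (Fin 2) ℂ) = 0 :=
      degreeOf_X_pow_of_ne _ (by decide)
    have h2 : degreeOf (1 : Fin 2) (X 1 ^ (b : ℕ) : MvPolynomial (Fin 2) ℂ) = b :=
      degreeOf_X_self_pow _ _
    simp only [Fin.mk_one, Fin.isValue, h1, h2]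
    omega

/-! ### Sizes -/

theorem size_one (i₀ : Fin 4) (q : Polynomial ℤ) (D : ℕ) (H : ℝ) (hd : q.natDegree ≤ D)
    (hH : ∀ k, |((q.coeff k : ℤ) : ℝ)| ≤ H) :
    (Polynomial.aeval (X i₀ : MvPolynomial (Fin 4) ℤ) q).totalDegree ≤ D ∧
      len (Polynomial.aeval (X i₀ : MvPolynomial (Fin 4) ℤ) q) ≤ (D + 1) * H := by
  have hH0 : 0 ≤ H := (abs_nonneg _).trans (hH 0)
  rw [Polynomial.aeval_eq_sum_range' (n := D + 1) (by omega)]
  constructor
  · refine totalDegree_finsetSum_le ?_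
    intro k hk
    rw [Finset.mem_range] at hk
    rw [smul_eq_C_mul]
    refine (totalDegree_mul _ _).trans ?_
    rw [totalDegree_C, zero_add]
    refine (totalDegree_pow _ _).trans ?_
    rw [totalDegree_X]
    omega
  · refine (Val_len_sum _ _).trans ?_
    have h1 : ∀ k ∈ Finset.range (D + 1), len (q.coeff k • (X i₀ : MvPolynomial (Fin 4) ℤ) ^ k) ≤ H := by
      intro k _
      rw [smul_eq_C_mul]
      refine (Val_len_mul _ _).trans ?_
      have h2 := (Val_len_C (σ := Fin 4) (q.coeff k)).trans (hH k)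
      have h3 : len ((X i₀ : MvPolynomial (Fin 4) ℤ) ^ k) ≤ 1 :=
        (Val_len_pow _ _).trans (pow_le_one₀ (Val_len_nonneg _) (Val_len_X _))
      calc _ ≤ H * 1 := mul_le_mul h2 h3 (Val_len_nonneg _) hH0
        _ = H := mul_one H
    refine (Finset.sum_le_sum h1).trans ?_
    rw [Finset.sum_const, Finset.card_range, nsmul_eq_mul]
    push_cast
    exact le_refl _

theorem lg_bound (L : ℕ) : (L : ℝ) + 1 ≤ Real.exp ((Nat.log 2 L + 1 : ℕ) : ℝ) := by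
  have h1 : L < 2 ^ (Nat.log 2 L + 1) := Nat.lt_pow_succ_log_self (by norm_num) L
  have h2 : ((L + 1 : ℕ) : ℝ) ≤ ((2 ^ (Nat.log 2 L + 1) : ℕ) : ℝ) := by exact_mod_cast h1
  push_cast at h2
  refine h2.trans ?_
  have h3 : (2 : ℝ) ≤ Real.exp 1 := by
    have := Real.add_one_le_exp (1 : ℝ)
    linarith
  calc (2 : ℝ) ^ (Nat.log 2 L + 1) ≤ Real.exp 1 ^ (Nat.log 2 L + 1) :=
        pow_le_pow_left₀ (by norm_num) h3 _
    _ = Real.exp ((Nat.log 2 L + 1 : ℕ) : ℝ) := by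
        rw [← Real.exp_nat_mul, mul_one]

theorem le_sz (L : ℕ) : L ≤ sz L := by
  unfold sz
  exact Nat.le_mul_of_pos_right L (Nat.succ_pos _)

theorem lg_le_sz (L : ℕ) (hL : 1 ≤ L) : Nat.log 2 L + 1 ≤ sz L := by
  unfold sz
  exact Nat.le_mul_of_pos_left _ hL

theorem size_BB {A : ℕ → ℕ → ℕ → ℕ → MvPolynomial (Fin 4) ℤ}
    (hA : ∀ t n a b : ℕ, (A t n a b).totalDegree ≤ a + b + t ∧
      len (A t n a b) ≤ (10 * (a + b + t : ℝ)) ^ t * ((n : ℝ) + 1) ^ b)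
    {L : ℕ} (hL : 1 ≤ L) (K C₁ : ℕ) (p : Fin L → Fin L → Polynomial ℤ) (i₀ : Fin 4)
    (hp : ∀ a b, (p a b).natDegree ≤ C₁ * sz L ∧
      ∀ k, |(((p a b).coeff k : ℤ) : ℝ)| ≤ Real.exp ((C₁ * sz L : ℕ) : ℝ))
    (n t : ℕ) (hn : n ≤ L) (ht : t ≤ K * L) :
    (BB A p i₀ n t).totalDegree ≤ (3 + 2 * C₁ + 10 * K * (K + 2) + K) * sz L ∧
      len (BB A p i₀ n t) ≤ Real.exp (((3 + 2 * C₁ + 10 * K * (K + 2) + K) * sz L : ℕ) : ℝ) := by
  have hsz := le_sz L
  have hlg := lg_le_sz L hL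
  have hL' : (1 : ℝ) ≤ L := by exact_mod_cast hL
  constructor
  · unfold BB
    refine totalDegree_finsetSum_le fun a _ => totalDegree_finsetSum_le fun b _ => ?_
    refine (totalDegree_mul _ _).trans ?_
    have h1 := (size_one i₀ (p a b) _ _ (hp a b).1 (hp a b).2).1
    have h2 := (hA t n a b).1
    have ha := a.isLt
    have hb := b.isLt
    have h3 : K * L ≤ K * sz L := Nat.mul_le_mul_left _ hsz
    have h4 : (3 + 2 * C₁ + 10 * K * (K + 2) + K) * sz L = 3 * sz L + C₁ * sz L + C₁ * sz L +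
        10 * K * (K + 2) * sz L + K * sz L := by ring
    rw [h4]
    have h5 : 0 ≤ 10 * K * (K + 2) * sz L := Nat.zero_le _
    omega
  · set E : ℝ := ((Nat.log 2 L + 1 : ℕ) : ℝ) with hE
    have hLE : (L : ℝ) + 1 ≤ Real.exp E := lg_bound L
    have hszE : ((sz L : ℕ) : ℝ) = L * E := by
      unfold sz
      push_cast [hE]
      ring
    have hE1 : 1 ≤ E := by
      rw [hE]
      push_cast
      have : (0 : ℝ) ≤ (Nat.log 2 L : ℝ) := Nat.cast_nonneg _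
      linarith
    have hsz1 : (L : ℝ) ≤ sz L := by exact_mod_cast hsz
    have hEsz : E ≤ sz L := by rw [hE]; exact_mod_cast hlg
    -- one term
    have hterm : ∀ (a b : Fin L), len (Polynomial.aeval (X i₀ : MvPolynomial (Fin 4) ℤ) (p a b) *
        A t n a b) ≤ Real.exp (((1 + 2 * C₁ + 10 * K * (K + 2) + K : ℕ) : ℝ) * sz L) := by
      intro a b
      refine (Val_len_mul _ _).trans ?_
      have h1 := (size_one i₀ (p a b) _ _ (hp a b).1 (hp a b).2).2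
      have h2 := (hA t n a b).2
      have h3 : (((C₁ * sz L : ℕ) : ℝ) + 1) ≤ Real.exp ((C₁ * sz L : ℕ) : ℝ) :=
        Real.add_one_le_exp _
      have h4 : len (Polynomial.aeval (X i₀ : MvPolynomial (Fin 4) ℤ) (p a b)) ≤
          Real.exp (2 * ((C₁ * sz L : ℕ) : ℝ)) := by
        refine h1.trans ?_
        calc _ ≤ Real.exp ((C₁ * sz L : ℕ) : ℝ) * Real.exp ((C₁ * sz L : ℕ) : ℝ) :=
              mul_le_mul_of_nonneg_right h3 (Real.exp_pos _).le
          _ = _ := by rw [← Real.exp_add]; ring_nf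
      have ha : ((a : ℕ) : ℝ) ≤ L := by exact_mod_cast a.isLt.le
      have hb : ((b : ℕ) : ℝ) ≤ L := by exact_mod_cast b.isLt.le
      have ht' : (t : ℝ) ≤ K * L := by exact_mod_cast ht
      have h5 : (10 * (((a : ℕ) : ℝ) + ((b : ℕ) : ℝ) + (t : ℝ))) ≤ 10 * (K + 2) * L := by
        nlinarith
      have h6 : (1 : ℝ) ≤ 10 * (K + 2) * L := by
        have : (0 : ℝ) ≤ K := Nat.cast_nonneg _
        nlinarith
      have h7 : (10 * (K + 2) * L : ℝ) ≤ Real.exp (10 * (K + 2) + E) := by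
        rw [Real.exp_add]
        have h8 : (10 * ((K : ℝ) + 2)) ≤ Real.exp (10 * (K + 2)) := by
          have := Real.add_one_le_exp (10 * ((K : ℝ) + 2))
          linarith
        exact mul_le_mul h8 (by linarith) (by linarith) (Real.exp_pos _).le
      have h8 : (10 * (((a : ℕ) : ℝ) + ((b : ℕ) : ℝ) + (t : ℝ))) ^ t ≤
          Real.exp ((10 * K * (K + 2) + K) * sz L) := by
        calc (10 * (((a : ℕ) : ℝ) + ((b : ℕ) : ℝ) + (t : ℝ))) ^ t
            ≤ (10 * (K + 2) * L : ℝ) ^ t := pow_le_pow_left₀ (by positivity) h5 t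
          _ ≤ (10 * (K + 2) * L : ℝ) ^ (K * L) := pow_le_pow_right₀ h6 ht
          _ ≤ Real.exp (10 * (K + 2) + E) ^ (K * L) :=
              pow_le_pow_left₀ (by linarith) h7 _
          _ = Real.exp (((K * L : ℕ) : ℝ) * (10 * (K + 2) + E)) := by rw [← Real.exp_nat_mul]
          _ ≤ Real.exp ((10 * K * (K + 2) + K) * sz L) := by
              apply Real.exp_le_exp.2
              push_cast
              have h9 : (K : ℝ) * (10 * (K + 2)) * L ≤ (K : ℝ) * (10 * (K + 2)) * sz L :=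
                mul_le_mul_of_nonneg_left hsz1 (by positivity)
              rw [hszE] at h9 ⊢
              nlinarith
      have h9 : ((n : ℝ) + 1) ^ (b : ℕ) ≤ Real.exp (sz L) := by
        have hn' : (n : ℝ) ≤ L := by exact_mod_cast hn
        calc ((n : ℝ) + 1) ^ (b : ℕ) ≤ ((n : ℝ) + 1) ^ L :=
              pow_le_pow_right₀ (by have : (0 : ℝ) ≤ n := Nat.cast_nonneg _
                                    linarith) b.isLt.le
          _ ≤ (Real.exp E) ^ L := pow_le_pow_left₀ (by positivity) (by linarith) _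
          _ = Real.exp (sz L) := by rw [← Real.exp_nat_mul, hszE]
      calc len (Polynomial.aeval (X i₀ : MvPolynomial (Fin 4) ℤ) (p a b)) * len (A t n a b)
          ≤ Real.exp (2 * ((C₁ * sz L : ℕ) : ℝ)) *
            (Real.exp ((10 * K * (K + 2) + K) * sz L) * Real.exp (sz L)) := by
              refine mul_le_mul h4 (h2.trans ?_) (Val_len_nonneg _) (Real.exp_pos _).le
              exact mul_le_mul h8 h9 (by positivity) (Real.exp_pos _).le
        _ = _ := by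
              rw [← Real.exp_add, ← Real.exp_add]
              congr 1
              push_cast
              ring
    unfold BB
    refine (Val_len_sum _ _).trans ?_
    have h1 : ∀ a ∈ (Finset.univ : Finset (Fin L)), len (∑ b : Fin L,
        Polynomial.aeval (X i₀ : MvPolynomial (Fin 4) ℤ) (p a b) * A t n a b) ≤
        L * Real.exp (((1 + 2 * C₁ + 10 * K * (K + 2) + K : ℕ) : ℝ) * sz L) := by
      intro a _
      refine (Val_len_sum _ _).trans ((Finset.sum_le_sum fun b _ => hterm a b).trans ?_)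
      rw [Finset.sum_const, Finset.card_univ, Fintype.card_fin, nsmul_eq_mul]
    refine (Finset.sum_le_sum h1).trans ?_
    rw [Finset.sum_const, Finset.card_univ, Fintype.card_fin, nsmul_eq_mul]
    have h2 : (L : ℝ) ≤ Real.exp (sz L) := by
      have h3 := Real.exp_le_exp.2 hEsz
      linarith
    calc (L : ℝ) * (L * Real.exp (((1 + 2 * C₁ + 10 * K * (K + 2) + K : ℕ) : ℝ) * sz L))
        ≤ Real.exp (sz L) * (Real.exp (sz L) *
          Real.exp (((1 + 2 * C₁ + 10 * K * (K + 2) + K : ℕ) : ℝ) * sz L)) := by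
            refine mul_le_mul h2 ?_ (by positivity) (Real.exp_pos _).le
            exact mul_le_mul_of_nonneg_right h2 (Real.exp_pos _).le
      _ = _ := by
            rw [← Real.exp_add, ← Real.exp_add]
            congr 1
            push_cast
            ring

/-! ### Isolated roots -/

theorem iso_root (e : ℂ) (q : Polynomial ℤ) (hq : q ≠ 0) :
    ∃ δ : ℝ, 0 < δ ∧ ∀ z : ℂ, Polynomial.aeval z q = 0 → ‖z - e‖ < δ → z = e := by
  classical
  have hq' : q.map (algebraMap ℤ ℂ) ≠ 0 := by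
    rw [Polynomial.map_ne_zero_iff (algebraMap ℤ ℂ).injective_int]
    exact hq
  set S : Finset ℂ := (q.map (algebraMap ℤ ℂ)).roots.toFinset.erase e with hS
  have h1 : (↑S : Set ℂ)ᶜ ∈ 𝓝 e := by
    apply IsOpen.mem_nhds (S.finite_toSet.isClosed.isOpen_compl)
    simp [hS]
  obtain ⟨δ, hδ, h2⟩ := Metric.mem_nhds_iff.1 h1
  refine ⟨δ, hδ, fun z hz hd => ?_⟩
  by_contra hne
  have h3 : z ∈ Metric.ball e δ := by
    rw [mem_ball_iff_norm]
    exact hd
  have h4 := h2 h3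
  apply h4
  rw [hS, Finset.mem_coe, Finset.mem_erase, Multiset.mem_toFinset, Polynomial.mem_roots hq']
  refine ⟨hne, ?_⟩
  rw [Polynomial.IsRoot.def, Polynomial.eval_map_algebraMap]
  exact hz

theorem size_ex (i₀ : Fin 4) (q : Polynomial ℤ) : ∃ D : ℕ,
    (Polynomial.aeval (X i₀ : MvPolynomial (Fin 4) ℤ) q).totalDegree ≤ D ∧
      len (Polynomial.aeval (X i₀ : MvPolynomial (Fin 4) ℤ) q) ≤ Real.exp D := by
  set P := Polynomial.aeval (X i₀ : MvPolynomial (Fin 4) ℤ) q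
  refine ⟨P.totalDegree + ⌈len P⌉₊, by omega, ?_⟩
  have h1 := Nat.le_ceil (len P)
  have h2 := Real.add_one_le_exp (len P)
  have h3 : len P ≤ ((P.totalDegree + ⌈len P⌉₊ : ℕ) : ℝ) := by
    push_cast
    have : (0 : ℝ) ≤ (P.totalDegree : ℝ) := Nat.cast_nonneg _
    linarith
  have h4 := Real.exp_le_exp.2 h3
  linarith

/-! ### Growth -/

theorem sz_growth (c : ℝ) (N : ℝ) : ∃ L₀ : ℕ, ∀ L : ℕ, L₀ ≤ L →
    c * ((sz L : ℕ) : ℝ) ^ 2 ≤ (L : ℝ) ^ 3 ∧ N ≤ (sz L : ℝ) ∧ 1 ≤ L := by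
  have h1 := tendsto_pow_const_div_const_pow_of_one_lt 2 (r := 2) (by norm_num)
  have h2 : ∀ᶠ n : ℕ in atTop, (n : ℝ) ^ 2 / 2 ^ n < 1 / (2 * (|c| + 1)) :=
    h1.eventually (gt_mem_nhds (by positivity))
  obtain ⟨M, hM⟩ := eventually_atTop.1 h2
  refine ⟨2 ^ M + ⌈N⌉₊ + 1, fun L hL => ?_⟩
  have hM0 : 1 ≤ 2 ^ M := Nat.one_le_two_pow
  have hL1 : 1 ≤ L := by omega
  have hL1' : (1 : ℝ) ≤ L := by exact_mod_cast hL1
  refine ⟨?_, ?_, hL1⟩
  · have hlog : M ≤ Nat.log 2 L := by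
      apply Nat.le_log_of_pow_le (by norm_num)
      omega
    have h3 := hM (Nat.log 2 L + 1) (by omega)
    have h4 : 2 ^ (Nat.log 2 L) ≤ L := Nat.pow_log_le_self 2 (by omega)
    have h4' : (2 : ℝ) ^ (Nat.log 2 L) ≤ L := by exact_mod_cast h4
    rw [div_lt_div_iff₀ (by positivity) (by positivity), one_mul] at h3
    set E : ℝ := ((Nat.log 2 L + 1 : ℕ) : ℝ) with hE
    have h5 : (|c| + 1) * E ^ 2 ≤ L := by
      have h10 : (2 : ℝ) ^ (Nat.log 2 L + 1) = 2 ^ (Nat.log 2 L) * 2 := pow_succ _ _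
      rw [h10] at h3
      nlinarith
    have h6 : c * E ^ 2 ≤ L := by
      have h7 : c * E ^ 2 ≤ (|c| + 1) * E ^ 2 := by
        apply mul_le_mul_of_nonneg_right _ (by positivity)
        have := le_abs_self c
        linarith
      linarith
    have h8 : ((sz L : ℕ) : ℝ) = L * E := by
      unfold sz
      push_cast [hE]
      ring
    rw [h8]
    calc c * ((L : ℝ) * E) ^ 2 = (c * E ^ 2) * (L : ℝ) ^ 2 := by ring
      _ ≤ (L : ℝ) * (L : ℝ) ^ 2 := mul_le_mul_of_nonneg_right h6 (by positivity)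
      _ = (L : ℝ) ^ 3 := by ring
  · have h9 := Nat.le_ceil N
    have h10 : ((⌈N⌉₊ : ℕ) : ℝ) ≤ (sz L : ℝ) := by
      have : ⌈N⌉₊ ≤ sz L := le_trans (by omega) (le_sz L)
      exact_mod_cast this
    linarith

end I_Chud

open I_Chud in
theorem Chud_pf (hB : S_Bas) (hV : S_Val) (hZ : S_Zero) (hA : S_Aux) (hC : S_Crit) : S_Chud := by
  intro τ μ hN hT
  have hτ := hN.im
  have hμ := hN.mu
  -- algebraic numbers
  have hH : IsAlgebraic ℚ (μ ^ 4 * gg2 τ / 2) := by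
    have h1 : IsAlgebraic ℚ ((1 / 2 : ℂ)) := by
      have := isAlgebraic_algebraMap (R := ℚ) (A := ℂ) (1 / 2 : ℚ)
      simpa using this
    have h2 := hN.g2.mul h1
    rwa [mul_one_div] at h2
  have he : IsAlgebraic ℚ (xe τ μ (1 / 2)) := by
    obtain ⟨⟨r, hr, h⟩, h0, h1, -⟩ := hB τ μ hτ hμ
    have h2 := (h 0 0 (by simpa using hr)).2.2.2.2
    rw [h0, h1] at h2
    refine alg_root hN.g2 hN.g3 ?_
    rw [← h2]
    ring
  have hTh := trle τ μ hT he hH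
  obtain ⟨i₀, C₁, hC₁, hAux⟩ := hA τ μ hN hTh
  choose A hAdeg hAlen hAval using hV
  set K : ℕ := 2 + 13 * C₁ with hK
  obtain ⟨L₁, hL₁⟩ := hAux K
  -- minimal polynomials
  obtain ⟨qe, hqe0, hqe⟩ := (IsFractionRing.isAlgebraic_iff ℤ ℚ ℂ).2 he
  obtain ⟨qH, hqH0, hqH⟩ := (IsFractionRing.isAlgebraic_iff ℤ ℚ ℂ).2 hH
  obtain ⟨δe, hδe, hie⟩ := iso_root (xe τ μ (1 / 2)) qe hqe0
  obtain ⟨δH, hδH, hiH⟩ := iso_root (μ ^ 4 * gg2 τ / 2) qH hqH0
  obtain ⟨De, hDe1, hDe2⟩ := size_ex 2 qe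
  obtain ⟨DH, hDH1, hDH2⟩ := size_ex 3 qH
  obtain ⟨C₂, hC₂, hCrit⟩ := hC (Fin 4) 1 (th τ μ) hTh
  have hθ2 : μ * kap ≠ 0 := mul_ne_zero hμ kap_ne_zero
  set δ : ℝ := min (min δe δH) ‖μ * kap‖ with hδ
  have hδ0 : 0 < δ := lt_min (lt_min hδe hδH) (norm_pos_iff.2 hθ2)
  set C₃ : ℕ := 3 + 2 * C₁ + 10 * K * (K + 2) + K + De + DH with hC₃
  obtain ⟨L₂, hL₂⟩ := sz_growth (C₁ * C₂ * C₃ ^ 2) (-Real.log δ + 1)
  set L : ℕ := max L₁ L₂ with hL
  obtain ⟨hg1, hg2, hg3⟩ := hL₂ L (le_max_right _ _)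
  obtain ⟨p, hp1, hp2, hp3⟩ := hL₁ L (le_max_left _ _)
  have hsz1 : 1 ≤ sz L := le_trans hg3 (le_sz L)
  set X' : ℕ := C₃ * sz L with hX'
  set V : ℝ := (L : ℝ) ^ 3 / C₁ with hVdef
  have hC₁' : (1 : ℝ) ≤ C₁ := by exact_mod_cast hC₁
  have hC₃1 : 1 ≤ C₃ := by omega
  have hX1 : 1 ≤ X' := Nat.mul_pos hC₃1 hsz1
  have hX1' : (1 : ℝ) ≤ X' := by exact_mod_cast hX1
  have hXV : C₂ * (X' : ℝ) ^ (1 + 1) ≤ V := by
    rw [hVdef, le_div_iff₀ (by linarith), hX']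
    push_cast
    calc _ = (C₁ * C₂ * C₃ ^ 2) * ((sz L : ℕ) : ℝ) ^ 2 := by ring
      _ ≤ _ := hg1
  have hszX : sz L ≤ X' := Nat.le_mul_of_pos_left _ hC₃1
  -- the set of polynomials
  set PP : Set (MvPolynomial (Fin 4) ℤ) := {P | (∃ n t : ℕ, C₁ * n ≤ L ∧ t ≤ K * L ∧
    P = BB A p i₀ n t) ∨ P = Polynomial.aeval (X 2 : MvPolynomial (Fin 4) ℤ) qe ∨
    P = Polynomial.aeval (X 3 : MvPolynomial (Fin 4) ℤ) qH} with hPP
  have hnL : ∀ n : ℕ, C₁ * n ≤ L → n ≤ L := by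
    intro n hn
    exact le_trans (Nat.le_mul_of_pos_left _ hC₁) hn
  have hPPb : ∀ P ∈ PP, P.totalDegree ≤ X' ∧ len P ≤ Real.exp X' ∧
      ‖aeval (th τ μ) P‖ ≤ Real.exp (-V) := by
    intro P hP
    rcases hP with ⟨n, t, hn, ht, rfl⟩ | rfl | rfl
    · obtain ⟨h1, h2⟩ := size_BB (fun t n a b => ⟨hAdeg t n a b, hAlen t n a b⟩) hg3 K C₁ p i₀ hp1
        n t (hnL n hn) ht
      have h3 : (3 + 2 * C₁ + 10 * K * (K + 2) + K) * sz L ≤ X' := by
        rw [hX']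
        exact Nat.mul_le_mul_right _ (by omega)
      refine ⟨h1.trans h3, h2.trans (Real.exp_le_exp.2 (by exact_mod_cast h3)), ?_⟩
      have h4 := val_eq hB hAval p i₀ τ μ (μ ^ 2 * et τ) (μ * kap) hτ hμ n t
      have h5 := hp3 n t hn ht
      have h6 : th τ μ = ![μ ^ 2 * et τ, μ * kap, xe τ μ (1 / 2), μ ^ 4 * gg2 τ / 2] := rfl
      rw [h6] at h5 ⊢
      rw [h4] at h5
      exact h5
    · have h3 : De ≤ X' := by
        rw [hX']
        calc De ≤ C₃ := by omega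
          _ ≤ C₃ * sz L := Nat.le_mul_of_pos_right _ hsz1
      refine ⟨hDe1.trans h3, hDe2.trans (Real.exp_le_exp.2 (by exact_mod_cast h3)), ?_⟩
      rw [aeval_one]
      have h6 : th τ μ 2 = xe τ μ (1 / 2) := rfl
      rw [h6, hqe, norm_zero]
      exact (Real.exp_pos _).le
    · have h3 : DH ≤ X' := by
        rw [hX']
        calc DH ≤ C₃ := by omega
          _ ≤ C₃ * sz L := Nat.le_mul_of_pos_right _ hsz1
      refine ⟨hDH1.trans h3, hDH2.trans (Real.exp_le_exp.2 (by exact_mod_cast h3)), ?_⟩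
      rw [aeval_one]
      have h6 : th τ μ 3 = μ ^ 4 * gg2 τ / 2 := rfl
      rw [h6, hqH, norm_zero]
      exact (Real.exp_pos _).le
  obtain ⟨v, hv1, hv2⟩ := hCrit X' V hX1 hXV PP hPPb
  -- the new point is close
  have hclose : ∀ i, ‖v i - th τ μ i‖ < δ := by
    intro i
    refine (hv2 i).trans_lt ?_
    have h1 : -V / (C₂ * (X' : ℝ) ^ 1) ≤ -(sz L : ℝ) := by
      rw [neg_div, neg_le_neg_iff, le_div_iff₀ (by positivity), pow_one]
      have h2 : (sz L : ℝ) ≤ X' := by exact_mod_cast hszX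
      calc (sz L : ℝ) * (C₂ * X') ≤ X' * (C₂ * X') :=
            mul_le_mul_of_nonneg_right h2 (by positivity)
        _ = C₂ * (X' : ℝ) ^ (1 + 1) := by ring
        _ ≤ V := hXV
    calc Real.exp (-V / (C₂ * (X' : ℝ) ^ 1)) ≤ Real.exp (-(sz L : ℝ)) := Real.exp_le_exp.2 h1
      _ ≤ Real.exp (Real.log δ - 1) := Real.exp_le_exp.2 (by linarith)
      _ < Real.exp (Real.log δ) := Real.exp_lt_exp.2 (by linarith)
      _ = δ := Real.exp_log hδ0
  have hv_2 : v 2 = xe τ μ (1 / 2) := by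
    apply hie
    · have h1 := hv1 _ (show Polynomial.aeval (X 2 : MvPolynomial (Fin 4) ℤ) qe ∈ PP from
        Or.inr (Or.inl rfl))
      rwa [aeval_one] at h1
    · exact (hclose 2).trans_le ((min_le_left _ _).trans (min_le_left _ _))
  have hv_3 : v 3 = μ ^ 4 * gg2 τ / 2 := by
    apply hiH
    · have h1 := hv1 _ (show Polynomial.aeval (X 3 : MvPolynomial (Fin 4) ℤ) qH ∈ PP from
        Or.inr (Or.inr rfl))
      rwa [aeval_one] at h1
    · exact (hclose 3).trans_le ((min_le_left _ _).trans (min_le_right _ _))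
  have hv_1 : v 1 ≠ 0 := by
    intro h0
    have h1 := (hclose 1).trans_le (min_le_right _ _)
    have h2 : th τ μ 1 = μ * kap := rfl
    rw [h0, h2, zero_sub, norm_neg] at h1
    exact lt_irrefl _ h1
  have hv : v = ![v 0, v 1, xe τ μ (1 / 2), μ ^ 4 * gg2 τ / 2] := by
    funext i
    fin_cases i
    · rfl
    · rfl
    · exact hv_2
    · exact hv_3
  -- the new auxiliary polynomial
  obtain ⟨a, b, hab⟩ := hp2 (v i₀)
  have hP0 := auxP_ne p (v i₀) a b hab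
  have hord : ∀ n ≤ L / C₁, ((K * L : ℕ) : ℕ∞) ≤ og τ μ (v 0) (v 1) n (auxP p (v i₀)) := by
    intro n hn
    have hn' : C₁ * n ≤ L := by
      rw [mul_comm]
      exact (Nat.le_div_iff_mul_le (by omega)).1 hn
    unfold og
    rw [natCast_le_analyticOrderAt_iff_iteratedDeriv_eq_zero (an_fg hB _ _ hτ hμ n p (v i₀))]
    intro t ht
    have h1 := hv1 _ (show BB A p i₀ n t ∈ PP from Or.inl ⟨n, t, hn', ht.le, rfl⟩)
    have h2 := val_eq hB hAval p i₀ τ μ (v 0) (v 1) hτ hμ n t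
    rw [← hv] at h2
    rw [h2, h1]
  have hfin := hZ τ μ (v 0) (v 1) hτ hμ hv_1 (auxP p (v i₀)) L (L / C₁) (K * L) hP0
    (auxP_deg p _ 0) (auxP_deg p _ 1) hord
  -- contradiction
  have h1 : L < C₁ * (L / C₁ + 1) := Nat.lt_mul_div_succ L (by omega)
  set S' := L / C₁ with hS'
  have h2 : (S' + 1) * (K * L) = 2 * L * (S' + 1) + 13 * (C₁ * (S' + 1)) * L := by
    rw [hK]
    ring
  rw [h2] at hfin
  have h3 : 13 * (L + 1) * L ≤ 13 * (C₁ * (S' + 1)) * L :=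
    Nat.mul_le_mul_right _ (Nat.mul_le_mul_left _ h1)
  have h4 : 13 * (L + 1) * L = 13 * L ^ 2 + 13 * L := by ring
  have h5 : 0 < L := hg3
  have h6 : 0 < L ^ 2 := by positivity
  omega

end Pool.Agent.Work.MP_8da9ea_nt.CH
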