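import Pool.Agent.Work.MP_8da9ea_nt.CH.Stmts

/-!
# Chudnovsky block, item FinO: finite orders
-/

set_option autoImplicit false

namespace Pool.Agent.Work.MP_8da9ea_nt.CH

open MvPolynomial Filter Topology Pool.Agent.Work.MP_327059_nt.GL Pool.Agent.Work.MP_8da9ea_nt.S
  Pool.Agent.Work.MP_8da9ea_nt.EB

/-- Finite orders. -/
theorem FinO_pf (h1 : S_Ind) (h2 : S_Bas) : S_FinO := by
  intro τ μ θ₁ θ₂ hτ hμ n P hP htop
  unfold og at htop
  rw [analyticOrderAt_eq_top] at htop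
  obtain ⟨⟨r, hr, hB⟩, _⟩ := h2 τ μ hτ hμ
  have hz : (1 / 2 : ℂ) ∉ Lam τ := by
    have h := (hB θ₁ 0 (by rw [norm_zero]; exact hr)).1
    rwa [mul_zero, add_zero] at h
  refine h1 τ μ θ₁ hτ hμ P 1 (-(μ * zt 1 τ (1 / 2)) + θ₁ / (2 * μ) - n * θ₂) (1 / 2) hP
    one_ne_zero hz ?_
  have ht : Tendsto (fun z : ℂ => (z - 1 / 2) / μ) (𝓝 (1 / 2)) (𝓝 0) := by
    have h3 : Continuous (fun z : ℂ => (z - 1 / 2) / μ) := by fun_prop
    have h4 := h3.tendsto (1 / 2)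
    simpa using h4
  filter_upwards [ht.eventually htop] with z hz'
  have e1 : 1 / 2 + μ * ((z - 1 / 2) / μ) = z := by
    field_simp
    ring
  have e2 : xg τ μ ((z - 1 / 2) / μ) = xe τ μ z := by
    unfold xg
    rw [e1]
  have e3 : wg τ μ θ₁ ((z - 1 / 2) / μ) - n * θ₂ = 1 * (μ * zt 1 τ z - θ₁ * z / μ) +
      (-(μ * zt 1 τ (1 / 2)) + θ₁ / (2 * μ) - n * θ₂) := by
    unfold wg
    rw [e1]
    field_simp
    ring
  unfold fg at hz'
  rw [e2, e3] at hz'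
  exact hz'

end Pool.Agent.Work.MP_8da9ea_nt.CH
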