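import Pool.Agent.Work.MP_8da9ea_nt.CH.Stmts

/-! Removing the greatest common divisor in `ℤ[x]`. -/

set_option autoImplicit false

namespace Pool.Agent.Work.MP_8da9ea_nt.CH

namespace I_Gcd

open Polynomial

/-- the common divisor -/
theorem gcd_out (N : ℕ) (p : Fin N → ℤ[X]) (hp : p ≠ 0) :
    ∃ (g : ℤ[X]) (q : Fin N → ℤ[X]), g ≠ 0 ∧ (∀ i, p i = g * q i) ∧
      ∀ a : ℤ[X], (∀ i, a ∣ q i) → IsUnit a := by
  let _ : NormalizedGCDMonoid ℤ[X] := UniqueFactorizationMonoid.toNormalizedGCDMonoid ℤ[X]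
  obtain ⟨i, hi⟩ := Function.ne_iff.1 hp
  obtain ⟨q, hq, hq1⟩ := Finset.extract_gcd p ⟨i, Finset.mem_univ i⟩
  refine ⟨Finset.univ.gcd p, q, ?_, fun i => hq i (Finset.mem_univ i), ?_⟩
  · intro h0
    apply hi
    rw [hq i (Finset.mem_univ i), h0, zero_mul]
    rfl
  · intro a ha
    have : a ∣ Finset.univ.gcd q := Finset.dvd_gcd fun i _ => ha i
    rw [hq1] at this
    exact isUnit_of_dvd_one this

/-- coprime polynomials have no common zero -/
theorem no_zero (N : ℕ) (q : Fin N → ℤ[X]) (hq0 : ∃ i, q i ≠ 0)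
    (hq : ∀ a : ℤ[X], (∀ i, a ∣ q i) → IsUnit a) (x : ℂ) : ∃ i, aeval x (q i) ≠ 0 := by
  by_contra hcon
  push Not at hcon
  obtain ⟨i₀, hi₀⟩ := hq0
  have halg : IsAlgebraic ℚ x := by
    refine ⟨(q i₀).map (algebraMap ℤ ℚ), ?_, ?_⟩
    · rw [Ne, Polynomial.map_eq_zero_iff (algebraMap ℤ ℚ).injective_int]
      exact hi₀
    · rw [aeval_map_algebraMap]
      exact hcon i₀
  set m : ℚ[X] := minpoly ℚ x with hm
  have hint : IsIntegral ℚ x := halg.isIntegral
  set b : ℤ[X] := IsLocalization.integerNormalization (nonZeroDivisors ℤ) m with hb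
  obtain ⟨c, hc, hcm⟩ := IsLocalization.integerNormalization_spec (nonZeroDivisors ℤ) m
  have hc0 : c ≠ 0 := nonZeroDivisors.ne_zero hc
  have hcm' : b.map (algebraMap ℤ ℚ) = C (c : ℚ) * m := by
    rw [hb, hcm]
    ext n
    simp
  have hcu : IsUnit (C (c : ℚ) : ℚ[X]) := by
    rw [Polynomial.isUnit_C]
    exact isUnit_iff_ne_zero.2 (by exact_mod_cast hc0)
  have hbP : b = C b.content * b.primPart := b.eq_C_content_mul_primPart
  have hPm : b.primPart.map (algebraMap ℤ ℚ) ∣ m := by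
    have h1 : b.primPart.map (algebraMap ℤ ℚ) ∣ C (c : ℚ) * m := by
      rw [← hcm']
      conv_rhs => rw [hbP, Polynomial.map_mul]
      exact Dvd.intro_left _ rfl
    exact (hcu.dvd_mul_left).1 h1
  have hdiv : ∀ i, b.primPart ∣ q i := by
    intro i
    rw [b.isPrimitive_primPart.dvd_iff_fraction_map_dvd_fraction_map ℚ]
    refine hPm.trans (minpoly.dvd ℚ x ?_)
    rw [aeval_map_algebraMap]
    exact hcon i
  have hunit := hq _ hdiv
  have hdeg : b.primPart.natDegree = 0 := natDegree_eq_zero_of_isUnit hunit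
  rw [natDegree_primPart] at hdeg
  have hdeg2 : (b.map (algebraMap ℤ ℚ)).natDegree = m.natDegree := by
    rw [hcm', natDegree_C_mul (by exact_mod_cast hc0)]
  rw [natDegree_map_eq_of_injective (algebraMap ℤ ℚ).injective_int, hdeg] at hdeg2
  have := minpoly.natDegree_pos hint
  rw [← hm] at this
  omega

theorem map_injC : Function.Injective (Int.castRingHom ℂ) := (Int.castRingHom ℂ).injective_int

/-- Mahler measure of a nonzero integral polynomial -/
theorem one_le (g : ℤ[X]) (hg : g ≠ 0) : 1 ≤ (g.map (Int.castRingHom ℂ)).mahlerMeasure := by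
  refine le_trans ?_ (leadingCoeff_le_mahlerMeasure _)
  rw [leadingCoeff_map_of_injective map_injC]
  have h1 : g.leadingCoeff ≠ 0 := leadingCoeff_ne_zero.2 hg
  have h2 : (1 : ℝ) ≤ |(g.leadingCoeff : ℝ)| := by exact_mod_cast Int.one_le_abs h1
  simpa using h2

theorem mahler_le (D : ℕ) (H : ℝ) (p : ℤ[X]) (hd : p.natDegree ≤ D)
    (hH : ∀ k, |((p.coeff k : ℤ) : ℝ)| ≤ H) :
    (p.map (Int.castRingHom ℂ)).mahlerMeasure ≤ (D + 1) * H := by
  refine (mahlerMeasure_le_sum_norm_coeff _).trans ?_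
  have hH0 : 0 ≤ H := (abs_nonneg _).trans (hH 0)
  rw [Polynomial.sum_over_range' _ (fun _ => norm_zero) (D + 1)
    (lt_of_le_of_lt ((natDegree_map_le).trans hd) (Nat.lt_succ_self D))]
  calc ∑ k ∈ Finset.range (D + 1), ‖(p.map (Int.castRingHom ℂ)).coeff k‖
      ≤ ∑ k ∈ Finset.range (D + 1), H := by
        refine Finset.sum_le_sum fun k _ => ?_
        rw [coeff_map]
        have := hH k
        simpa using this
    _ = (D + 1) * H := by
        rw [Finset.sum_const, Finset.card_range, nsmul_eq_mul]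
        push_cast
        ring

end I_Gcd

open I_Gcd in
theorem Gcd_pf : S_Gcd := by
  intro N D H p hp hpb
  obtain ⟨g, q, hg, hpq, hu⟩ := gcd_out N p hp
  obtain ⟨i₀, hi₀⟩ := Function.ne_iff.1 hp
  have hH0 : 0 ≤ H := (abs_nonneg _).trans ((hpb i₀).2 0)
  refine ⟨g, q, hg, hpq, ?_, ?_⟩
  · intro i
    by_cases hq : q i = 0
    · rw [hq]
      refine ⟨by simp, fun k => ?_⟩
      simp only [Polynomial.coeff_zero, Int.cast_zero, abs_zero]
      positivity
    · have hdeg : (q i).natDegree ≤ D := by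
        have h1 := (hpb i).1
        rw [hpq i, Polynomial.natDegree_mul hg hq] at h1
        omega
      refine ⟨hdeg, fun k => ?_⟩
      have h1 := Polynomial.norm_coeff_le_choose_mul_mahlerMeasure_of_one_le_mahlerMeasure k
        ((q i).map (Int.castRingHom ℂ)) (g.map (Int.castRingHom ℂ)) (one_le g hg)
      rw [← Polynomial.map_mul, mul_comm (q i) g, ← hpq i, Polynomial.coeff_map] at h1
      have h2 := mahler_le D H (p i) (hpb i).1 (hpb i).2
      have h3 : ((((q i).map (Int.castRingHom ℂ)).natDegree.choose k : ℕ) : ℝ) ≤ 2 ^ D := by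
        have h4 : ((q i).map (Int.castRingHom ℂ)).natDegree.choose k ≤ 2 ^ D :=
          (Nat.choose_le_two_pow _ _).trans
            (Nat.pow_le_pow_right (by norm_num) ((Polynomial.natDegree_map_le).trans hdeg))
        exact_mod_cast h4
      have h5 : ‖(Int.castRingHom ℂ) ((q i).coeff k)‖ = |(((q i).coeff k : ℤ) : ℝ)| := by simp
      rw [h5] at h1
      refine h1.trans ?_
      calc ((((q i).map (Int.castRingHom ℂ)).natDegree.choose k : ℕ) : ℝ) *
            ((p i).map (Int.castRingHom ℂ)).mahlerMeasure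
          ≤ 2 ^ D * ((D + 1) * H) := by
            refine mul_le_mul h3 h2 (Polynomial.mahlerMeasure_nonneg _) (by positivity)
        _ = (D + 1) * 2 ^ D * H := by ring
  · intro x
    refine no_zero N q ⟨i₀, fun h => hi₀ ?_⟩ hu x
    rw [hpq i₀, h, mul_zero]
    rfl

end Pool.Agent.Work.MP_8da9ea_nt.CH
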