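import Pool.Agent.Work.MP_8da9ea_nt.CH.Stmts
import Pool.Agent.Work.MP_8da9ea_nt.EB.I_WpUp

/-!
# Chudnovsky block, item Grow: clearing the poles
-/

set_option autoImplicit false

namespace Pool.Agent.Work.MP_8da9ea_nt.CH

open Filter Topology Metric Pool.Agent.Work.MP_327059_nt.GL Pool.Agent.Work.MP_8da9ea_nt.S
  Pool.Agent.Work.MP_8da9ea_nt.EB

namespace I_Grow

lemma Lam_ne (τ : ℂ) : (Lam τ).Nonempty := ⟨0, mem_Lam.mpr ⟨0, 0, by simp⟩⟩

/-- Lattice points are uniformly isolated. -/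
lemma isol {τ : ℂ} (hτ : 0 < τ.im) : ∃ ρ : ℝ, 0 < ρ ∧ ρ ≤ 1 ∧
    ∀ l ∈ Lam τ, ∀ z, z ≠ l → ‖z - l‖ < ρ → z ∉ Lam τ := by
  have h := eventually_notMem hτ
  rw [eventually_nhdsWithin_iff, Metric.eventually_nhds_iff] at h
  obtain ⟨r, hr, h⟩ := h
  refine ⟨min r 1, lt_min hr one_pos, min_le_right _ _, ?_⟩
  intro l hl z hz hd hzL
  obtain ⟨a, b, rfl⟩ := mem_Lam.mp hl
  have h1 : z - (a + b * τ) ∉ Lam τ :=
    h (by rw [dist_zero_right]; exact lt_of_lt_of_le hd (min_le_left _ _)) (sub_ne_zero.2 hz)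
  apply h1
  have h2 := (add_mem_Lam_iff (τ := τ) (w := z) (-a) (-b)).2 hzL
  have e : z - (a + b * τ) = z + (((-a : ℤ) : ℂ) + ((-b : ℤ) : ℂ) * τ) := by
    push_cast
    ring
  rw [e]
  exact h2

lemma tendsto_sub (l : ℂ) : Tendsto (fun z : ℂ => z - l) (𝓝[≠] l) (𝓝[≠] 0) := by
  apply tendsto_nhdsWithin_of_tendsto_nhds_of_eventually_within
  · have h : Tendsto (fun z : ℂ => z - l) (𝓝 l) (𝓝 (l - l)) :=
      (continuous_id.sub continuous_const).tendsto _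
    rw [sub_self] at h
    exact h.mono_left nhdsWithin_le_nhds
  · filter_upwards [self_mem_nhdsWithin] with z hz
    exact sub_ne_zero.2 hz

lemma tendsto_sub' (l : ℂ) : Tendsto (fun z : ℂ => z - l) (𝓝[≠] l) (𝓝 0) :=
  (tendsto_sub l).mono_right nhdsWithin_le_nhds

lemma lim_wp_at {τ : ℂ} (hτ : 0 < τ.im) {l : ℂ} (hl : l ∈ Lam τ) :
    Tendsto (fun z => (z - l) ^ 2 * wp 1 τ z) (𝓝[≠] l) (𝓝 1) := by
  obtain ⟨a, b, rfl⟩ := mem_Lam.mp hl
  have h2 := (lim_sq_wp hτ).comp (tendsto_sub (a + b * τ))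
  refine h2.congr ?_
  intro z
  show (z - (a + b * τ)) ^ 2 * wp 1 τ (z - (a + b * τ)) = (z - (a + b * τ)) ^ 2 * wp 1 τ z
  have e : z - (a + b * τ) = z + (((-a : ℤ) : ℂ) + ((-b : ℤ) : ℂ) * τ) := by
    push_cast
    ring
  have h := wp_add_lp hτ z (-a) (-b)
  rw [← e] at h
  rw [h]

lemma lim_zt {τ : ℂ} (hτ : 0 < τ.im) : Tendsto (fun z => z * zt 1 τ z) (𝓝[≠] 0) (𝓝 1) := by
  have h1 : Tendsto (fun z : ℂ => z * ztE {0} τ z) (𝓝 0) (𝓝 (0 * ztE {0} τ 0)) :=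
    (continuous_id.continuousAt.mul (analyticAt_ztE hτ).continuousAt)
  rw [zero_mul] at h1
  have h2 := (h1.mono_left (nhdsWithin_le_nhds (s := {(0 : ℂ)}ᶜ))).const_add 1
  rw [add_zero] at h2
  refine h2.congr' ?_
  filter_upwards [self_mem_nhdsWithin] with z hz
  have hz0 : z ≠ 0 := hz
  rw [zt_eq_E hτ, mul_add, mul_one_div, div_self hz0]

lemma lim_zt_at {τ : ℂ} (hτ : 0 < τ.im) {l : ℂ} (hl : l ∈ Lam τ) :
    Tendsto (fun z => (z - l) * zt 1 τ z) (𝓝[≠] l) (𝓝 1) := by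
  obtain ⟨a, b, rfl⟩ := mem_Lam.mp hl
  have h2 := (lim_zt hτ).comp (tendsto_sub (a + b * τ))
  have h3 := (tendsto_sub' (a + b * τ)).mul_const (et τ * (a + b * τ) - 2 * Real.pi * Complex.I * b)
  have h4 := h2.add h3
  rw [zero_mul, add_zero] at h4
  refine h4.congr ?_
  intro z
  show (z - (a + b * τ)) * zt 1 τ (z - (a + b * τ)) + (z - (a + b * τ)) *
    (et τ * (a + b * τ) - 2 * Real.pi * Complex.I * b) = (z - (a + b * τ)) * zt 1 τ z
  have h := zt_add_lp hτ (z - (a + b * τ)) a b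
  rw [sub_add_cancel] at h
  rw [h]
  ring

/-- Removing the singularities. -/
lemma entire {τ : ℂ} (hτ : 0 < τ.im) (F : ℂ → ℂ) (hF : DifferentiableOn ℂ F (Lam τ)ᶜ)
    (hl : ∀ l ∈ Lam τ, Tendsto (fun z => (z - l) * F z) (𝓝[≠] l) (𝓝 0)) :
    ∃ G : ℂ → ℂ, Differentiable ℂ G ∧ ∀ z ∉ Lam τ, G z = F z := by
  classical
  obtain ⟨ρ, hρ, _, hiso⟩ := isol hτ
  refine ⟨fun z => if z ∈ Lam τ then limUnder (𝓝[≠] z) F else F z, ?_, fun z hz => if_neg hz⟩
  intro z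
  by_cases hz : z ∈ Lam τ
  · have hb : ball z ρ ∈ 𝓝 z := ball_mem_nhds z hρ
    have hd : DifferentiableOn ℂ F (ball z ρ \ {z}) := by
      apply hF.mono
      rintro w ⟨hw, hwz⟩
      exact hiso z hz w hwz (by rwa [mem_ball, dist_eq_norm] at hw)
    have ho : (fun w => F w - F z) =o[𝓝[≠] z] fun w => (w - z)⁻¹ := by
      rw [Asymptotics.isLittleO_iff_tendsto']
      · have h1 := (hl z hz).sub ((tendsto_sub' z).mul_const (F z))
        rw [zero_mul, sub_zero] at h1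
        refine h1.congr ?_
        intro w
        rw [div_inv_eq_mul]
        ring
      · filter_upwards [self_mem_nhdsWithin] with w hw h0
        exact absurd (inv_eq_zero.1 h0) (sub_ne_zero.2 hw)
    have h1 := Complex.differentiableOn_update_limUnder_of_isLittleO hb hd ho
    have h2 : DifferentiableAt ℂ (Function.update F z (limUnder (𝓝[≠] z) F)) z :=
      h1.differentiableAt hb
    refine h2.congr_of_eventuallyEq ?_
    filter_upwards [hb] with w hw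
    by_cases hwz : w = z
    · subst hwz
      rw [if_pos hz, Function.update_self]
    · rw [if_neg (hiso z hz w hwz (by rwa [mem_ball, dist_eq_norm] at hw)),
        Function.update_of_ne hwz]
  · have hn : (Lam τ)ᶜ ∈ 𝓝 z := (Lam_compl_open hτ).mem_nhds hz
    refine (hF.differentiableAt hn).congr_of_eventuallyEq ?_
    filter_upwards [hn] with w hw
    exact if_neg hw

/-- The maximum principle around the lattice points. -/
lemma grow {τ : ℂ} {ρ : ℝ} (hρ : 0 < ρ) (hρ1 : ρ ≤ 1)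
    (hiso : ∀ l ∈ Lam τ, ∀ z, z ≠ l → ‖z - l‖ < ρ → z ∉ Lam τ)
    {G : ℂ → ℂ} (hG : Differentiable ℂ G) {C : ℝ} (hC : 0 ≤ C)
    (h : ∀ z, ρ / 2 ≤ infDist z (Lam τ) → ‖G z‖ ≤ Real.exp (C * (1 + ‖z‖) ^ 2)) (z : ℂ) :
    ‖G z‖ ≤ Real.exp (4 * C * (1 + ‖z‖) ^ 2) := by
  by_cases hz : ρ / 2 ≤ infDist z (Lam τ)
  · refine (h z hz).trans (Real.exp_le_exp.2 ?_)
    have : 0 ≤ C * (1 + ‖z‖) ^ 2 := by positivity
    linarith
  · rw [not_le, infDist_lt_iff (Lam_ne τ)] at hz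
    obtain ⟨l, hl, hd⟩ := hz
    have hmem : z ∈ ball l (ρ / 2) := hd
    have hd' : ‖z - l‖ < ρ / 2 := by rwa [dist_eq_norm] at hd
    refine Complex.norm_le_of_forall_mem_frontier_norm_le (U := ball l (ρ / 2)) isBounded_ball
      hG.diffContOnCl ?_ (subset_closure hmem)
    intro w hw
    rw [frontier_ball l (by positivity)] at hw
    have hwl : dist w l = ρ / 2 := hw
    have hw1 : ρ / 2 ≤ infDist w (Lam τ) := by
      rw [le_infDist (Lam_ne τ)]
      intro y hy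
      by_cases hyl : y = l
      · rw [hyl, hwl]
      · by_contra hcon
        rw [not_le] at hcon
        have h1 : dist y l ≤ dist y w + dist w l := dist_triangle _ _ _
        rw [dist_comm y w] at h1
        have h2 : ‖y - l‖ < ρ := by
          rw [← dist_eq_norm]
          linarith
        exact hiso l hl y hyl h2 hy
    refine (h w hw1).trans (Real.exp_le_exp.2 ?_)
    have h3 : ‖w‖ ≤ ‖z‖ + 1 := by
      have h4 : ‖w‖ ≤ ‖w - l‖ + ‖l - z‖ + ‖z‖ := by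
        have : w = (w - l) + (l - z) + z := by ring
        calc ‖w‖ = ‖(w - l) + (l - z) + z‖ := by rw [← this]
          _ ≤ ‖(w - l) + (l - z)‖ + ‖z‖ := norm_add_le _ _
          _ ≤ ‖w - l‖ + ‖l - z‖ + ‖z‖ := by
              have := norm_add_le (w - l) (l - z)
              linarith
      rw [norm_sub_rev l z, ← dist_eq_norm w l, hwl] at h4
      linarith
    have h5 : (1 + ‖w‖) ^ 2 ≤ (2 * (1 + ‖z‖)) ^ 2 := by
      apply pow_le_pow_left₀ (by positivity)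
      have := norm_nonneg z
      linarith
    have h6 : C * (1 + ‖w‖) ^ 2 ≤ C * (2 * (1 + ‖z‖)) ^ 2 := mul_le_mul_of_nonneg_left h5 hC
    refine h6.trans (le_of_eq ?_)
    ring

/-- Growth of the quasi-periodic function. -/
lemma W_grow {τ : ℂ} (hτ : 0 < τ.im) (μ : ℂ) {ρ : ℝ} (hρ : 0 < ρ) : ∃ C : ℝ, 0 ≤ C ∧
    ∀ z, ρ / 2 ≤ infDist z (Lam τ) → ‖μ * (zt 1 τ z - et τ * z)‖ ≤ C * (1 + ‖z‖) := by
  set K : Set ℂ := I_WpUp.par τ ∩ {z | ρ / 2 ≤ infDist z (Lam τ)} with hK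
  have hKc : IsCompact K := (I_WpUp.isCompact_par τ).inter_right
    (isClosed_le continuous_const (continuous_infDist_pt _))
  have hKL : K ⊆ (Lam τ)ᶜ := by
    rintro z ⟨-, hz⟩ hz'
    have h1 : infDist z (Lam τ) = 0 := infDist_zero_of_mem hz'
    have h2 : ρ / 2 ≤ infDist z (Lam τ) := hz
    linarith
  have hcont : ContinuousOn (fun z => μ * (zt 1 τ z - et τ * z)) K := by
    have h1 : ContinuousOn (fun z => zt 1 τ z) K := ((analyticOn_zt hτ).continuousOn).mono hKL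
    exact continuousOn_const.mul (h1.sub (continuousOn_const.mul continuousOn_id))
  obtain ⟨M, hM⟩ := hKc.exists_bound_of_continuousOn hcont
  refine ⟨|M| + ‖μ‖ * (2 * Real.pi) * (1 + 1 / τ.im), by positivity, ?_⟩
  intro z hz
  obtain ⟨m, n, hmn⟩ := I_WpUp.exists_red hτ z
  have hmem : z + (m + n * τ) ∈ K := by
    refine ⟨hmn, ?_⟩
    show ρ / 2 ≤ infDist (z + (m + n * τ)) (Lam τ)
    by_contra hcon
    exact absurd (I_WpUp.infDist_shift z m n (not_le.mp hcon)) (not_lt.mpr hz)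
  have h1 := hM _ hmem
  have hn : |(n : ℝ)| ≤ 1 + ‖z‖ / τ.im := by
    obtain ⟨⟨x, y⟩, ⟨-, hy⟩, hxy⟩ := hmn
    have hy' : 0 ≤ y ∧ y ≤ 1 := hy
    have h2 := congrArg Complex.im hxy
    simp at h2
    have h3 : (n : ℝ) = y - z.im / τ.im := by
      field_simp
      linarith
    rw [h3]
    have h4 : |z.im / τ.im| ≤ ‖z‖ / τ.im := by
      rw [abs_div, abs_of_pos hτ]
      exact div_le_div_of_nonneg_right (Complex.abs_im_le_norm z) hτ.le
    calc |y - z.im / τ.im| ≤ |y| + |z.im / τ.im| := abs_sub _ _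
      _ ≤ 1 + ‖z‖ / τ.im := by
          rw [abs_of_nonneg hy'.1]
          linarith [hy'.2]
  have h2 : μ * (zt 1 τ z - et τ * z) =
      μ * (zt 1 τ (z + (m + n * τ)) - et τ * (z + (m + n * τ))) +
        μ * (2 * Real.pi * Complex.I * n) := by
    rw [zt_add_lp hτ]
    ring
  rw [h2]
  have h3 : ‖μ * (2 * Real.pi * Complex.I * n)‖ = ‖μ‖ * (2 * Real.pi) * |(n : ℝ)| := by
    rw [norm_mul, norm_mul, norm_mul, norm_mul, Complex.norm_I, Complex.norm_intCast,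
      Complex.norm_real, Real.norm_eq_abs, abs_of_pos Real.pi_pos]
    simp
    ring
  have h4 : ‖μ‖ * (2 * Real.pi) * |(n : ℝ)| ≤ ‖μ‖ * (2 * Real.pi) * (1 + ‖z‖ / τ.im) :=
    mul_le_mul_of_nonneg_left hn (by positivity)
  have h5 : ‖μ‖ * (2 * Real.pi) * (1 + ‖z‖ / τ.im) ≤
      ‖μ‖ * (2 * Real.pi) * ((1 + 1 / τ.im) * (1 + ‖z‖)) := by
    apply mul_le_mul_of_nonneg_left _ (by positivity)
    have h6 : (1 + 1 / τ.im) * (1 + ‖z‖) = 1 + ‖z‖ / τ.im + (1 / τ.im + ‖z‖) := by ring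
    rw [h6]
    have : 0 ≤ 1 / τ.im + ‖z‖ := by positivity
    linarith
  have h6 : |M| ≤ |M| * (1 + ‖z‖) := by
    have := mul_nonneg (abs_nonneg M) (norm_nonneg z)
    linarith
  calc ‖μ * (zt 1 τ (z + (m + n * τ)) - et τ * (z + (m + n * τ))) +
        μ * (2 * Real.pi * Complex.I * n)‖ ≤ M + ‖μ‖ * (2 * Real.pi) * |(n : ℝ)| := by
        refine (norm_add_le _ _).trans ?_
        rw [h3]
        linarith
    _ ≤ |M| * (1 + ‖z‖) + ‖μ‖ * (2 * Real.pi) * ((1 + 1 / τ.im) * (1 + ‖z‖)) := by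
        have := le_abs_self M
        linarith
    _ = (|M| + ‖μ‖ * (2 * Real.pi) * (1 + 1 / τ.im)) * (1 + ‖z‖) := by ring

end I_Grow

open I_Grow in
theorem Grow_pf (h1 : S_Theta) (h2 : EB.S_WpUp) : S_Grow := by
  intro τ μ hτ hμ
  obtain ⟨Θ, C₀, r, hC₀, hr, hΘ, hΘg, hΘL, hrL, hlow⟩ := h1 τ hτ
  obtain ⟨C₁, hC₁, hwp⟩ := h2 τ hτ
  obtain ⟨ρ, hρ, hρ1, hiso⟩ := isol hτ
  obtain ⟨C₂, hC₂, hW⟩ := W_grow hτ μ hρ
  have hΘslope : ∀ l ∈ Lam τ, Tendsto (fun z => (z - l)⁻¹ * Θ z) (𝓝[≠] l) (𝓝 (deriv Θ l)) := by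
    intro l hl
    have h := hasDerivAt_iff_tendsto_slope.1 (hΘ l).hasDerivAt
    refine h.congr ?_
    intro z
    rw [slope_def_field, hΘL l hl, sub_zero]
    ring
  have hΘ0 : ∀ l ∈ Lam τ, Tendsto Θ (𝓝[≠] l) (𝓝 0) := by
    intro l hl
    have h := (hΘ l).continuousAt.tendsto
    rw [hΘL l hl] at h
    exact h.mono_left nhdsWithin_le_nhds
  -- the function G
  obtain ⟨G, hG, hGe⟩ := entire hτ (fun z => Θ z ^ 2 * xe τ μ z) (by
    have h := ((analyticOn_wp hτ).differentiableOn)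
    exact (hΘ.differentiableOn.pow 2).mul (h.const_mul _)) (by
    intro l hl
    have h := (((hΘ0 l hl).mul (hΘslope l hl)).mul (lim_wp_at hτ hl)).const_mul (μ ^ 2)
    rw [zero_mul, zero_mul, mul_zero] at h
    refine h.congr' ?_
    filter_upwards [self_mem_nhdsWithin] with z hz
    have hz0 : z - l ≠ 0 := sub_ne_zero.2 hz
    unfold xe
    field_simp)
  -- the function H
  obtain ⟨H, hH, hHe⟩ := entire hτ (fun z => Θ z * (μ * (zt 1 τ z - et τ * z))) (by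
    have h := ((analyticOn_zt hτ).differentiableOn)
    exact hΘ.differentiableOn.mul ((h.sub (differentiableOn_id.const_mul _)).const_mul _)) (by
    intro l hl
    have h00 : Tendsto (fun z => et τ * z) (𝓝[≠] l) (𝓝 (et τ * l)) :=
      ((continuous_const.mul continuous_id).tendsto l).mono_left nhdsWithin_le_nhds
    have h0 := (tendsto_sub' l).mul h00
    rw [zero_mul] at h0
    have h := (hΘ0 l hl).mul (((lim_zt_at hτ hl).sub h0).const_mul μ)
    rw [zero_mul] at h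
    refine h.congr ?_
    intro z
    ring)
  have hout : ∀ z, ρ / 2 ≤ infDist z (Lam τ) → z ∉ Lam τ := by
    intro z hz hzL
    rw [infDist_zero_of_mem hzL] at hz
    linarith
  -- growth of G
  set K : ℝ := ‖μ‖ ^ 2 * (C₁ * (2 / ρ) ^ 2) with hK
  have hK0 : 0 ≤ K := by positivity
  have hG1 : ∀ z, ρ / 2 ≤ infDist z (Lam τ) →
      ‖G z‖ ≤ Real.exp ((2 * C₀ + K) * (1 + ‖z‖) ^ 2) := by
    intro z hz
    have hzL := hout z hz
    have h3 := hwp z hzL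
    have h4 : ρ / 2 ≤ d1 τ z := le_min (by linarith) hz
    have h5 : ‖wp 1 τ z‖ ≤ C₁ * (2 / ρ) ^ 2 := by
      have h6 : ‖wp 1 τ z‖ * (ρ / 2) ^ 2 ≤ C₁ :=
        (mul_le_mul_of_nonneg_left (pow_le_pow_left₀ (by positivity) h4 2) (norm_nonneg _)).trans h3
      have h7 : ‖wp 1 τ z‖ = ‖wp 1 τ z‖ * (ρ / 2) ^ 2 * (2 / ρ) ^ 2 := by
        field_simp
      rw [h7]
      exact mul_le_mul_of_nonneg_right h6 (by positivity)
    have h8 : ‖xe τ μ z‖ ≤ K := by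
      unfold xe
      rw [norm_mul, norm_pow]
      exact mul_le_mul_of_nonneg_left h5 (by positivity)
    have h9 : K ≤ Real.exp (K * (1 + ‖z‖) ^ 2) := by
      have e1 : K ≤ K * (1 + ‖z‖) ^ 2 := by
        have : 1 ≤ (1 + ‖z‖) ^ 2 := one_le_pow₀ (by linarith [norm_nonneg z])
        nlinarith
      have e2 := Real.add_one_le_exp (K * (1 + ‖z‖) ^ 2)
      linarith
    rw [hGe z hzL, norm_mul, norm_pow]
    calc ‖Θ z‖ ^ 2 * ‖xe τ μ z‖ ≤
        (Real.exp (C₀ * (1 + ‖z‖) ^ 2)) ^ 2 * Real.exp (K * (1 + ‖z‖) ^ 2) := by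
          apply mul_le_mul (pow_le_pow_left₀ (norm_nonneg _) (hΘg z) 2) (h8.trans h9)
            (norm_nonneg _) (by positivity)
      _ = Real.exp ((2 * C₀ + K) * (1 + ‖z‖) ^ 2) := by
          rw [← Real.exp_nat_mul, ← Real.exp_add]
          congr 1
          push_cast
          ring
  have hH1 : ∀ z, ρ / 2 ≤ infDist z (Lam τ) →
      ‖H z‖ ≤ Real.exp ((C₀ + C₂) * (1 + ‖z‖) ^ 2) := by
    intro z hz
    have hzL := hout z hz
    have h8 := hW z hz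
    have h9 : C₂ * (1 + ‖z‖) ≤ Real.exp (C₂ * (1 + ‖z‖) ^ 2) := by
      have e1 : C₂ * (1 + ‖z‖) ≤ C₂ * (1 + ‖z‖) ^ 2 := by
        apply mul_le_mul_of_nonneg_left _ hC₂
        have := norm_nonneg z
        nlinarith
      have e2 := Real.add_one_le_exp (C₂ * (1 + ‖z‖) ^ 2)
      linarith
    rw [hHe z hzL, norm_mul]
    calc ‖Θ z‖ * ‖μ * (zt 1 τ z - et τ * z)‖ ≤
        Real.exp (C₀ * (1 + ‖z‖) ^ 2) * Real.exp (C₂ * (1 + ‖z‖) ^ 2) := by
          apply mul_le_mul (hΘg z) (h8.trans h9) (norm_nonneg _) (Real.exp_pos _).le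
      _ = Real.exp ((C₀ + C₂) * (1 + ‖z‖) ^ 2) := by
          rw [← Real.exp_add]
          congr 1
          ring
  have hmono : ∀ (a b x : ℝ), a ≤ b → Real.exp (a * (1 + x) ^ 2) ≤ Real.exp (b * (1 + x) ^ 2) :=
    fun a b x hab => Real.exp_le_exp.2 (mul_le_mul_of_nonneg_right hab (sq_nonneg _))
  refine ⟨Θ, G, H, 4 * (2 * C₀ + K) + 4 * (C₀ + C₂), r, by linarith, hr, hΘ, hG, hH, ?_,
    fun z hz => ⟨hGe z hz, hHe z hz⟩, hrL, ?_⟩
  · intro z
    refine ⟨(hΘg z).trans (hmono _ _ _ (by linarith)), ?_, ?_⟩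
    · exact (grow hρ hρ1 hiso hG (by linarith) hG1 z).trans (hmono _ _ _ (by linarith))
    · exact (grow hρ hρ1 hiso hH (by linarith) hH1 z).trans (hmono _ _ _ (by linarith))
  · intro n z hz
    refine le_trans (Real.exp_le_exp.2 ?_) (hlow n z hz)
    have : 0 ≤ ((1 : ℝ) + n) ^ 2 := sq_nonneg _
    nlinarith

end Pool.Agent.Work.MP_8da9ea_nt.CH
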