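import Pool.Agent.Work.MP_8da9ea_nt.CH.Stmts

/-!
# Chudnovsky block, item Z4 (`Low`): independent conditions
-/

set_option autoImplicit false

namespace Pool.Agent.Work.MP_8da9ea_nt.CH

open MvPolynomial Filter Topology Pool.Agent.Work.MP_327059_nt.GL Pool.Agent.Work.MP_8da9ea_nt.S
  Pool.Agent.Work.MP_8da9ea_nt.EB

namespace I_Low

variable {τ μ θ₁ θ₂ : ℂ}

theorem an_x (h1 : S_Bas) (hτ : 0 < τ.im) (hμ : μ ≠ 0) : AnalyticAt ℂ (xg τ μ) 0 := by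
  obtain ⟨⟨r, hr, h⟩, -⟩ := h1 τ μ hτ hμ
  have hd : DifferentiableOn ℂ (xg τ μ) (Metric.ball 0 r) := by
    intro s hs
    rw [Metric.mem_ball, dist_zero_right] at hs
    exact (h 0 s hs).2.1.differentiableAt.differentiableWithinAt
  exact hd.analyticAt (Metric.ball_mem_nhds _ hr)

theorem an_w (h1 : S_Bas) (hτ : 0 < τ.im) (hμ : μ ≠ 0) : AnalyticAt ℂ (wg τ μ θ₁) 0 := by
  obtain ⟨⟨r, hr, h⟩, -⟩ := h1 τ μ hτ hμ
  have hd : DifferentiableOn ℂ (wg τ μ θ₁) (Metric.ball 0 r) := by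
    intro s hs
    rw [Metric.mem_ball, dist_zero_right] at hs
    exact (h θ₁ s hs).2.2.2.1.differentiableAt.differentiableWithinAt
  exact hd.analyticAt (Metric.ball_mem_nhds _ hr)

theorem an_f (h1 : S_Bas) (hτ : 0 < τ.im) (hμ : μ ≠ 0) (n : ℕ) (f : MvPolynomial (Fin 2) ℂ) :
    AnalyticAt ℂ (fg τ μ θ₁ θ₂ n f) 0 := by
  have h := AnalyticAt.aeval_mvPolynomial (𝕜 := ℂ) (A := ℂ) (B := ℂ) (z := (0 : ℂ))
    (f := fun s => ![xg τ μ s, wg τ μ θ₁ s - n * θ₂]) (by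
      intro i
      fin_cases i
      · exact an_x h1 hτ hμ
      · exact (an_w h1 hτ hμ).sub analyticAt_const) f
  exact h

theorem fg_add (n : ℕ) (f g : MvPolynomial (Fin 2) ℂ) :
    fg τ μ θ₁ θ₂ n (f + g) = fg τ μ θ₁ θ₂ n f + fg τ μ θ₁ θ₂ n g := by
  funext s
  simp [fg]

theorem fg_mul (n : ℕ) (f g : MvPolynomial (Fin 2) ℂ) :
    fg τ μ θ₁ θ₂ n (f * g) = fg τ μ θ₁ θ₂ n f * fg τ μ θ₁ θ₂ n g := by
  funext s
  simp [fg]

theorem fg_smul (n : ℕ) (c : ℂ) (f : MvPolynomial (Fin 2) ℂ) :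
    fg τ μ θ₁ θ₂ n (c • f) = c • fg τ μ θ₁ θ₂ n f := by
  funext s
  simp [fg]

theorem fg_pow (n k : ℕ) (f : MvPolynomial (Fin 2) ℂ) :
    fg τ μ θ₁ θ₂ n (f ^ k) = fg τ μ θ₁ θ₂ n f ^ k := by
  funext s
  simp [fg]

theorem og_mul (h1 : S_Bas) (hτ : 0 < τ.im) (hμ : μ ≠ 0) (n : ℕ)
    (f g : MvPolynomial (Fin 2) ℂ) :
    og τ μ θ₁ θ₂ n (f * g) = og τ μ θ₁ θ₂ n f + og τ μ θ₁ θ₂ n g := by
  unfold og
  rw [fg_mul, analyticOrderAt_mul (an_f h1 hτ hμ n f) (an_f h1 hτ hμ n g)]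

theorem og_pow (h1 : S_Bas) (hτ : 0 < τ.im) (hμ : μ ≠ 0) (n k : ℕ)
    (f : MvPolynomial (Fin 2) ℂ) :
    og τ μ θ₁ θ₂ n (f ^ k) = k • og τ μ θ₁ θ₂ n f := by
  unfold og
  rw [fg_pow, analyticOrderAt_pow (an_f h1 hτ hμ n f)]

/-- one condition -/
noncomputable def D (h1 : S_Bas) (hτ : 0 < τ.im) (hμ : μ ≠ 0) (θ₁ θ₂ : ℂ) (n k : ℕ) :
    MvPolynomial (Fin 2) ℂ →ₗ[ℂ] ℂ where
  toFun f := iteratedDeriv k (fg τ μ θ₁ θ₂ n f) 0
  map_add' f g := by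
    rw [fg_add]
    exact iteratedDeriv_add (an_f h1 hτ hμ n f).contDiffAt (an_f h1 hτ hμ n g).contDiffAt
  map_smul' c f := by
    rw [fg_smul]
    exact iteratedDeriv_const_smul (an_f h1 hτ hμ n f).contDiffAt c

/-- the polynomials of order at least `m` on the germ `n` -/
noncomputable def O (h1 : S_Bas) (hτ : 0 < τ.im) (hμ : μ ≠ 0) (θ₁ θ₂ : ℂ) (n m : ℕ) :
    Submodule ℂ (MvPolynomial (Fin 2) ℂ) where
  carrier := {f | (m : ℕ∞) ≤ og τ μ θ₁ θ₂ n f}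
  zero_mem' := by
    have h : fg τ μ θ₁ θ₂ n 0 = fun _ => 0 := by
      funext s
      simp [fg]
    have h2 : og τ μ θ₁ θ₂ n 0 = ⊤ := by
      unfold og
      rw [h, analyticOrderAt_eq_top]
      exact Eventually.of_forall fun _ => rfl
    show (m : ℕ∞) ≤ og τ μ θ₁ θ₂ n 0
    rw [h2]
    exact le_top
  add_mem' := by
    intro f g hf hg
    show (m : ℕ∞) ≤ og τ μ θ₁ θ₂ n (f + g)
    unfold og
    rw [fg_add]
    exact le_trans (le_min hf hg) le_analyticOrderAt_add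
  smul_mem' := by
    intro c f hf
    show (m : ℕ∞) ≤ og τ μ θ₁ θ₂ n (c • f)
    rw [MvPolynomial.smul_eq_C_mul, og_mul h1 hτ hμ]
    exact le_trans hf le_add_self

theorem mem_O (h1 : S_Bas) (hτ : 0 < τ.im) (hμ : μ ≠ 0) {n m : ℕ}
    {f : MvPolynomial (Fin 2) ℂ} :
    f ∈ O h1 hτ hμ θ₁ θ₂ n m ↔ (m : ℕ∞) ≤ og τ μ θ₁ θ₂ n f := Iff.rfl

/-- `x(s) - e` has order `2` -/
theorem og_x (h1 : S_Bas) (hτ : 0 < τ.im) (hμ : μ ≠ 0) (n : ℕ) :
    og τ μ θ₁ θ₂ n (X 0 - C (xe τ μ (1 / 2))) = 2 := by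
  obtain ⟨⟨r, hr, h⟩, hx0, hy0, -, hne⟩ := h1 τ μ hτ hμ
  have hball : ∀ᶠ s in 𝓝 (0 : ℂ), ‖s‖ < r := by
    have := Metric.ball_mem_nhds (0 : ℂ) hr
    filter_upwards [this] with s hs
    rwa [Metric.mem_ball, dist_zero_right] at hs
  have hfg : fg τ μ θ₁ θ₂ n (X 0 - C (xe τ μ (1 / 2))) = fun s => xg τ μ s - xg τ μ 0 := by
    funext s
    simp [fg, hx0]
  have hdx : deriv (xg τ μ) =ᶠ[𝓝 0] yg τ μ := by
    filter_upwards [hball] with s hs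
    exact (h 0 s hs).2.1.deriv
  have hany : AnalyticAt ℂ (yg τ μ) 0 := (an_x h1 hτ hμ).deriv.congr hdx
  have h2 := (an_x h1 hτ hμ).analyticOrderAt_deriv_add_one
  have h3 := hany.analyticOrderAt_deriv_add_one
  have h4 : analyticOrderAt (deriv (yg τ μ)) 0 = 0 := by
    rw [analyticOrderAt_eq_zero]
    right
    rw [(h 0 0 (by simpa using hr)).2.2.1.deriv, hx0]
    exact hne
  rw [h4, hy0] at h3
  simp only [sub_zero, zero_add] at h3
  rw [analyticOrderAt_congr hdx] at h2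
  unfold og
  rw [hfg, ← h2]
  have h5 : analyticOrderAt (yg τ μ) 0 = 1 := h3.symm
  rw [h5]
  rfl

/-- the test polynomials -/
noncomputable def P (τ μ θ₂ : ℂ) (I : Finset ℕ) (t : ℕ → ℕ) (n₀ k : ℕ) :
    MvPolynomial (Fin 2) ℂ :=
  (X 0 - C (xe τ μ (1 / 2))) ^ k * ∏ n ∈ I.erase n₀, (X 1 + C ((n : ℂ) * θ₂)) ^ t n

theorem og_P_self (h1 : S_Bas) (hτ : 0 < τ.im) (hμ : μ ≠ 0) (hθ : θ₂ ≠ 0) (I : Finset ℕ)
    (t : ℕ → ℕ) (n₀ k : ℕ) : og τ μ θ₁ θ₂ n₀ (P τ μ θ₂ I t n₀ k) = ((2 * k : ℕ) : ℕ∞) := by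
  have hw0 := (h1 τ μ hτ hμ).2.2.2.1 θ₁
  unfold P
  rw [og_mul h1 hτ hμ, og_pow h1 hτ hμ, og_x h1 hτ hμ]
  have h2 : og τ μ θ₁ θ₂ n₀ (∏ n ∈ I.erase n₀, (X 1 + C ((n : ℂ) * θ₂)) ^ t n) = 0 := by
    unfold og
    rw [analyticOrderAt_eq_zero]
    right
    unfold fg
    rw [map_prod]
    rw [Finset.prod_ne_zero_iff]
    intro n hn
    have hne : n ≠ n₀ := (Finset.mem_erase.1 hn).1
    rw [map_pow]
    apply pow_ne_zero
    simp only [map_add, eval_X, eval_C, Matrix.cons_val_one, Matrix.cons_val_fin_one, hw0]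
    have h3 : (0 : ℂ) - n₀ * θ₂ + n * θ₂ = ((n : ℂ) - n₀) * θ₂ := by ring
    rw [h3]
    exact mul_ne_zero (sub_ne_zero.2 (by exact_mod_cast hne)) hθ
  rw [h2, add_zero, nsmul_eq_mul]
  push_cast
  ring

theorem prod_split {M : Type*} [CommMonoid M] (s : Finset ℕ) (F : ℕ → M) (a : ℕ) (ha : a ∈ s) :
    ∃ q, ∏ n ∈ s, F n = F a * q := ⟨_, (Finset.mul_prod_erase s F ha).symm⟩

theorem og_P_ne (h1 : S_Bas) (hτ : 0 < τ.im) (hμ : μ ≠ 0) (I : Finset ℕ)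
    (t : ℕ → ℕ) (n₀ k n : ℕ) (hn : n ∈ I) (hne : n ≠ n₀) :
    (t n : ℕ∞) ≤ og τ μ θ₁ θ₂ n (P τ μ θ₂ I t n₀ k) := by
  have hw0 := (h1 τ μ hτ hμ).2.2.2.1 θ₁
  obtain ⟨q', hq'⟩ := prod_split (I.erase n₀)
    (fun n : ℕ => (X 1 + C ((n : ℂ) * θ₂) : MvPolynomial (Fin 2) ℂ) ^ t n) n
    (Finset.mem_erase.2 ⟨hne, hn⟩)
  obtain ⟨q, hq⟩ : ∃ q, P τ μ θ₂ I t n₀ k =
      ((X 1 + C ((n : ℂ) * θ₂) : MvPolynomial (Fin 2) ℂ)) ^ t n * q :=
    ⟨(X 0 - C (xe τ μ (1 / 2))) ^ k * q', by unfold P; rw [hq']; ring⟩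
  rw [hq, og_mul h1 hτ hμ, og_pow h1 hτ hμ]
  refine le_trans ?_ le_self_add
  have h3 : (1 : ℕ∞) ≤ og τ μ θ₁ θ₂ n (X 1 + C ((n : ℂ) * θ₂)) := by
    rw [Order.one_le_iff_ne_zero]
    unfold og
    rw [analyticOrderAt_ne_zero]
    refine ⟨an_f h1 hτ hμ n _, ?_⟩
    simp [fg, hw0]
  rw [nsmul_eq_mul]
  calc (t n : ℕ∞) = (t n : ℕ∞) * 1 := (mul_one _).symm
    _ ≤ _ := by gcongr

end I_Low

open I_Low in
/-- **Item Low.** -/
theorem Low_pf (h1 : S_Bas) (_h2 : S_FinO) : S_Low := by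
  intro τ μ θ₁ θ₂ hτ hμ hθ I t
  classical
  let κ := Σ n : I, Fin (t n)
  let e : Fin (Fintype.card κ) ≃ κ := (Fintype.equivFin κ).symm
  let Λ : MvPolynomial (Fin 2) ℂ →ₗ[ℂ] (Fin (Fintype.card κ) → ℂ) :=
    LinearMap.pi fun i => D h1 hτ hμ θ₁ θ₂ ((e i).1 : ℕ) ((e i).2 : ℕ)
  have hker : ∀ f, Λ f = 0 ↔ ∀ n ∈ I, (t n : ℕ∞) ≤ og τ μ θ₁ θ₂ n f := by
    intro f
    constructor
    · intro h n hn
      unfold og
      rw [natCast_le_analyticOrderAt_iff_iteratedDeriv_eq_zero (an_f h1 hτ hμ n f)]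
      intro k hk
      have key : ∀ x : κ, D h1 hτ hμ θ₁ θ₂ (x.1 : ℕ) (x.2 : ℕ) f = 0 := by
        intro x
        have h3 := congrFun h (e.symm x)
        have h5 : e (e.symm x) = x := e.apply_symm_apply x
        change D h1 hτ hμ θ₁ θ₂ ((e (e.symm x)).1 : ℕ) ((e (e.symm x)).2 : ℕ) f = 0 at h3
        rw [h5] at h3
        exact h3
      exact key ⟨⟨n, hn⟩, ⟨k, hk⟩⟩
    · intro h
      funext i
      have h3 := h _ (e i).1.2
      unfold og at h3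
      rw [natCast_le_analyticOrderAt_iff_iteratedDeriv_eq_zero (an_f h1 hτ hμ _ f)] at h3
      exact h3 _ (e i).2.2
  refine ⟨Fintype.card κ, Λ, hker, ?_⟩
  let ι := Σ n : I, Fin ((t n + 1) / 2)
  have hli : LinearIndependent ℂ
      (fun i : ι => (⟨Λ (P τ μ θ₂ I t i.1 i.2), LinearMap.mem_range_self _ _⟩ :
        LinearMap.range Λ)) := by
    apply LinearIndependent.of_comp (LinearMap.range Λ).subtype
    rw [Fintype.linearIndependent_iff]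
    intro c hc
    have hc' : Λ (∑ i, c i • P τ μ θ₂ I t i.1 i.2) = 0 := by
      rw [map_sum]
      simp only [map_smul]
      exact hc
    rw [hker] at hc'
    rintro ⟨n₀, k, hk⟩
    induction k using Nat.strong_induction_on with
    | _ k ih =>
      have hm : 2 * k + 1 ≤ t n₀ := by omega
      let M := O h1 hτ hμ θ₁ θ₂ (n₀ : ℕ) (2 * k + 1)
      have htot : ∑ i, c i • P τ μ θ₂ I t i.1 i.2 ∈ M := by
        rw [mem_O]
        refine le_trans ?_ (hc' n₀ n₀.2)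
        exact_mod_cast hm
      have hoth : ∀ i : ι, i ≠ ⟨n₀, k, hk⟩ → c i • P τ μ θ₂ I t i.1 i.2 ∈ M := by
        rintro ⟨n, j, hj⟩ hne
        by_cases hn : n = n₀
        · subst hn
          rcases lt_trichotomy j k with hjk | hjk | hjk
          · rw [ih j hjk hj, zero_smul]
            exact M.zero_mem
          · subst hjk
            exact absurd rfl hne
          · apply M.smul_mem
            rw [mem_O]
            rw [og_P_self h1 hτ hμ hθ]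
            have : 2 * k + 1 ≤ 2 * j := by omega
            exact_mod_cast this
        · apply M.smul_mem
          rw [mem_O]
          refine le_trans ?_ (og_P_ne h1 hτ hμ I t n j n₀ n₀.2 (fun h => hn (Subtype.ext h.symm)))
          exact_mod_cast hm
      have hself : c ⟨n₀, k, hk⟩ • P τ μ θ₂ I t n₀ k ∈ M := by
        have hs := Finset.sum_erase_add (s := Finset.univ)
          (f := fun i : ι => c i • P τ μ θ₂ I t i.1 i.2) (a := ⟨n₀, k, hk⟩) (Finset.mem_univ _)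
        have h4 : ∑ i ∈ Finset.univ.erase (⟨n₀, k, hk⟩ : ι), c i • P τ μ θ₂ I t i.1 i.2 ∈ M :=
          M.sum_mem fun i hi => hoth i (Finset.ne_of_mem_erase hi)
        have h5 := M.sub_mem htot h4
        rw [← hs, add_sub_cancel_left] at h5
        exact h5
      by_contra hcne
      have h6 : P τ μ θ₂ I t n₀ k ∈ M := by
        have := M.smul_mem (c ⟨n₀, k, hk⟩)⁻¹ hself
        rwa [smul_smul, inv_mul_cancel₀ hcne, one_smul] at this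
      rw [mem_O, og_P_self h1 hτ hμ hθ] at h6
      have : 2 * k + 1 ≤ 2 * k := by exact_mod_cast h6
      omega
  have hcard := hli.fintype_card_le_finrank
  have h7 : ∑ n ∈ I, t n ≤ 2 * Fintype.card ι := by
    have : Fintype.card ι = ∑ n : I, (t n + 1) / 2 := by
      rw [Fintype.card_sigma]
      simp
    rw [this, Finset.sum_coe_sort I (fun n => (t n + 1) / 2), Finset.mul_sum]
    apply Finset.sum_le_sum
    intro n _
    omega
  omega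

end Pool.Agent.Work.MP_8da9ea_nt.CH
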