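import Pool.Agent.Work.MP_8da9ea_nt.CH.Stmts

/-!
# Z5: an irreducible factor
-/

set_option autoImplicit false

namespace Pool.Agent.Work.MP_8da9ea_nt.CH

open MvPolynomial Filter Topology

namespace I_Mult

/-! ### degrees of derivatives -/

lemma degreeOf_pderiv_le {σ : Type} [DecidableEq σ] (i j : σ) (f : MvPolynomial σ ℂ) :
    (pderiv i f).degreeOf j ≤ f.degreeOf j := by
  rw [degreeOf_le_iff]
  intro s hs
  rw [mem_support_iff, coeff_pderiv] at hs
  have h1 : coeff (s + Finsupp.single i 1) f ≠ 0 := fun h => hs (by rw [h, zero_mul])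
  have h2 := monomial_le_degreeOf j (mem_support_iff.2 h1)
  rw [Finsupp.add_apply] at h2
  omega

lemma degreeOf_pderiv_self {σ : Type} [DecidableEq σ] (i : σ) (f : MvPolynomial σ ℂ)
    (h0 : pderiv i f ≠ 0) : (pderiv i f).degreeOf i + 1 ≤ f.degreeOf i := by
  obtain ⟨s, hs, hse⟩ : ∃ s ∈ (pderiv i f).support, (pderiv i f).degreeOf i = s i := by
    rw [degreeOf_eq_sup]
    exact Finset.exists_mem_eq_sup _ (support_nonempty.2 h0) _
  rw [mem_support_iff, coeff_pderiv] at hs
  have h1 : coeff (s + Finsupp.single i 1) f ≠ 0 := fun h => hs (by rw [h, zero_mul])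
  have h2 := monomial_le_degreeOf i (mem_support_iff.2 h1)
  rw [Finsupp.add_apply, Finsupp.single_eq_same] at h2
  omega

lemma deg_NP (τ μ θ₁ : ℂ) (P : MvPolynomial (Fin 2) ℂ) :
    (NP τ μ θ₁ P).degreeOf 0 ≤ 2 * P.degreeOf 0 + 2 ∧
    (NP τ μ θ₁ P).degreeOf 1 ≤ 2 * P.degreeOf 1 := by
  have e01 : (1 : Fin 2) ≠ 0 := by decide
  have e10 : (0 : Fin 2) ≠ 1 := by decide
  unfold NP
  set c : MvPolynomial (Fin 2) ℂ :=
    4 * X 0 ^ 3 - C (μ ^ 4 * gg2 τ) * X 0 - C (μ ^ 6 * gg3 τ) with hc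
  have c0 : c.degreeOf 0 ≤ 3 := by
    rw [hc]
    refine (degreeOf_sub_le _ _ _).trans (max_le ((degreeOf_sub_le _ _ _).trans (max_le ?_ ?_)) ?_)
    · have h4 : (4 : MvPolynomial (Fin 2) ℂ) = C 4 := (map_ofNat C 4).symm
      rw [h4]
      refine (degreeOf_mul_le _ _ _).trans ?_
      rw [degreeOf_C]
      refine (Nat.add_le_add_left (degreeOf_pow_le _ _ _) _).trans ?_
      rw [degreeOf_X, if_pos rfl]
    · refine (degreeOf_mul_le _ _ _).trans ?_
      rw [degreeOf_C, degreeOf_X, if_pos rfl]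
      norm_num
    · rw [degreeOf_C]
      norm_num
  have c1 : c.degreeOf 1 ≤ 0 := by
    rw [hc]
    refine (degreeOf_sub_le _ _ _).trans (max_le ((degreeOf_sub_le _ _ _).trans (max_le ?_ ?_)) ?_)
    · have h4 : (4 : MvPolynomial (Fin 2) ℂ) = C 4 := (map_ofNat C 4).symm
      rw [h4]
      refine (degreeOf_mul_le _ _ _).trans ?_
      rw [degreeOf_C]
      refine (Nat.add_le_add_left (degreeOf_pow_le _ _ _) _).trans ?_
      rw [degreeOf_X, if_neg e01]
    · refine (degreeOf_mul_le _ _ _).trans ?_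
      rw [degreeOf_C, degreeOf_X, if_neg e01]
    · rw [degreeOf_C]
  have l0 : ((X 0 + C θ₁ : MvPolynomial (Fin 2) ℂ) ^ 2).degreeOf 0 ≤ 2 := by
    refine (degreeOf_pow_le _ _ _).trans ?_
    have : (X 0 + C θ₁ : MvPolynomial (Fin 2) ℂ).degreeOf 0 ≤ 1 := by
      refine (degreeOf_add_le _ _ _).trans (max_le ?_ ?_)
      · rw [degreeOf_X, if_pos rfl]
      · rw [degreeOf_C]
        norm_num
    omega
  have l1 : ((X 0 + C θ₁ : MvPolynomial (Fin 2) ℂ) ^ 2).degreeOf 1 ≤ 0 := by
    refine (degreeOf_pow_le _ _ _).trans ?_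
    have : (X 0 + C θ₁ : MvPolynomial (Fin 2) ℂ).degreeOf 1 ≤ 0 := by
      refine (degreeOf_add_le _ _ _).trans (max_le ?_ ?_)
      · rw [degreeOf_X, if_neg e01]
      · rw [degreeOf_C]
    omega
  constructor
  · refine (degreeOf_sub_le _ _ _).trans (max_le ?_ ?_)
    · refine (degreeOf_mul_le _ _ _).trans ?_
      have h1 := degreeOf_pow_le (0 : Fin 2) (pderiv 1 P) 2
      have h2 := degreeOf_pderiv_le 1 0 P
      omega
    · by_cases h0 : pderiv 0 P = 0
      · rw [h0]
        simp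
      · refine (degreeOf_mul_le _ _ _).trans ?_
        have h1 := degreeOf_pow_le (0 : Fin 2) (pderiv 0 P) 2
        have h2 := degreeOf_pderiv_self 0 P h0
        omega
  · refine (degreeOf_sub_le _ _ _).trans (max_le ?_ ?_)
    · refine (degreeOf_mul_le _ _ _).trans ?_
      have h1 := degreeOf_pow_le (1 : Fin 2) (pderiv 1 P) 2
      have h2 := degreeOf_pderiv_le 1 1 P
      omega
    · refine (degreeOf_mul_le _ _ _).trans ?_
      have h1 := degreeOf_pow_le (1 : Fin 2) (pderiv 0 P) 2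
      have h2 := degreeOf_pderiv_le 0 1 P
      omega

/-! ### chain rule -/

lemma hasDerivAt_eval (P : MvPolynomial (Fin 2) ℂ) (f g : ℂ → ℂ) (f' g' s : ℂ)
    (hf : HasDerivAt f f' s) (hg : HasDerivAt g g' s) :
    HasDerivAt (fun s => eval ![f s, g s] P)
      (eval ![f s, g s] (pderiv 0 P) * f' + eval ![f s, g s] (pderiv 1 P) * g') s := by
  induction P using MvPolynomial.induction_on with
  | C a =>
    simp only [eval_C, pderiv_C, map_zero, zero_mul, add_zero]
    exact hasDerivAt_const _ _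
  | add p q hp hq =>
    have h := hp.add hq
    refine (h.congr_deriv ?_).congr_of_eventuallyEq (Eventually.of_forall fun s => ?_)
    · simp only [map_add]
      ring
    · simp only [map_add, Pi.add_apply]
  | mul_X p i hp =>
    fin_cases i
    · have h := hp.mul hf
      refine (h.congr_deriv ?_).congr_of_eventuallyEq (Eventually.of_forall fun s => ?_)
      · simp only [Fin.zero_eta, Fin.isValue, pderiv_mul, pderiv_X_self, mul_one, map_add, map_mul,
          eval_X, Matrix.cons_val_zero, pderiv_X_of_ne (show (0 : Fin 2) ≠ 1 by decide), mul_zero,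
          add_zero]
        ring
      · simp
    · have h := hp.mul hg
      refine (h.congr_deriv ?_).congr_of_eventuallyEq (Eventually.of_forall fun s => ?_)
      · simp only [Fin.mk_one, Fin.isValue, pderiv_mul, pderiv_X_self, mul_one, map_add, map_mul,
          eval_X, Matrix.cons_val_one, Matrix.cons_val_fin_one,
          pderiv_X_of_ne (show (1 : Fin 2) ≠ 0 by decide), mul_zero, add_zero]
        ring
      · simp

/-! ### the fibre over `e` -/

lemma fibre (P : MvPolynomial (Fin 2) ℂ) (hP : Irreducible P) (h1 : P.degreeOf 1 ≠ 0) (e θ : ℂ)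
    (hθ : θ ≠ 0) (I : Finset ℕ) (hI : ∀ n ∈ I, eval ![e, 0 - (n : ℂ) * θ] P = 0) :
    I.card ≤ P.degreeOf 1 := by
  classical
  set R : Polynomial ℂ := aeval ![Polynomial.C e, Polynomial.X] P with hR
  have hRe : ∀ w : ℂ, R.eval w = eval ![e, w] P := by
    intro w
    have h4 : (Polynomial.aeval w).comp
        (aeval (![Polynomial.C e, Polynomial.X] : Fin 2 → Polynomial ℂ)) =
          (aeval (![e, w] : Fin 2 → ℂ)) := by
      apply algHom_ext
      intro i
      fin_cases i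
      · simp
      · simp
    have h5 := DFunLike.congr_fun h4 P
    rw [AlgHom.comp_apply, ← hR, Polynomial.coe_aeval_eq_eval] at h5
    rw [h5]
    rfl
  have hR0 : R ≠ 0 := by
    intro h0
    have h2 : aeval (![C e, X 1] : Fin 2 → MvPolynomial (Fin 2) ℂ) P = 0 := by
      have h3 : aeval (![C e, X 1] : Fin 2 → MvPolynomial (Fin 2) ℂ) P =
          Polynomial.aeval (X 1 : MvPolynomial (Fin 2) ℂ) R := by
        have h4 : (aeval (![C e, X 1] : Fin 2 → MvPolynomial (Fin 2) ℂ)) =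
            (Polynomial.aeval (X 1 : MvPolynomial (Fin 2) ℂ)).comp
              (aeval (![Polynomial.C e, Polynomial.X] : Fin 2 → Polynomial ℂ)) := by
          apply algHom_ext
          intro i
          fin_cases i
          · simp [algebraMap_eq]
          · simp
        rw [h4]
        rfl
      rw [h3, h0, map_zero]
    have h5 : (X 0 - C e : MvPolynomial (Fin 2) ℂ) ∣ P := by
      rw [← Ideal.mem_span_singleton, ← Ideal.Quotient.eq_zero_iff_mem]
      set I₀ : Ideal (MvPolynomial (Fin 2) ℂ) := Ideal.span {X 0 - C e} with hI₀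
      have h6 : (Ideal.Quotient.mkₐ ℂ I₀).comp
          (aeval (![C e, X 1] : Fin 2 → MvPolynomial (Fin 2) ℂ)) = Ideal.Quotient.mkₐ ℂ I₀ := by
        apply algHom_ext
        intro i
        fin_cases i
        · rw [AlgHom.comp_apply, aeval_X]
          change Ideal.Quotient.mk I₀ (C e) = Ideal.Quotient.mk I₀ (X 0)
          rw [eq_comm, Ideal.Quotient.eq]
          exact Ideal.mem_span_singleton_self _
        · rw [AlgHom.comp_apply, aeval_X]
          rfl
      have h7 := DFunLike.congr_fun h6 P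
      rw [AlgHom.comp_apply, h2, map_zero] at h7
      exact h7.symm
    obtain ⟨u, hu⟩ := h5
    have hnu : ¬ IsUnit (X 0 - C e : MvPolynomial (Fin 2) ℂ) := by
      intro h8
      have h9 := h8.map (eval (![e, 0] : Fin 2 → ℂ))
      simp at h9
    have huu : IsUnit u := (hP.isUnit_or_isUnit hu).resolve_left hnu
    rw [isUnit_iff_eq_C_of_isReduced] at huu
    obtain ⟨a, -, ha⟩ := huu
    apply h1
    rw [← Nat.le_zero, hu, ha]
    refine (degreeOf_mul_le _ _ _).trans ?_
    rw [degreeOf_C]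
    have h10 : (X 0 - C e : MvPolynomial (Fin 2) ℂ).degreeOf 1 ≤ 0 := by
      refine (degreeOf_sub_le _ _ _).trans (max_le ?_ ?_)
      · rw [degreeOf_X, if_neg (by decide)]
      · rw [degreeOf_C]
    omega
  have hdeg : R.natDegree ≤ P.degreeOf 1 := by
    rw [hR, aeval_def, eval₂_eq']
    apply Polynomial.natDegree_sum_le_of_forall_le
    intro m hm
    rw [Fin.prod_univ_two]
    have h3 : (algebraMap ℂ (Polynomial ℂ)) (P.coeff m) * ((![Polynomial.C e, Polynomial.X] :
        Fin 2 → Polynomial ℂ) 0 ^ m 0 * (![Polynomial.C e, Polynomial.X] :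
        Fin 2 → Polynomial ℂ) 1 ^ m 1) = Polynomial.C (P.coeff m * e ^ m 0) *
          Polynomial.X ^ m 1 := by
      simp only [Matrix.cons_val_zero, Matrix.cons_val_one, map_mul, map_pow]
      rw [mul_assoc]
      rfl
    rw [h3]
    exact (Polynomial.natDegree_C_mul_X_pow_le _ _).trans (monomial_le_degreeOf 1 hm)
  refine le_trans ?_ hdeg
  have hinj : Function.Injective (fun n : ℕ => 0 - (n : ℂ) * θ) := by
    intro n n' h
    have h2 : (n : ℂ) * θ = (n' : ℂ) * θ := by
      have h3 : 0 - (n : ℂ) * θ = 0 - (n' : ℂ) * θ := h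
      linear_combination -h3
    exact_mod_cast mul_right_cancel₀ hθ h2
  rw [← Finset.card_image_of_injective I hinj]
  refine (Finset.card_le_card ?_).trans ((Multiset.toFinset_card_le _).trans
    (Polynomial.card_roots' R))
  intro w hw
  rw [Finset.mem_image] at hw
  obtain ⟨n, hn, rfl⟩ := hw
  rw [Multiset.mem_toFinset, Polynomial.mem_roots hR0, Polynomial.IsRoot, hRe]
  exact hI n hn

end I_Mult

open I_Mult in
theorem Mult_pf (hBas : S_Bas) (hFin : S_FinO) (hNon : S_NonInv) (hBez : S_Bez) (hLow : S_Low) :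
    S_Mult := by
  classical
  intro τ μ θ₁ θ₂ hτ hμ hθ P hP hdeg I
  obtain ⟨⟨r, hr, hrr⟩, hx0, hy0, hw0, -⟩ := hBas τ μ hτ hμ
  -- analyticity
  have hball : ∀ᶠ s : ℂ in 𝓝 0, ‖s‖ < r := by
    have := Metric.ball_mem_nhds (0 : ℂ) hr
    filter_upwards [this] with s hs
    simpa using hs
  have han : ∀ (n : ℕ) (Q : MvPolynomial (Fin 2) ℂ), AnalyticAt ℂ (fg τ μ θ₁ θ₂ n Q) 0 := by
    intro n Q
    rw [Complex.analyticAt_iff_eventually_differentiableAt]
    filter_upwards [hball] with s hs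
    obtain ⟨-, h2, -, h4, -⟩ := hrr θ₁ s hs
    exact (hasDerivAt_eval Q (xg τ μ) (fun s => wg τ μ θ₁ s - n * θ₂) _ _ s h2
      (h4.sub_const _)).differentiableAt
  have hmul : ∀ (n : ℕ) (Q Q' : MvPolynomial (Fin 2) ℂ),
      og τ μ θ₁ θ₂ n (Q * Q') = og τ μ θ₁ θ₂ n Q + og τ μ θ₁ θ₂ n Q' := by
    intro n Q Q'
    unfold og
    rw [← analyticOrderAt_mul (han n Q) (han n Q')]
    congr 1
    funext s
    simp [fg]
  set o : ℕ → ℕ := fun n => (og τ μ θ₁ θ₂ n P).toNat with ho
  have hcoe : ∀ n, og τ μ θ₁ θ₂ n P = (o n : ℕ∞) := fun n =>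
    (ENat.natCast_toNat (hFin τ μ θ₁ θ₂ hτ hμ n P hP.ne_zero)).symm
  set J : Finset ℕ := I.filter (fun n => o n ≠ 0) with hJ
  obtain ⟨d, Λ, hΛ, hrank⟩ := hLow τ μ θ₁ θ₂ hτ hμ hθ J (fun n => o n - 1)
  have hu1 : ∀ u, Λ (P * u) = 0 := by
    intro u
    rw [hΛ]
    intro n _
    rw [hmul, hcoe]
    refine le_trans ?_ (self_le_add_right _ _)
    exact_mod_cast Nat.sub_le _ _
  have hNPo : ∀ n ∈ J, ((o n - 1 : ℕ) : ℕ∞) ≤ og τ μ θ₁ θ₂ n (NP τ μ θ₁ P) := by
    intro n hn
    have hn0 : o n ≠ 0 := (Finset.mem_filter.1 hn).2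
    have h1 : analyticOrderAt (fg τ μ θ₁ θ₂ n P) 0 = ((o n - 1 : ℕ) : ℕ∞) + 1 := by
      have := hcoe n
      unfold og at this
      rw [this]
      have h2 : o n = (o n - 1) + 1 := by omega
      conv_lhs => rw [h2]
      push_cast
      rfl
    have h2 := analyticOrderAt_deriv_of_pos (han n P) h1
    -- the other factor
    have hx : AnalyticAt ℂ (xg τ μ) 0 := by
      rw [Complex.analyticAt_iff_eventually_differentiableAt]
      filter_upwards [hball] with s hs
      exact (hrr θ₁ s hs).2.1.differentiableAt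
    have hy : AnalyticAt ℂ (yg τ μ) 0 := by
      rw [Complex.analyticAt_iff_eventually_differentiableAt]
      filter_upwards [hball] with s hs
      exact (hrr θ₁ s hs).2.2.1.differentiableAt
    set g : ℂ → ℂ := fun s => -(yg τ μ s * fg τ μ θ₁ θ₂ n (pderiv 0 P) s +
      (xg τ μ s + θ₁) * fg τ μ θ₁ θ₂ n (pderiv 1 P) s) with hg
    have hga : AnalyticAt ℂ g 0 :=
      ((hy.mul (han n _)).add ((hx.add analyticAt_const).mul (han n _))).neg
    have h3 : fg τ μ θ₁ θ₂ n (NP τ μ θ₁ P) =ᶠ[𝓝 0] deriv (fg τ μ θ₁ θ₂ n P) * g := by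
      filter_upwards [hball] with s hs
      obtain ⟨-, k2, -, k4, k5⟩ := hrr θ₁ s hs
      have k6 : deriv (fg τ μ θ₁ θ₂ n P) s =
          fg τ μ θ₁ θ₂ n (pderiv 0 P) s * yg τ μ s +
            fg τ μ θ₁ θ₂ n (pderiv 1 P) s * (-xg τ μ s - θ₁) :=
        (hasDerivAt_eval P (xg τ μ) (fun s => wg τ μ θ₁ s - n * θ₂) _ _ s k2
          (k4.sub_const _)).deriv
      rw [Pi.mul_apply, k6, hg]
      simp only [fg, NP, map_sub, map_mul, map_pow, map_add, eval_X, eval_C, Matrix.cons_val_zero,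
        map_ofNat]
      linear_combination (eval ![xg τ μ s, wg τ μ θ₁ s - ↑n * θ₂] (pderiv 0 P)) ^ 2 * k5
    unfold og
    rw [analyticOrderAt_congr h3, analyticOrderAt_mul (han n P).deriv hga, h2]
    exact self_le_add_right _ _
  have hu2 : ∀ u, Λ (NP τ μ θ₁ P * u) = 0 := by
    intro u
    rw [hΛ]
    intro n hn
    rw [hmul]
    exact (hNPo n hn).trans (self_le_add_right _ _)
  obtain ⟨dg0, dg1⟩ := deg_NP τ μ θ₁ P
  have hbez := hBez P (NP τ μ θ₁ P) (2 * P.degreeOf 0 + 2) (2 * P.degreeOf 1) hP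
    (hNon τ μ θ₁ hτ hμ P hP hdeg) dg0 dg1 d Λ hu1 hu2
  have hcard : J.card ≤ P.degreeOf 1 := by
    refine fibre P hP hdeg (EB.xe τ μ (1 / 2)) θ₂ hθ J fun n hn => ?_
    have hn0 : o n ≠ 0 := (Finset.mem_filter.1 hn).2
    have h1 : fg τ μ θ₁ θ₂ n P 0 = 0 := by
      by_contra hne
      apply hn0
      have h2 : og τ μ θ₁ θ₂ n P = 0 := (han n P).analyticOrderAt_eq_zero.2 hne
      rw [ho]
      beta_reduce
      rw [h2]
      rfl
    unfold fg at h1
    rw [hx0, hw0] at h1
    exact h1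
  have hsum : ∑ n ∈ I, o n = ∑ n ∈ J, (o n - 1) + J.card := by
    have h1 : ∑ n ∈ I, o n = ∑ n ∈ J, o n := by
      rw [hJ, Finset.sum_filter_ne_zero]
    rw [h1, Finset.card_eq_sum_ones, ← Finset.sum_add_distrib]
    refine Finset.sum_congr rfl fun n hn => ?_
    have hn0 : o n ≠ 0 := (Finset.mem_filter.1 hn).2
    omega
  change ∑ n ∈ I, o n ≤ _
  rw [hsum]
  have h1 : ∑ n ∈ J, (o n - 1) ≤
      2 * (P.degreeOf 0 * (2 * P.degreeOf 1) + P.degreeOf 1 * (2 * P.degreeOf 0 + 2)) :=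
    hrank.trans (Nat.mul_le_mul_left 2 hbez)
  nlinarith [h1, hcard]

end Pool.Agent.Work.MP_8da9ea_nt.CH
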