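import Pool.Agent.Work.MP_8da9ea_nt.CH.Stmts
import Pool.Agent.Work.MP_8da9ea_nt.EB.I_Branch
import Pool.Agent.Work.MP_8da9ea_nt.EB.I_Surj

/-!
# Chudnovsky block, item NonInv: no invariant irreducible curves
-/

set_option autoImplicit false

namespace Pool.Agent.Work.MP_8da9ea_nt.CH

open MvPolynomial Filter Topology Pool.Agent.Work.MP_8da9ea_nt Pool.Agent.Work.MP_8da9ea_nt.EB

namespace I_NonInv

/-! ### algebra -/

lemma degreeOf_pderiv_lt {n : ℕ} (i : Fin n) (f : MvPolynomial (Fin n) ℂ) (hf : f.degreeOf i ≠ 0) :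
    (pderiv i f).degreeOf i < f.degreeOf i := by
  classical
  rw [degreeOf_lt_iff (Nat.pos_of_ne_zero hf)]
  intro s hs
  rw [mem_support_iff, coeff_pderiv] at hs
  have h1 : coeff (s + Finsupp.single i 1) f ≠ 0 := fun h => hs (by rw [h, zero_mul])
  have h2 := monomial_le_degreeOf i (mem_support_iff.2 h1)
  rw [Finsupp.add_apply, Finsupp.single_eq_same] at h2
  omega

lemma pderiv_ne_zero {n : ℕ} (i : Fin n) (f : MvPolynomial (Fin n) ℂ) (hf : f.degreeOf i ≠ 0) :
    pderiv i f ≠ 0 := by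
  classical
  intro h0
  apply hf
  rw [← Nat.le_zero, degreeOf_le_iff]
  intro s hs
  rw [Nat.le_zero]
  by_contra hne
  have hs0 : s i ≠ 0 := hne
  have h1 := coeff_pderiv (i := i) f (s - Finsupp.single i 1)
  have h2 : s - Finsupp.single i 1 + Finsupp.single i 1 = s := by
    refine tsub_add_cancel_of_le ?_
    rw [Finsupp.single_le_iff]
    omega
  rw [h0, coeff_zero, h2] at h1
  rcases mul_eq_zero.1 h1.symm with h3 | h3
  · exact (mem_support_iff.1 hs) h3
  · norm_cast at h3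

lemma not_dvd_pderiv {n : ℕ} (i : Fin n) (f : MvPolynomial (Fin n) ℂ) (hf : f.degreeOf i ≠ 0) :
    ¬ f ∣ pderiv i f := by
  rintro ⟨g, hg⟩
  have h0 := pderiv_ne_zero i f hf
  have hf0 : f ≠ 0 := by
    rintro rfl
    simp at hf
  have hg0 : g ≠ 0 := by
    rintro rfl
    exact h0 (by rw [hg, mul_zero])
  have h1 := degreeOf_pderiv_lt i f hf
  rw [hg, degreeOf_mul_eq hf0 hg0] at h1
  omega

/-! ### analysis -/

lemma hasDerivAt_eval2 (g h : ℂ → ℂ) (g' h' t : ℂ) (hg : HasDerivAt g g' t)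
    (hh : HasDerivAt h h' t) (f : MvPolynomial (Fin 2) ℂ) :
    HasDerivAt (fun s => eval ![g s, h s] f)
      (eval ![g t, h t] (pderiv 0 f) * g' + eval ![g t, h t] (pderiv 1 f) * h') t := by
  induction f using MvPolynomial.induction_on with
  | C a =>
    simp only [eval_C, pderiv_C, map_zero, zero_mul, add_zero]
    exact hasDerivAt_const t a
  | add p q hp hq =>
    simp only [map_add]
    refine (hp.add hq).congr_deriv ?_
    ring
  | mul_X p i hp =>
    fin_cases i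
    · have e0 : pderiv (1 : Fin 2) (X (0 : Fin 2) : MvPolynomial (Fin 2) ℂ) = 0 :=
        pderiv_X_of_ne (by decide)
      simp only [Fin.zero_eta, map_mul, eval_X, pderiv_mul, map_add, pderiv_X_self, e0, map_one,
        mul_one, map_zero, mul_zero, add_zero, Matrix.cons_val_zero]
      refine (hp.mul hg).congr_deriv ?_
      ring
    · have e0 : pderiv (0 : Fin 2) (X (1 : Fin 2) : MvPolynomial (Fin 2) ℂ) = 0 :=
        pderiv_X_of_ne (by decide)
      simp only [Fin.mk_one, map_mul, eval_X, pderiv_mul, map_add, pderiv_X_self, e0, map_one,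
        mul_one, map_zero, mul_zero, add_zero, Matrix.cons_val_one, Matrix.cons_val_fin_one]
      refine (hp.mul hh).congr_deriv ?_
      ring

lemma analyticAt_eval2 (g h : ℂ → ℂ) (t : ℂ) (hg : AnalyticAt ℂ g t)
    (hh : AnalyticAt ℂ h t) (f : MvPolynomial (Fin 2) ℂ) :
    AnalyticAt ℂ (fun s => eval ![g s, h s] f) t := by
  induction f using MvPolynomial.induction_on with
  | C a =>
    simp only [eval_C]
    exact analyticAt_const
  | add p q hp hq =>
    simp only [map_add]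
    exact hp.add hq
  | mul_X p i hp =>
    simp only [map_mul, eval_X]
    refine hp.mul ?_
    fin_cases i
    · exact hg
    · exact hh

/-- If a product of two analytic functions vanishes near a point, so does one of them. -/
lemma mul_eq_zero_near (F G : ℂ → ℂ) (z : ℂ) (hF : AnalyticAt ℂ F z) (hG : AnalyticAt ℂ G z)
    (h : ∀ᶠ s in 𝓝 z, F s * G s = 0) : (∀ᶠ s in 𝓝 z, F s = 0) ∨ (∀ᶠ s in 𝓝 z, G s = 0) := by
  rcases hF.eventually_eq_zero_or_eventually_ne_zero with h1 | h1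
  · exact Or.inl h1
  · right
    rw [← hG.frequently_zero_iff_eventually_zero]
    have h2 : ∀ᶠ s in 𝓝[≠] z, G s = 0 := by
      filter_upwards [h1, h.filter_mono nhdsWithin_le_nhds] with s hs1 hs2
      exact (mul_eq_zero.1 hs2).resolve_left hs1
    exact h2.frequently

/-- A function with zero derivative near a point is constant near it. -/
lemma const_near (F : ℂ → ℂ) (z : ℂ) (h : ∀ᶠ s in 𝓝 z, HasDerivAt F 0 s) :
    ∀ᶠ s in 𝓝 z, F s = F z := by
  obtain ⟨r, hr, hb⟩ := Metric.eventually_nhds_iff_ball.1 h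
  filter_upwards [Metric.ball_mem_nhds z hr] with s hs
  refine Metric.isOpen_ball.is_const_of_deriv_eq_zero (convex_ball z r).isPreconnected
    (fun x hx => (hb x hx).differentiableAt.differentiableWithinAt) (fun x hx => ?_) hs
    (Metric.mem_ball_self hr)
  exact (hb x hx).deriv

end I_NonInv

open I_NonInv

/-- No invariant curves. -/
theorem NonInv_pf (hI : S_Ind) : S_NonInv := by
  intro τ μ θ₁ hτ hμ P hP hdeg hdvd
  have hopen := Lam_compl_open hτ
  obtain ⟨p, hp, hp1⟩ := EB.I_Branch.exists_point P (pderiv 1 P) hP (not_dvd_pderiv 1 P hdeg)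
  obtain ⟨z₀, hz, hz0⟩ := EB.Surj_pf τ hτ (p 0 / μ ^ 2)
  have hx0 : xe τ μ z₀ = p 0 := by
    unfold xe
    rw [hz0]
    field_simp
  have hpp : (![xe τ μ z₀, p 1] : Fin 2 → ℂ) = p := by
    funext i
    fin_cases i
    · exact hx0
    · rfl
  have hxa : ∀ z ∉ Lam τ, AnalyticAt ℂ (xe τ μ) z := fun z hz' => by
    unfold xe
    exact analyticAt_const.mul (analyticOn_wp hτ z hz')
  have hxd : ∀ z ∉ Lam τ, HasDerivAt (xe τ μ) (μ ^ 2 * wpd τ z) z := fun z hz' => by
    unfold xe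
    exact (hasDerivAt_wp_z hτ hz').const_mul _
  -- the implicit function
  let Φ : ℂ × ℂ → ℂ := fun w => eval ![xe τ μ w.1, w.2] P
  have hΦ : AnalyticAt ℂ Φ (z₀, p 1) := by
    have h1 : Φ = fun w => eval (fun i => (![fun w : ℂ × ℂ => xe τ μ w.1, fun w => w.2] :
        Fin 2 → ℂ × ℂ → ℂ) i w) P := by
      funext w
      show eval ![xe τ μ w.1, w.2] P = _
      congr 2
      funext i
      fin_cases i <;> rfl
    rw [h1]
    refine EB.I_Branch.analyticAt_eval _ _ ?_ P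
    intro i
    fin_cases i
    · show AnalyticAt ℂ (fun w : ℂ × ℂ => xe τ μ w.1) (z₀, p 1)
      exact AnalyticAt.fun_comp (g := xe τ μ) (hxa z₀ hz) analyticAt_fst
    · show AnalyticAt ℂ (fun w : ℂ × ℂ => w.2) (z₀, p 1)
      exact analyticAt_snd
  have h0 : Φ (z₀, p 1) = 0 := by
    show eval ![xe τ μ z₀, p 1] P = 0
    rw [hpp, hp]
  have hd : HasDerivAt (fun t => Φ (z₀, t)) (eval p (pderiv 1 P)) (p 1) := by
    have h1 := hasDerivAt_eval2 (fun _ => xe τ μ z₀) (fun t => t) 0 1 (p 1)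
      (hasDerivAt_const _ _) (hasDerivAt_id _) P
    rw [mul_zero, zero_add, mul_one, hpp] at h1
    exact h1
  obtain ⟨φ, hφ, hφ0, hev⟩ := EB.I_Branch.implicit Φ z₀ (p 1) hΦ h0 _ hp1 hd
  have hev' : ∀ᶠ z in 𝓝 z₀, eval ![xe τ μ z, φ z] P = 0 := hev
  -- near `z₀`
  have e1 : ∀ᶠ z in 𝓝 z₀, AnalyticAt ℂ φ z := hφ.eventually_analyticAt
  have e2 : ∀ᶠ z in 𝓝 z₀, z ∉ Lam τ := hopen.mem_nhds hz
  have e3 : ∀ᶠ z in 𝓝 z₀, eval ![xe τ μ z, φ z] (pderiv 1 P) ≠ 0 := by
    have h1 := (analyticAt_eval2 (xe τ μ) φ z₀ (hxa z₀ hz) hφ (pderiv 1 P)).continuousAt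
    refine h1.eventually_ne ?_
    rw [hφ0, hpp]
    exact hp1
  have e4 : ∀ᶠ z in 𝓝 z₀, (μ * wp 1 τ z + θ₁ / μ - deriv φ z) *
      (μ * wp 1 τ z + θ₁ / μ + deriv φ z) = 0 := by
    filter_upwards [e1, e2, e3, eventually_eventually_nhds.2 hev'] with z h1 h2 h3 h4
    have h5 := hasDerivAt_eval2 (xe τ μ) φ _ _ z (hxd z h2) h1.differentiableAt.hasDerivAt P
    have h6 : HasDerivAt (fun s => eval ![xe τ μ s, φ s] P) 0 z :=
      (hasDerivAt_const z (0 : ℂ)).congr_of_eventuallyEq h4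
    have h7 := h5.unique h6
    obtain ⟨Q, hQ⟩ := hdvd
    have h8 : eval ![xe τ μ z, φ z] (NP τ μ θ₁ P) = 0 := by
      rw [hQ, map_mul, h4.self_of_nhds, zero_mul]
    unfold NP at h8
    simp only [map_sub, map_mul, map_pow, map_add, eval_X, eval_C, Matrix.cons_val_zero,
      map_ofNat] at h8
    have h9 := wpd_sq hτ h2
    set a := eval ![xe τ μ z, φ z] (pderiv 0 P) with ha
    set b := eval ![xe τ μ z, φ z] (pderiv 1 P) with hb
    have hb2 : b ^ 2 ≠ 0 := pow_ne_zero 2 h3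
    have hbμ : b ^ 2 * μ ^ 2 ≠ 0 := mul_ne_zero hb2 (pow_ne_zero 2 hμ)
    apply mul_left_cancel₀ hbμ
    rw [mul_zero]
    have h10 : b * deriv φ z = - (a * (μ ^ 2 * wpd τ z)) := by linear_combination h7
    have h11 : b ^ 2 * deriv φ z ^ 2 = a ^ 2 * (μ ^ 4 * wpd τ z ^ 2) := by
      have : b ^ 2 * deriv φ z ^ 2 = (b * deriv φ z) ^ 2 := by ring
      rw [this, h10]
      ring
    unfold xe at h8
    have h12 : b ^ 2 * μ ^ 2 * ((μ * wp 1 τ z + θ₁ / μ - deriv φ z) *
        (μ * wp 1 τ z + θ₁ / μ + deriv φ z)) =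
        (μ ^ 2 * wp 1 τ z + θ₁) ^ 2 * b ^ 2 - μ ^ 2 * (b ^ 2 * deriv φ z ^ 2) := by
      field_simp
      ring
    rw [h12, h11, h9]
    linear_combination h8
  -- one of the factors vanishes
  have ha1 : AnalyticAt ℂ (fun z => μ * wp 1 τ z + θ₁ / μ) z₀ :=
    (analyticAt_const.mul (analyticOn_wp hτ z₀ hz)).add analyticAt_const
  have ha2 : AnalyticAt ℂ (deriv φ) z₀ := hφ.deriv
  have hkey : ∃ ε : ℂ, ε ≠ 0 ∧ ∀ᶠ z in 𝓝 z₀, deriv φ z = - ε * (μ * wp 1 τ z + θ₁ / μ) := by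
    rcases mul_eq_zero_near _ _ z₀ (ha1.sub ha2) (ha1.add ha2) e4 with h | h
    · refine ⟨-1, by norm_num, ?_⟩
      filter_upwards [h] with z hz'
      have hz'' : μ * wp 1 τ z + θ₁ / μ - deriv φ z = 0 := hz'
      linear_combination - hz''
    · refine ⟨1, by norm_num, ?_⟩
      filter_upwards [h] with z hz'
      have hz'' : μ * wp 1 τ z + θ₁ / μ + deriv φ z = 0 := hz'
      linear_combination hz''
  obtain ⟨ε, hε, hd'⟩ := hkey
  have hc := const_near (fun z => φ z - ε * (μ * zt 1 τ z - θ₁ * z / μ)) z₀ (by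
    filter_upwards [e1, e2, hd'] with z h1 h2 h3
    have h4 : HasDerivAt (fun z : ℂ => θ₁ * z / μ) (θ₁ / μ) z := by
      have := ((hasDerivAt_id z).const_mul θ₁).div_const μ
      rw [mul_one] at this
      exact this
    have h5 := h1.differentiableAt.hasDerivAt.sub
      ((((hasDerivAt_zt_z hτ h2).const_mul μ).sub h4).const_mul ε)
    refine h5.congr_deriv ?_
    rw [h3]
    ring)
  refine hI τ μ θ₁ hτ hμ P ε (φ z₀ - ε * (μ * zt 1 τ z₀ - θ₁ * z₀ / μ)) z₀ hP.ne_zero hε hz ?_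
  filter_upwards [hc, hev'] with z h1 h2
  have h3 : ε * (μ * zt 1 τ z - θ₁ * z / μ) + (φ z₀ - ε * (μ * zt 1 τ z₀ - θ₁ * z₀ / μ)) = φ z := by
    have h1' : φ z - ε * (μ * zt 1 τ z - θ₁ * z / μ) =
      φ z₀ - ε * (μ * zt 1 τ z₀ - θ₁ * z₀ / μ) := h1
    linear_combination - h1'
  rw [h3]
  exact h2

end Pool.Agent.Work.MP_8da9ea_nt.CH
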