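import Pool.Agent.Work.MP_8da9ea_nt.CH.Stmts
import Pool.Agent.Work.MP_327059_nt.Bd.B03

/-!
# G1: multiplication in a finite extension of `ℚ(ξ)`
-/

set_option autoImplicit false

namespace Pool.Agent.Work.MP_8da9ea_nt.CH

open MvPolynomial Pool.Agent.Work.MP_327059_nt.GL

namespace I_Rep

open Pool.Agent.Work.MP_327059_nt

/-- all coordinates are algebraic over one of them -/
theorem base {σ : Type} [Nonempty σ] (θ : σ → ℂ) (h : TrLe 1 θ) :
    ∃ i₀, ∀ i, AA.Alg (θ i₀) (θ i) := by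
  classical
  by_cases hA : ∃ i₀, Transcendental ℚ (θ i₀)
  · obtain ⟨i₀, hi₀⟩ := hA
    refine ⟨i₀, fun i => ?_⟩
    have hf : AlgebraicIndependent ℚ (fun _ : Fin 1 => θ i₀) := by
      rw [algebraicIndependent_unique_type_iff]
      exact hi₀
    by_contra hne
    have hr : Set.range (fun _ : Fin 1 => θ i₀) = {θ i₀} := Set.range_const
    have h7 := (hf.option_iff_transcendental (θ i)).2 (by
      rw [hr]
      intro hal
      exact hne (IntermediateField.isAlgebraic_adjoin_iff.2 hal))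
    have h8 := h7.comp (finSuccEquiv 1) (finSuccEquiv 1).injective
    refine h ![i, i₀] ?_
    convert h8 using 1
    funext t
    refine Fin.cases ?_ (fun t => ?_) t
    · rw [Function.comp_apply, finSuccEquiv_zero]
      rfl
    · rw [Function.comp_apply, finSuccEquiv_succ]
      have ht : t = 0 := Subsingleton.elim _ _
      subst ht
      rfl
  · obtain ⟨i₀⟩ := ‹Nonempty σ›
    refine ⟨i₀, fun i => ?_⟩
    have h1 : IsAlgebraic ℚ (θ i) := by
      by_contra h2
      exact hA ⟨i, h2⟩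
    exact h1.tower_top _

theorem isVal_pow {r : ℕ} {x : Fin r → ℂ} {ξ : ℂ} (h : AA.IsVal x 1 1 ξ) (n : ℕ) :
    AA.IsVal x n 1 (ξ ^ n) := by
  induction n with
  | zero =>
    have h1 := AA.IsVal.int (x := x) 1
    simpa using h1
  | succ n ih =>
    have h1 := ih.mul h
    rw [one_mul] at h1
    rw [pow_succ]
    exact h1

theorem isVal_prod {r : ℕ} {x : Fin r → ℂ} {σ : Type} (s : Finset σ) (ξ : σ → ℂ) (d : σ → ℕ)
    (h : ∀ i, AA.IsVal x 1 1 (ξ i)) : AA.IsVal x (∑ i ∈ s, d i) 1 (∏ i ∈ s, ξ i ^ d i) := by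
  classical
  induction s using Finset.induction_on with
  | empty =>
    have h1 := AA.IsVal.int (x := x) 1
    simpa using h1
  | insert a s ha ih =>
    rw [Finset.sum_insert ha, Finset.prod_insert ha]
    have h1 := (isVal_pow (h a) (d a)).mul ih
    rwa [one_mul] at h1

theorem isVal_sum {r : ℕ} {x : Fin r → ℂ} {κ : Type} (s : Finset κ) (D : ℕ) (f : κ → ℂ) (H : κ → ℝ)
    (h : ∀ i ∈ s, AA.IsVal x D (H i) (f i)) : AA.IsVal x D (∑ i ∈ s, H i) (∑ i ∈ s, f i) := by
  classical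
  induction s using Finset.induction_on with
  | empty =>
    have h1 := (AA.IsVal.int (x := x) 0).mono (Nat.zero_le D) le_rfl
    simpa using h1
  | insert a s ha ih =>
    rw [Finset.sum_insert ha, Finset.sum_insert ha]
    exact (h a (Finset.mem_insert_self _ _)).add
      (ih fun i hi => h i (Finset.mem_insert_of_mem hi))

theorem isVal_aeval {σ : Type} [Fintype σ] (θ : σ → ℂ) {r : ℕ} (e : σ ≃ Fin r)
    (A : MvPolynomial σ ℤ) (X : ℕ) (hX : A.totalDegree ≤ X) :
    AA.IsVal (fun i => θ (e.symm i)) X (len A) (aeval θ A) := by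
  classical
  have h1 : aeval θ A = ∑ m ∈ A.support, ((A.coeff m : ℤ) : ℂ) * ∏ i, θ i ^ m i := by
    rw [aeval_def, eval₂_eq']
    refine Finset.sum_congr rfl fun m _ => ?_
    rw [eq_intCast]
  rw [h1]
  unfold len
  refine isVal_sum _ _ _ _ fun m hm => ?_
  have h2 : AA.IsVal (fun i => θ (e.symm i)) (∑ i, m i) 1 (∏ i, θ i ^ m i) := by
    refine isVal_prod Finset.univ θ (fun i => m i) fun i => ?_
    have h3 := AA.IsVal.var (x := fun i => θ (e.symm i)) (e i)
    simpa using h3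
  have h4 := (AA.IsVal.int (x := fun i => θ (e.symm i)) (A.coeff m)).mul h2
  rw [zero_add, mul_one] at h4
  refine h4.mono ?_ le_rfl
  refine le_trans ?_ hX
  have h5 := le_totalDegree hm
  rw [Finsupp.sum_fintype _ _ (fun _ => rfl)] at h5
  exact h5

theorem abs_coeff_le (P : Polynomial ℤ) (k : ℕ) : |((P.coeff k : ℤ) : ℝ)| ≤ AA.len P := by
  unfold AA.len
  by_cases hk : k ∈ P.support
  · exact Finset.single_le_sum (f := fun i => |(P.coeff i : ℝ)|) (fun _ _ => abs_nonneg _) hk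
  · rw [Polynomial.notMem_support_iff.1 hk]
    simp only [Int.cast_zero, abs_zero]
    exact Finset.sum_nonneg fun _ _ => abs_nonneg _

end I_Rep

open I_Rep Pool.Agent.Work.MP_327059_nt AA in
theorem Rep_pf : S_Rep := by
  classical
  intro σ _ _ θ hθ
  obtain ⟨i₀, hi₀⟩ := base θ hθ
  let e := Fintype.equivFin σ
  obtain ⟨g, v, K, _, ι, N, hg, hv, hι, hN, hmul⟩ := NL_setup (θ i₀) (fun i => θ (e.symm i))
    (fun i => hi₀ _)
  choose y hy using hι
  obtain ⟨q, hq, hA⟩ := NL_common (θ i₀)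
    (fun t : Fin (Fintype.card σ) × Fin g × Fin g => N (y t.1) t.2.1 t.2.2) (fun t => hN _ _ _)
  choose A hA using hA
  obtain ⟨a, ha1, ha2⟩ : ∃ a : ℕ, q.natDegree ≤ a ∧ ∀ t, (A t).natDegree ≤ a := by
    refine ⟨q.natDegree + ∑ t, (A t).natDegree, by omega, fun t => ?_⟩
    have := Finset.single_le_sum (f := fun t => (A t).natDegree) (fun _ _ => Nat.zero_le _)
      (Finset.mem_univ t)
    omega
  obtain ⟨c, hc1, hc2, hc3⟩ : ∃ c : ℝ, 1 ≤ c ∧ AA.len q ≤ c ∧
      ∀ i j, ∑ k, AA.len (A (i, j, k)) ≤ c := by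
    have h0 : 0 ≤ ∑ i, ∑ j, ∑ k, AA.len (A (i, j, k)) :=
      Finset.sum_nonneg fun _ _ => Finset.sum_nonneg fun _ _ => Finset.sum_nonneg fun _ _ =>
        NL_len_nonneg _
    have h1 := NL_len_nonneg q
    refine ⟨1 + AA.len q + ∑ i, ∑ j, ∑ k, AA.len (A (i, j, k)), by linarith, by linarith, ?_⟩
    intro i j
    have h2 : ∑ k, AA.len (A (i, j, k)) ≤ ∑ j, ∑ k, AA.len (A (i, j, k)) :=
      Finset.single_le_sum (f := fun j => ∑ k, AA.len (A (i, j, k)))
        (fun _ _ => Finset.sum_nonneg fun _ _ => NL_len_nonneg _) (Finset.mem_univ j)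
    have h3 : ∑ j, ∑ k, AA.len (A (i, j, k)) ≤ ∑ i, ∑ j, ∑ k, AA.len (A (i, j, k)) :=
      Finset.single_le_sum (f := fun i => ∑ j, ∑ k, AA.len (A (i, j, k)))
        (fun _ _ => Finset.sum_nonneg fun _ _ => Finset.sum_nonneg fun _ _ => NL_len_nonneg _)
        (Finset.mem_univ i)
    linarith
  have hc0 : 0 ≤ c := by linarith
  let j₀ : Fin g := ⟨0, hg⟩
  set C : ℕ := a + 1 + ⌈c⌉₊ with hC
  refine ⟨i₀, g, C, v, q, v j₀, hv j₀, by omega, hq, fun X hX P hP1 hP2 => ?_⟩
  have hval := isVal_aeval θ e P X hP1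
  obtain ⟨hH, z, hz, B, hB1, hB2, hB3⟩ := NL_claim (θ i₀) (fun i => θ (e.symm i)) K ι N q a c hc1
    hc2 ha1 (fun i => ⟨y i, hy i, fun j k => A (i, j, k), fun j k => hA (i, j, k),
      fun j k => ha2 _, fun j => hc3 i j⟩) hval
  refine ⟨fun l => B l j₀, fun l => ⟨?_, fun k => ?_⟩, ?_⟩
  · refine (hB2 l j₀).trans ?_
    exact Nat.mul_le_mul_right _ (by omega)
  · refine (abs_coeff_le _ _).trans ?_
    have h1 : AA.len (B l j₀) ≤ ∑ k, AA.len (B l k) :=
      Finset.single_le_sum (f := fun k => AA.len (B l k)) (fun _ _ => NL_len_nonneg _)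
        (Finset.mem_univ _)
    refine (h1.trans (hB3 l)).trans ?_
    have h2 : c ^ X ≤ Real.exp (c * X) := by
      have h3 : c ≤ Real.exp c := by
        have := Real.add_one_le_exp c
        linarith
      calc c ^ X ≤ (Real.exp c) ^ X := pow_le_pow_left₀ hc0 h3 _
        _ = Real.exp (c * X) := by rw [← Real.exp_nat_mul, mul_comm]
    calc GL.len P * c ^ X ≤ Real.exp X * Real.exp (c * X) :=
          mul_le_mul hP2 h2 (pow_nonneg hc0 _) (Real.exp_pos _).le
      _ = Real.exp ((1 + c) * X) := by rw [← Real.exp_add]; ring_nf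
      _ ≤ Real.exp ((C * X : ℕ) : ℝ) := by
          apply Real.exp_le_exp.2
          rw [Nat.cast_mul]
          apply mul_le_mul_of_nonneg_right _ (Nat.cast_nonneg X)
          rw [hC]
          push_cast
          have := Nat.le_ceil c
          have h5 : (0 : ℝ) ≤ a := Nat.cast_nonneg a
          linarith
  · have h1 := hmul z j₀
    rw [hz] at h1
    rw [mul_assoc, ← h1, Finset.mul_sum]
    refine Finset.sum_congr rfl fun l _ => ?_
    rw [← hB1 l j₀]
    ring

end Pool.Agent.Work.MP_8da9ea_nt.CH
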