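import Pool.Agent.Work.MP_8da9ea_nt.CH.Stmts

/-!
# Chudnovsky block: item `Schw` (T3), Schwarz lemma with zeros of order `T` at a finite set of points
-/

set_option autoImplicit false

namespace Pool.Agent.Work.MP_8da9ea_nt.CH

open Filter Topology

namespace I_Schw

lemma div1 {G : ℂ → ℂ} (hG : Differentiable ℂ G) {ζ : ℂ} (h0 : G ζ = 0) :
    ∃ g : ℂ → ℂ, Differentiable ℂ g ∧ ∀ z, G z = (z - ζ) * g z := by
  refine ⟨dslope G ζ, ?_, fun z => ?_⟩
  · rw [← differentiableOn_univ]
    exact (Complex.differentiableOn_dslope univ_mem).mpr hG.differentiableOn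
  · have := sub_smul_dslope G ζ z
    rw [h0, sub_zero, smul_eq_mul] at this
    exact this.symm

lemma analyticAt_of {G : ℂ → ℂ} (hG : Differentiable ℂ G) (ζ : ℂ) : AnalyticAt ℂ G ζ :=
  hG.analyticAt ζ

lemma divT (ζ : ℂ) : ∀ (T : ℕ) (G : ℂ → ℂ), Differentiable ℂ G →
    (T : ℕ∞) ≤ analyticOrderAt G ζ →
      ∃ g : ℂ → ℂ, Differentiable ℂ g ∧ ∀ z, G z = (z - ζ) ^ T * g z := by
  intro T
  induction T with
  | zero =>
    intro G hG _
    exact ⟨G, hG, fun z => by rw [pow_zero, one_mul]⟩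
  | succ T ih =>
    intro G hG hT
    have h0 : G ζ = 0 := by
      have h1 : analyticOrderAt G ζ ≠ 0 := by
        intro h
        rw [h] at hT
        simp at hT
      exact (analyticOrderAt_ne_zero.mp h1).2
    obtain ⟨g₁, hg₁, he⟩ := div1 hG h0
    have ho : analyticOrderAt G ζ = analyticOrderAt (fun z => z - ζ) ζ + analyticOrderAt g₁ ζ := by
      have : G = (fun z => z - ζ) * g₁ := by
        funext z
        exact he z
      rw [this]
      exact analyticOrderAt_mul (by fun_prop) (analyticAt_of hg₁ ζ)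
    have h1 : analyticOrderAt (fun z : ℂ => z - ζ) ζ = 1 := by
      simp
    rw [ho, h1] at hT
    have hT' : (T : ℕ∞) ≤ analyticOrderAt g₁ ζ := by
      push_cast at hT
      rw [add_comm (1 : ℕ∞)] at hT
      exact (ENat.add_le_add_iff_right (by simp)).mp hT
    obtain ⟨g, hg, he'⟩ := ih g₁ hg₁ hT'
    refine ⟨g, hg, fun z => ?_⟩
    rw [he z, he' z, pow_succ]
    ring

lemma divZ (T : ℕ) (Z : Finset ℂ) : ∀ (G : ℂ → ℂ), Differentiable ℂ G →
    (∀ ζ ∈ Z, (T : ℕ∞) ≤ analyticOrderAt G ζ) →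
      ∃ g : ℂ → ℂ, Differentiable ℂ g ∧ ∀ z, G z = (∏ ζ ∈ Z, (z - ζ) ^ T) * g z := by
  classical
  induction Z using Finset.induction_on with
  | empty =>
    intro G hG _
    exact ⟨G, hG, fun z => by rw [Finset.prod_empty, one_mul]⟩
  | insert ζ Z hζ ih =>
    intro G hG hT
    obtain ⟨g₁, hg₁, he⟩ := divT ζ T G hG (hT ζ (Finset.mem_insert_self _ _))
    have h2 : ∀ ζ' ∈ Z, (T : ℕ∞) ≤ analyticOrderAt g₁ ζ' := by
      intro ζ' hζ'
      have hne : ζ' ≠ ζ := by
        rintro rfl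
        exact hζ hζ'
      have ho : analyticOrderAt G ζ' =
          analyticOrderAt (fun z => (z - ζ) ^ T) ζ' + analyticOrderAt g₁ ζ' := by
        have : G = (fun z => (z - ζ) ^ T) * g₁ := by
          funext z
          exact he z
        rw [this]
        exact analyticOrderAt_mul (by fun_prop) (analyticAt_of hg₁ ζ')
      have h1 : analyticOrderAt (fun z : ℂ => (z - ζ) ^ T) ζ' = 0 := by
        rw [analyticOrderAt_eq_zero]
        right
        exact pow_ne_zero _ (sub_ne_zero.mpr hne)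
      have h3 := hT ζ' (Finset.mem_insert_of_mem hζ')
      rw [ho, h1, zero_add] at h3
      exact h3
    obtain ⟨g, hg, he'⟩ := ih g₁ hg₁ h2
    refine ⟨g, hg, fun z => ?_⟩
    rw [he z, he' z, Finset.prod_insert hζ]
    ring

end I_Schw

open I_Schw in
/-- T3: Schwarz lemma -/
theorem Schw_pf : S_Schw := by
  intro G R M T Z hG hR hZ hM z hz
  obtain ⟨g, hg, he⟩ := divZ T Z G hG fun ζ hζ => (hZ ζ hζ).2
  set N : ℕ := T * Z.card with hN
  have h4R : 0 < (4 * R) ^ N := by positivity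
  -- the bound on the sphere
  have hsph : ∀ u ∈ frontier (Metric.ball (0 : ℂ) (5 * R)), ‖g u‖ ≤ M / (4 * R) ^ N := by
    intro u hu
    rw [frontier_ball _ (by positivity), mem_sphere_zero_iff_norm] at hu
    have h1 : (4 * R) ^ N ≤ ‖∏ ζ ∈ Z, (u - ζ) ^ T‖ := by
      rw [norm_prod, hN, pow_mul, ← Finset.prod_const]
      refine Finset.prod_le_prod (fun _ _ => by positivity) fun ζ hζ => ?_
      rw [norm_pow]
      refine pow_le_pow_left₀ (by positivity) ?_ T
      have h2 := norm_sub_norm_le u ζ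
      have h3 := (hZ ζ hζ).1
      linarith
    have h2 := hM u (by rw [hu])
    rw [he u, norm_mul] at h2
    rw [le_div_iff₀ h4R, mul_comm]
    exact (mul_le_mul_of_nonneg_right h1 (norm_nonneg _)).trans h2
  have hgz : ‖g z‖ ≤ M / (4 * R) ^ N := by
    refine Complex.norm_le_of_forall_mem_frontier_norm_le Metric.isBounded_ball
      hg.diffContOnCl hsph ?_
    rw [closure_ball _ (by positivity), mem_closedBall_zero_iff]
    linarith
  have h1 : ‖∏ ζ ∈ Z, (z - ζ) ^ T‖ ≤ (2 * R) ^ N := by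
    rw [norm_prod, hN, pow_mul, ← Finset.prod_const]
    refine Finset.prod_le_prod (fun _ _ => norm_nonneg _) fun ζ hζ => ?_
    rw [norm_pow]
    refine pow_le_pow_left₀ (norm_nonneg _) ?_ T
    have h2 := norm_sub_le z ζ
    have h3 := (hZ ζ hζ).1
    linarith
  rw [he z, norm_mul]
  calc ‖∏ ζ ∈ Z, (z - ζ) ^ T‖ * ‖g z‖ ≤ (2 * R) ^ N * (M / (4 * R) ^ N) :=
        mul_le_mul h1 hgz (norm_nonneg _) (by positivity)
    _ = M * (1 / 2) ^ N := by
        have e : (4 * R) ^ N = (2 * R) ^ N * 2 ^ N := by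
          rw [← mul_pow]
          ring_nf
        have h2 : (2 * R) ^ N ≠ 0 := by positivity
        rw [e, one_div, inv_pow]
        field_simp

end Pool.Agent.Work.MP_8da9ea_nt.CH
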