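import Pool.Agent.Work.MP_8da9ea_nt.CH.Stmts

/-!
# Exact Siegel lemma in transcendence degree one (item SiegT)
-/

set_option autoImplicit false

namespace Pool.Agent.Work.MP_8da9ea_nt.CH

open MvPolynomial Filter Topology Pool.Agent.Work.MP_327059_nt.GL Pool.Agent.Work.MP_8da9ea_nt.S
  Pool.Agent.Work.MP_8da9ea_nt.EB

namespace I_SiegT

theorem bd (C C' X : ℕ) : (((C * X : ℕ) : ℝ) + 1) * 2 ^ (C * X) * Real.exp ((C' * X : ℕ) : ℝ) ≤
    Real.exp (((2 * C + C') * X : ℕ) : ℝ) := by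
  have h1 : (((C * X : ℕ) : ℝ) + 1) ≤ Real.exp ((C * X : ℕ) : ℝ) := Real.add_one_le_exp _
  have h2 : (2 : ℝ) ^ (C * X) ≤ Real.exp ((C * X : ℕ) : ℝ) := by
    have h3 : (2 : ℝ) ≤ Real.exp 1 := by
      have := Real.add_one_le_exp (1 : ℝ)
      linarith
    calc (2 : ℝ) ^ (C * X) ≤ (Real.exp 1) ^ (C * X) := pow_le_pow_left₀ (by norm_num) h3 _
      _ = Real.exp ((C * X : ℕ) : ℝ) := by
        rw [← Real.exp_nat_mul]
        simp
  have h4 : Real.exp (((2 * C + C') * X : ℕ) : ℝ) =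
      Real.exp ((C * X : ℕ) : ℝ) * Real.exp ((C * X : ℕ) : ℝ) * Real.exp ((C' * X : ℕ) : ℝ) := by
    rw [← Real.exp_add, ← Real.exp_add]
    congr 1
    push_cast
    ring
  rw [h4]
  have h5 : (0 : ℝ) ≤ Real.exp ((C' * X : ℕ) : ℝ) := (Real.exp_pos _).le
  refine mul_le_mul_of_nonneg_right ?_ h5
  exact mul_le_mul h1 h2 (by positivity) (Real.exp_pos _).le

end I_SiegT

open I_SiegT in
/-- **G4**: the exact Siegel lemma. -/
theorem SiegT_pf (h1 : S_Rep) (h2 : S_SiegX) (h3 : S_Gcd) : S_SiegT := by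
  intro σ _ _ θ hθ
  obtain ⟨i₀, d, C, w, a, w₀, hw₀, hC, ha, hrep⟩ := h1 σ θ hθ
  obtain ⟨C', hC', hS⟩ := h2 C hC
  refine ⟨i₀, 2 * C + C' + C' * d, by omega, ?_⟩
  intro M N X hX hN hMN hNX A hA
  have hc : ∀ (j : Fin M) (i : Fin N), ∃ c : Fin d → Polynomial ℤ,
      (∀ l, (c l).natDegree ≤ C * X ∧
        ∀ k, |(((c l).coeff k : ℤ) : ℝ)| ≤ Real.exp ((C * X : ℕ) : ℝ)) ∧
      Polynomial.aeval (θ i₀) a ^ X * aeval θ (A j i) * w₀ =
        ∑ l, Polynomial.aeval (θ i₀) (c l) * w l := fun j i =>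
    hrep X hX (A j i) (hA j i).1 (hA j i).2
  choose c hcb hce using hc
  have hle : C' * (M * d) ≤ N := by
    calc C' * (M * d) = C' * d * M := by ring
      _ ≤ (2 * C + C' + C' * d) * M := Nat.mul_le_mul_right _ (by omega)
      _ ≤ N := hMN
  obtain ⟨p, hp0, hpb, hpe⟩ := hS (M * d) N X hX hN hle hNX
    (fun k i => c (finProdFinEquiv.symm k).1 i (finProdFinEquiv.symm k).2)
    (fun k i => hcb _ _ _)
  obtain ⟨g, q, hg, hpq, hqb, hqz⟩ := h3 N (C * X) (Real.exp ((C' * X : ℕ) : ℝ)) p hp0 hpb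
  have hqe : ∀ (j : Fin M) (l : Fin d), ∑ i, q i * c j i l = 0 := by
    intro j l
    have h4 := hpe (finProdFinEquiv (j, l))
    simp only [Equiv.symm_apply_apply] at h4
    have h5 : g * ∑ i, q i * c j i l = 0 := by
      rw [Finset.mul_sum, ← h4]
      refine Finset.sum_congr rfl fun i _ => ?_
      rw [hpq i]
      ring
    exact (mul_eq_zero.mp h5).resolve_left hg
  refine ⟨q, fun i => ⟨(hqb i).1.trans (Nat.mul_le_mul_right _ (by omega)), fun k => ?_⟩, hqz, ?_⟩
  · refine ((hqb i).2 k).trans ((bd C C' X).trans ?_)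
    refine Real.exp_le_exp.mpr ?_
    exact_mod_cast Nat.mul_le_mul_right X (by omega : 2 * C + C' ≤ 2 * C + C' + C' * d)
  · intro j
    have h6 : Polynomial.aeval (θ i₀) a ^ X *
        (∑ i, Polynomial.aeval (θ i₀) (q i) * aeval θ (A j i)) * w₀ = 0 := by
      calc Polynomial.aeval (θ i₀) a ^ X *
          (∑ i, Polynomial.aeval (θ i₀) (q i) * aeval θ (A j i)) * w₀
          = ∑ i, Polynomial.aeval (θ i₀) (q i) *
              (Polynomial.aeval (θ i₀) a ^ X * aeval θ (A j i) * w₀) := by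
            rw [Finset.mul_sum, Finset.sum_mul]
            exact Finset.sum_congr rfl fun i _ => by ring
        _ = ∑ i, ∑ l, Polynomial.aeval (θ i₀) (q i) *
              (Polynomial.aeval (θ i₀) (c j i l) * w l) := by
            refine Finset.sum_congr rfl fun i _ => ?_
            rw [hce j i, Finset.mul_sum]
        _ = ∑ l, (Polynomial.aeval (θ i₀) (∑ i, q i * c j i l)) * w l := by
            rw [Finset.sum_comm]
            refine Finset.sum_congr rfl fun l _ => ?_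
            rw [map_sum, Finset.sum_mul]
            refine Finset.sum_congr rfl fun i _ => ?_
            rw [map_mul]
            ring
        _ = 0 := by
            refine Finset.sum_eq_zero fun l _ => ?_
            rw [hqe j l, map_zero, zero_mul]
    have h7 := (mul_eq_zero.mp h6).resolve_right hw₀
    exact (mul_eq_zero.mp h7).resolve_left (pow_ne_zero _ ha)

end Pool.Agent.Work.MP_8da9ea_nt.CH
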