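import Pool.Agent.Work.MP_8da9ea_nt.CH.Stmts
import Mathlib.NumberTheory.SiegelsLemma

/-!
# Siegel's lemma over the polynomials with integral coefficients (item SiegX)
-/

set_option autoImplicit false

namespace Pool.Agent.Work.MP_8da9ea_nt.CH

open MvPolynomial Filter Topology Pool.Agent.Work.MP_327059_nt.GL Pool.Agent.Work.MP_8da9ea_nt.S
  Pool.Agent.Work.MP_8da9ea_nt.EB

namespace I_SiegX

section

attribute [local instance] Matrix.seminormedAddCommGroup

/-- Siegel's lemma, the exponent is at most `1` -/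
theorem siegel {α β : Type} [Fintype α] [Fintype β] (A : Matrix α β ℤ) (B : ℝ) (hB : 1 ≤ B)
    (hA : ∀ i j, |(A i j : ℝ)| ≤ B) (hm : 0 < Fintype.card α)
    (hn : 2 * Fintype.card α ≤ Fintype.card β) :
    ∃ t : β → ℤ, t ≠ 0 ∧ A.mulVec t = 0 ∧ ∀ j, |(t j : ℝ)| ≤ Fintype.card β * B := by
  classical
  obtain ⟨t, ht0, ht1, ht2⟩ := Int.Matrix.exists_ne_zero_int_vec_norm_le A
    (by omega : Fintype.card α < Fintype.card β) hm
  refine ⟨t, ht0, ht1, ?_⟩
  intro j
  have h1 : |(t j : ℝ)| ≤ ‖t‖ := by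
    have := norm_le_pi_norm t j
    rwa [Int.norm_eq_abs] at this
  have hA2 : ‖A‖ ≤ B := by
    rw [Matrix.norm_le_iff (by linarith)]
    intro i j
    rw [Int.norm_eq_abs]
    exact hA i j
  have hmax : max 1 ‖A‖ ≤ B := max_le hB hA2
  have hmR : (0 : ℝ) < (Fintype.card α : ℝ) := by exact_mod_cast hm
  have hnR : 2 * (Fintype.card α : ℝ) ≤ (Fintype.card β : ℝ) := by exact_mod_cast hn
  have hb : (1 : ℝ) ≤ (Fintype.card β : ℝ) * max 1 ‖A‖ := by
    have h2 : (1 : ℝ) ≤ (Fintype.card β : ℝ) := by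
      have : 1 ≤ Fintype.card β := by omega
      exact_mod_cast this
    exact one_le_mul_of_one_le_of_one_le h2 (le_max_left _ _)
  have he : ((Fintype.card α : ℝ) / ((Fintype.card β : ℝ) - (Fintype.card α : ℝ))) ≤ 1 := by
    rw [div_le_one (by linarith)]
    linarith
  calc |(t j : ℝ)| ≤ ‖t‖ := h1
    _ ≤ _ := ht2
    _ ≤ ((Fintype.card β : ℝ) * max 1 ‖A‖) ^ (1 : ℝ) := Real.rpow_le_rpow_of_exponent_le hb he
    _ = (Fintype.card β : ℝ) * max 1 ‖A‖ := Real.rpow_one _
    _ ≤ _ := mul_le_mul_of_nonneg_left hmax (Nat.cast_nonneg _)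

end

/-- The polynomial with the coefficients `t 0, …, t K`. -/
noncomputable def pol (K : ℕ) (t : Fin (K + 1) → ℤ) : Polynomial ℤ :=
  ∑ k : Fin (K + 1), Polynomial.C (t k) * Polynomial.X ^ (k : ℕ)

lemma pol_coeff (K : ℕ) (t : Fin (K + 1) → ℤ) (r : ℕ) :
    (pol K t).coeff r = if h : r < K + 1 then t ⟨r, h⟩ else 0 := by
  unfold pol
  rw [Polynomial.finsetSum_coeff]
  simp only [Polynomial.coeff_C_mul, Polynomial.coeff_X_pow]
  split_ifs with h
  · rw [Finset.sum_eq_single ⟨r, h⟩]
    · simp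
    · intro b _ hb
      have : r ≠ (b : ℕ) := fun h' => hb (Fin.ext h'.symm)
      simp [this]
    · intro h'
      exact absurd (Finset.mem_univ _) h'
  · refine Finset.sum_eq_zero fun b _ => ?_
    have : r ≠ (b : ℕ) := fun h' => h (h' ▸ b.2)
    simp [this]

lemma pol_natDegree (K : ℕ) (t : Fin (K + 1) → ℤ) : (pol K t).natDegree ≤ K := by
  rw [Polynomial.natDegree_le_iff_coeff_eq_zero]
  intro r hr
  rw [pol_coeff, dif_neg (by omega)]

/-- The coefficients of a product with `pol`. -/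
lemma pol_mul_coeff (K : ℕ) (t : Fin (K + 1) → ℤ) (c : Polynomial ℤ) (r : ℕ) :
    (pol K t * c).coeff r = ∑ k : Fin (K + 1), (if (k : ℕ) ≤ r then c.coeff (r - k) else 0) * t k := by
  unfold pol
  rw [Finset.sum_mul, Polynomial.finsetSum_coeff]
  refine Finset.sum_congr rfl fun k _ => ?_
  have : Polynomial.C (t k) * Polynomial.X ^ (k : ℕ) * c =
      Polynomial.C (t k) * (c * Polynomial.X ^ (k : ℕ)) := by ring
  rw [this, Polynomial.coeff_C_mul, Polynomial.coeff_mul_X_pow']
  ring

end I_SiegX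

open I_SiegX in
/-- **G2**: Siegel's lemma over the polynomials. -/
theorem SiegX_pf : S_SiegX := by
  intro C hC
  refine ⟨2 * C + 5, by omega, ?_⟩
  intro M N X hX hN hMN hNX c hc
  by_cases hM : M = 0
  · subst hM
    refine ⟨fun _ => 1, ?_, ?_, fun j => j.elim0⟩
    · intro h
      have := congrFun h ⟨0, hN⟩
      exact one_ne_zero this
    · intro i
      refine ⟨by simp, fun k => ?_⟩
      have h1 : (1 : ℝ) ≤ Real.exp (((2 * C + 5) * X : ℕ) : ℝ) := Real.one_le_exp (by positivity)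
      rw [Polynomial.coeff_one]
      split_ifs
      · rw [Int.cast_one, abs_one]
        exact h1
      · rw [Int.cast_zero, abs_zero]
        exact (Real.exp_pos _).le
  -- the system
  set K := C * X with hK
  let A : Matrix (Fin M × Fin (2 * K + 1)) (Fin N × Fin (K + 1)) ℤ := fun jr ik =>
    if (ik.2 : ℕ) ≤ (jr.2 : ℕ) then (c jr.1 ik.1).coeff ((jr.2 : ℕ) - (ik.2 : ℕ)) else 0
  have hB : (1 : ℝ) ≤ Real.exp ((K : ℕ) : ℝ) := Real.one_le_exp (by positivity)
  obtain ⟨t, ht0, htA, htb⟩ := siegel A (Real.exp ((K : ℕ) : ℝ)) hB (by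
      intro jr ik
      simp only [A]
      split_ifs
      · exact (hc jr.1 ik.1).2 _
      · simp
        positivity) (by
      simp only [Fintype.card_prod, Fintype.card_fin]
      exact Nat.mul_pos (Nat.pos_of_ne_zero hM) (Nat.succ_pos _)) (by
      simp only [Fintype.card_prod, Fintype.card_fin]
      have h1 : 4 * M ≤ N := le_trans (Nat.mul_le_mul_right M (by omega)) hMN
      calc 2 * (M * (2 * K + 1)) ≤ 4 * M * (K + 1) := by nlinarith
        _ ≤ N * (K + 1) := Nat.mul_le_mul_right _ h1)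
  let p : Fin N → Polynomial ℤ := fun i => pol K (fun k => t (i, k))
  refine ⟨p, ?_, ?_, ?_⟩
  · intro h
    apply ht0
    funext ⟨i, k⟩
    have h1 := congrArg (fun q => Polynomial.coeff q (k : ℕ)) (congrFun h i)
    simp only [p, Pi.zero_apply, Polynomial.coeff_zero] at h1
    rw [pol_coeff, dif_pos k.2] at h1
    exact h1
  · intro i
    refine ⟨pol_natDegree _ _, fun k => ?_⟩
    have h0 : (0 : ℝ) ≤ Real.exp (((2 * C + 5) * X : ℕ) : ℝ) := (Real.exp_pos _).le
    simp only [p]
    rw [pol_coeff]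
    split_ifs with hk
    · refine (htb (i, ⟨k, hk⟩)).trans ?_
      simp only [Fintype.card_prod, Fintype.card_fin]
      have e1 : ((N : ℕ) : ℝ) ≤ Real.exp ((X : ℕ) : ℝ) := by
        calc ((N : ℕ) : ℝ) ≤ ((2 ^ X : ℕ) : ℝ) := by exact_mod_cast hNX
          _ = (2 : ℝ) ^ X := by push_cast; rfl
          _ ≤ (Real.exp 1) ^ X := by
            refine pow_le_pow_left₀ (by norm_num) ?_ _
            have := Real.add_one_le_exp (1 : ℝ)
            linarith
          _ = Real.exp ((X : ℕ) : ℝ) := by rw [← Real.exp_nat_mul]; simp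
      have e2 : (((K + 1 : ℕ)) : ℝ) ≤ Real.exp ((K : ℕ) : ℝ) := by
        have := Real.add_one_le_exp ((K : ℕ) : ℝ)
        push_cast
        exact this
      calc ((N * (K + 1) : ℕ) : ℝ) * Real.exp ((K : ℕ) : ℝ)
          = ((N : ℕ) : ℝ) * ((K + 1 : ℕ) : ℝ) * Real.exp ((K : ℕ) : ℝ) := by push_cast; ring
        _ ≤ Real.exp ((X : ℕ) : ℝ) * Real.exp ((K : ℕ) : ℝ) * Real.exp ((K : ℕ) : ℝ) := by
            refine mul_le_mul_of_nonneg_right ?_ (Real.exp_pos _).le
            exact mul_le_mul e1 e2 (Nat.cast_nonneg _) (Real.exp_pos _).le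
        _ = Real.exp (((X + K + K : ℕ)) : ℝ) := by
            rw [← Real.exp_add, ← Real.exp_add]
            push_cast
            rfl
        _ ≤ Real.exp (((2 * C + 5) * X : ℕ) : ℝ) := by
            refine Real.exp_le_exp.mpr ?_
            have : X + K + K ≤ (2 * C + 5) * X := by
              rw [hK]
              nlinarith
            exact_mod_cast this
    · simpa using h0
  · intro j
    ext r
    rw [Polynomial.finsetSum_coeff, Polynomial.coeff_zero]
    by_cases hr : r < 2 * K + 1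
    · have h1 := congrFun htA (j, ⟨r, hr⟩)
      rw [Matrix.mulVec, dotProduct, Fintype.sum_prod_type] at h1
      simp only [Pi.zero_apply] at h1
      rw [← h1]
      refine Finset.sum_congr rfl fun i _ => ?_
      simp only [p]
      rw [pol_mul_coeff]
    · refine Finset.sum_eq_zero fun i _ => ?_
      apply Polynomial.coeff_eq_zero_of_natDegree_lt
      have h1 := pol_natDegree K (fun k => t (i, k))
      have h2 := (hc j i).1
      have h3 : (p i * c j i).natDegree ≤ (p i).natDegree + (c j i).natDegree :=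
        Polynomial.natDegree_mul_le
      simp only [p] at h3 ⊢
      omega

end Pool.Agent.Work.MP_8da9ea_nt.CH
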