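import Pool.Agent.Work.MP_8da9ea_nt.CH.Stmts

/-!
# Chudnovsky block: item `Small` (T4), smallness of the derivatives
-/

set_option autoImplicit false

namespace Pool.Agent.Work.MP_8da9ea_nt.CH

open MvPolynomial Filter Topology Pool.Agent.Work.MP_327059_nt.GL Pool.Agent.Work.MP_8da9ea_nt.S
  Pool.Agent.Work.MP_8da9ea_nt.EB

namespace I_Small

/-- The quasi-periodic function. -/
noncomputable def W (τ μ z : ℂ) : ℂ := μ * (zt 1 τ z - et τ * z)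

lemma W_add {τ : ℂ} (hτ : 0 < τ.im) (μ z : ℂ) (m n : ℕ) :
    W τ μ (z + (m + n * τ)) = W τ μ z - n * (μ * kap) := by
  have h := zt_add_lp hτ z (m : ℤ) (n : ℤ)
  push_cast at h
  unfold W kap
  rw [h]
  ring

lemma xe_add {τ : ℂ} (hτ : 0 < τ.im) (μ z : ℂ) (m n : ℕ) :
    xe τ μ (z + (m + n * τ)) = xe τ μ z := by
  have h := wp_add_lp hτ z (m : ℤ) (n : ℤ)
  push_cast at h
  unfold xe
  rw [h]

lemma mem_add {τ : ℂ} (z : ℂ) (m n : ℕ) : z + (m + n * τ) ∈ Lam τ ↔ z ∈ Lam τ := by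
  have h := add_mem_Lam_iff (τ := τ) (w := z) (m : ℤ) (n : ℤ)
  push_cast at h
  exact h

lemma wg_eq (τ μ s : ℂ) : wg τ μ (μ ^ 2 * et τ) s = W τ μ (1 / 2 + μ * s) := by
  unfold wg W et
  ring

/-- `P(X(z), W(z) - n θ₂)`. -/
noncomputable def pz (τ μ : ℂ) (n : ℕ) (P : MvPolynomial (Fin 2) ℂ) (z : ℂ) : ℂ :=
  eval ![xe τ μ z, W τ μ z - n * (μ * kap)] P

lemma fg_eq (τ μ : ℂ) (n : ℕ) (P : MvPolynomial (Fin 2) ℂ) (s : ℂ) :
    fg τ μ (μ ^ 2 * et τ) (μ * kap) n P s = pz τ μ n P (1 / 2 + μ * s) := by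
  unfold fg pz xg
  rw [wg_eq]

lemma pz_add {τ : ℂ} (hτ : 0 < τ.im) (μ z : ℂ) (m n : ℕ) (P : MvPolynomial (Fin 2) ℂ) :
    eval ![xe τ μ (z + (m + n * τ)), W τ μ (z + (m + n * τ))] P = pz τ μ n P z := by
  unfold pz
  rw [W_add hτ, xe_add hτ]

lemma pz_an {τ : ℂ} (hτ : 0 < τ.im) (μ : ℂ) (n : ℕ) (P : MvPolynomial (Fin 2) ℂ) {z : ℂ}
    (hz : z ∉ Lam τ) : AnalyticAt ℂ (pz τ μ n P) z := by
  have hx : AnalyticAt ℂ (xe τ μ) z := by
    have h := (analyticOn_wp hτ) z hz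
    exact analyticAt_const.mul h
  have hw : AnalyticAt ℂ (W τ μ) z := by
    have h := (analyticOn_zt hτ) z hz
    exact analyticAt_const.mul (h.sub (analyticAt_const.mul analyticAt_id))
  have e : pz τ μ n P = fun z => ∑ m ∈ P.support, P.coeff m *
      (xe τ μ z ^ m 0 * (W τ μ z - n * (μ * kap)) ^ m 1) := by
    funext z
    unfold pz
    rw [eval_eq']
    refine Finset.sum_congr rfl fun m _ => ?_
    rw [Fin.prod_univ_two]
    rfl
  rw [e]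
  exact Finset.analyticAt_fun_sum _ fun m _ => analyticAt_const.mul
    ((hx.pow _).mul ((hw.sub analyticAt_const).pow _))

/-- The entire function. -/
noncomputable def Phi (Θ G H : ℂ → ℂ) (L : ℕ) (P : MvPolynomial (Fin 2) ℂ) (z : ℂ) : ℂ :=
  ∑ m ∈ P.support, P.coeff m * (Θ z ^ (3 * L - 2 * m 0 - m 1) * G z ^ m 0 * H z ^ m 1)

lemma Phi_diff {Θ G H : ℂ → ℂ} (hΘ : Differentiable ℂ Θ) (hG : Differentiable ℂ G)
    (hH : Differentiable ℂ H) (L : ℕ) (P : MvPolynomial (Fin 2) ℂ) :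
    Differentiable ℂ (Phi Θ G H L P) := by
  unfold Phi
  exact Differentiable.fun_sum fun m _ => (((hΘ.pow _).mul (hG.pow _)).mul (hH.pow _)).const_mul _

lemma Phi_eq {Θ G H : ℂ → ℂ} {L : ℕ} {P : MvPolynomial (Fin 2) ℂ} (h0 : P.degreeOf 0 ≤ L)
    (h1 : P.degreeOf 1 ≤ L) {z x w : ℂ} (hG : G z = Θ z ^ 2 * x) (hH : H z = Θ z * w) :
    Phi Θ G H L P z = Θ z ^ (3 * L) * eval ![x, w] P := by
  unfold Phi
  rw [eval_eq', Finset.mul_sum]
  refine Finset.sum_congr rfl fun m hm => ?_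
  have a0 : m 0 ≤ L := (monomial_le_degreeOf 0 hm).trans h0
  have a1 : m 1 ≤ L := (monomial_le_degreeOf 1 hm).trans h1
  rw [Fin.prod_univ_two, hG, hH]
  have e : 3 * L = (3 * L - 2 * m 0 - m 1) + 2 * m 0 + m 1 := by omega
  have e2 : Θ z ^ (3 * L) = Θ z ^ (3 * L - 2 * m 0 - m 1) * (Θ z ^ 2) ^ m 0 * Θ z ^ m 1 := by
    rw [← pow_mul, ← pow_add, ← pow_add, ← e]
  rw [e2]
  show P.coeff m * (Θ z ^ (3 * L - 2 * m 0 - m 1) * (Θ z ^ 2 * x) ^ m 0 * (Θ z * w) ^ m 1) =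
    Θ z ^ (3 * L - 2 * m 0 - m 1) * (Θ z ^ 2) ^ m 0 * Θ z ^ m 1 *
      (P.coeff m * (x ^ m 0 * w ^ m 1))
  rw [mul_pow, mul_pow]
  ring

lemma card_supp {P : MvPolynomial (Fin 2) ℂ} {L : ℕ} (h0 : P.degreeOf 0 ≤ L)
    (h1 : P.degreeOf 1 ≤ L) : P.support.card ≤ (L + 1) ^ 2 := by
  have h : P.support.card ≤ (Finset.range (L + 1) ×ˢ Finset.range (L + 1)).card := by
    apply Finset.card_le_card_of_injOn (fun m => (m 0, m 1))
    · intro m hm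
      have a0 : m 0 ≤ L := (monomial_le_degreeOf 0 hm).trans h0
      have a1 : m 1 ≤ L := (monomial_le_degreeOf 1 hm).trans h1
      rw [Finset.mem_coe, Finset.mem_product, Finset.mem_range, Finset.mem_range]
      exact ⟨Nat.lt_succ_of_le a0, Nat.lt_succ_of_le a1⟩
    · intro m _ m' _ h
      have h0 : m 0 = m' 0 := congrArg Prod.fst h
      have h1 : m 1 = m' 1 := congrArg Prod.snd h
      ext i
      fin_cases i
      · exact h0
      · exact h1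
  rw [Finset.card_product, Finset.card_range] at h
  rw [sq]
  exact h

lemma Phi_le {Θ G H : ℂ → ℂ} {L : ℕ} {P : MvPolynomial (Fin 2) ℂ} (h0 : P.degreeOf 0 ≤ L)
    (h1 : P.degreeOf 1 ≤ L) {B E : ℝ} (hE : 1 ≤ E) (hB : ∀ m, ‖P.coeff m‖ ≤ B) {z : ℂ}
    (hΘ : ‖Θ z‖ ≤ E) (hG : ‖G z‖ ≤ E) (hH : ‖H z‖ ≤ E) :
    ‖Phi Θ G H L P z‖ ≤ ((L : ℝ) + 1) ^ 2 * (B * E ^ (3 * L)) := by
  have hB0 : 0 ≤ B := (norm_nonneg _).trans (hB 0)
  have hE0 : 0 ≤ E := by linarith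
  unfold Phi
  refine (norm_sum_le _ _).trans ?_
  have hterm : ∀ m ∈ P.support,
      ‖P.coeff m * (Θ z ^ (3 * L - 2 * m 0 - m 1) * G z ^ m 0 * H z ^ m 1)‖ ≤ B * E ^ (3 * L) := by
    intro m hm
    have a0 : m 0 ≤ L := (monomial_le_degreeOf 0 hm).trans h0
    have a1 : m 1 ≤ L := (monomial_le_degreeOf 1 hm).trans h1
    rw [norm_mul, norm_mul, norm_mul, norm_pow, norm_pow, norm_pow]
    refine mul_le_mul (hB m) ?_ (by positivity) hB0
    calc ‖Θ z‖ ^ (3 * L - 2 * m 0 - m 1) * ‖G z‖ ^ m 0 * ‖H z‖ ^ m 1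
        ≤ E ^ (3 * L - 2 * m 0 - m 1) * E ^ m 0 * E ^ m 1 := by
          gcongr
      _ = E ^ (3 * L - 2 * m 0 - m 1 + m 0 + m 1) := by
          rw [← pow_add, ← pow_add]
      _ ≤ E ^ (3 * L) := pow_le_pow_right₀ hE (by omega)
  refine (Finset.sum_le_card_nsmul _ _ _ hterm).trans ?_
  rw [nsmul_eq_mul]
  refine mul_le_mul_of_nonneg_right ?_ (by positivity)
  have h := card_supp h0 h1
  exact_mod_cast h

lemma lin_an (c μ : ℂ) : AnalyticAt ℂ (fun s : ℂ => c + μ * s) 0 :=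
  analyticAt_const.add (analyticAt_const.mul analyticAt_id)

lemma order_le {τ μ : ℂ} (hτ : 0 < τ.im) (hμ : μ ≠ 0) (hhalf : (1 / 2 : ℂ) ∉ Lam τ)
    {Θ G H : ℂ → ℂ} (hΘ : Differentiable ℂ Θ)
    (he : ∀ z ∉ Lam τ, G z = Θ z ^ 2 * xe τ μ z ∧ H z = Θ z * (μ * (zt 1 τ z - et τ * z)))
    {L T : ℕ} {P : MvPolynomial (Fin 2) ℂ} (h0 : P.degreeOf 0 ≤ L) (h1 : P.degreeOf 1 ≤ L)
    (m n : ℕ) (hT : (T : ℕ∞) ≤ og τ μ (μ ^ 2 * et τ) (μ * kap) n P) :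
    (T : ℕ∞) ≤ analyticOrderAt (Phi Θ G H L P) (1 / 2 + (m + n * τ)) := by
  have hg := lin_an (1 / 2 + (m + n * τ)) μ
  have hd : deriv (fun s : ℂ => 1 / 2 + (m + n * τ) + μ * s) 0 ≠ 0 := by
    have h := ((hasDerivAt_id (0 : ℂ)).const_mul μ).const_add (1 / 2 + (m + n * τ))
    have h2 : deriv (fun s : ℂ => 1 / 2 + (m + n * τ) + μ * s) 0 = μ * 1 := h.deriv
    rw [h2, mul_one]
    exact hμ
  have hc := analyticOrderAt_comp_of_deriv_ne_zero (f := Phi Θ G H L P) hg hd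
  have hz0 : (1 / 2 + (m + n * τ) + μ * 0 : ℂ) = 1 / 2 + (m + n * τ) := by ring
  rw [hz0] at hc
  rw [← hc]
  have hev : ∀ᶠ s : ℂ in 𝓝 0, 1 / 2 + μ * s ∉ Lam τ := by
    have hcont : ContinuousAt (fun s : ℂ => 1 / 2 + μ * s) 0 := (lin_an (1 / 2) μ).continuousAt
    have h3 : (Lam τ)ᶜ ∈ 𝓝 ((1 / 2 : ℂ) + μ * 0) := by
      rw [mul_zero, add_zero]
      exact (isClosed_Lam hτ).isOpen_compl.mem_nhds hhalf
    exact hcont.eventually_mem h3
  have hΘa : AnalyticAt ℂ (fun s : ℂ => Θ (1 / 2 + (m + n * τ) + μ * s) ^ (3 * L)) 0 := by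
    have h2 : Differentiable ℂ (fun s : ℂ => Θ (1 / 2 + (m + n * τ) + μ * s) ^ (3 * L)) := by
      have h3 : Differentiable ℂ (fun s : ℂ => 1 / 2 + (m + n * τ) + μ * s) := by fun_prop
      exact (hΘ.comp h3).pow _
    exact h2.analyticAt 0
  have hfa : AnalyticAt ℂ (fg τ μ (μ ^ 2 * et τ) (μ * kap) n P) 0 := by
    have e : fg τ μ (μ ^ 2 * et τ) (μ * kap) n P = (pz τ μ n P) ∘ (fun s : ℂ => 1 / 2 + μ * s) := by
      funext s
      exact fg_eq τ μ n P s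
    rw [e]
    refine AnalyticAt.comp ?_ (lin_an (1 / 2) μ)
    rw [mul_zero, add_zero]
    exact pz_an hτ μ n P hhalf
  have hcong : (Phi Θ G H L P ∘ fun s : ℂ => 1 / 2 + (m + n * τ) + μ * s) =ᶠ[𝓝 0]
      (fun s : ℂ => Θ (1 / 2 + (m + n * τ) + μ * s) ^ (3 * L)) *
        fg τ μ (μ ^ 2 * et τ) (μ * kap) n P := by
    filter_upwards [hev] with s hs
    have e : (1 / 2 + (m + n * τ) + μ * s : ℂ) = (1 / 2 + μ * s) + (m + n * τ) := by ring
    have hz : (1 / 2 + (m + n * τ) + μ * s : ℂ) ∉ Lam τ := by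
      rw [e, mem_add]
      exact hs
    show Phi Θ G H L P (1 / 2 + (m + n * τ) + μ * s) =
      Θ (1 / 2 + (m + n * τ) + μ * s) ^ (3 * L) * fg τ μ (μ ^ 2 * et τ) (μ * kap) n P s
    rw [Phi_eq h0 h1 (he _ hz).1 (he _ hz).2, fg_eq, ← pz_add hτ μ _ m n P, ← e]
    rfl
  rw [analyticOrderAt_congr hcong, analyticOrderAt_mul hΘa hfa]
  exact hT.trans le_add_self

lemma pts {τ : ℂ} (hτ : 0 < τ.im) (N S : ℕ) : ∃ Z : Finset ℂ, Z.card = N * S ∧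
    ∀ ζ ∈ Z, ∃ m n : ℕ, m < N ∧ n < S ∧ ζ = 1 / 2 + (m + n * τ) := by
  classical
  refine ⟨(Finset.range N ×ˢ Finset.range S).image
    (fun p : ℕ × ℕ => (1 / 2 + ((p.1 : ℂ) + (p.2 : ℂ) * τ) : ℂ)), ?_, ?_⟩
  · rw [Finset.card_image_of_injective, Finset.card_product, Finset.card_range, Finset.card_range]
    rintro ⟨a, b⟩ ⟨c, d⟩ h
    have h' : (1 / 2 + ((a : ℂ) + (b : ℂ) * τ) : ℂ) = 1 / 2 + ((c : ℂ) + (d : ℂ) * τ) := h
    have h'' : ((a : ℂ) + (b : ℂ) * τ : ℂ) = (c : ℂ) + (d : ℂ) * τ := add_left_cancel h'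
    have him := congrArg Complex.im h''
    simp only [Complex.add_im, Complex.natCast_im, Complex.mul_im, Complex.natCast_re, zero_mul,
      add_zero, zero_add] at him
    have hbd : (b : ℝ) = d := mul_right_cancel₀ hτ.ne' him
    have hbd' : b = d := by exact_mod_cast hbd
    subst hbd'
    have hac : (a : ℂ) = c := add_right_cancel h''
    have hac' : a = c := by exact_mod_cast hac
    rw [hac']
  · intro ζ hζ
    rw [Finset.mem_image] at hζ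
    obtain ⟨⟨a, b⟩, hab, rfl⟩ := hζ
    rw [Finset.mem_product, Finset.mem_range, Finset.mem_range] at hab
    exact ⟨a, b, hab.1, hab.2, rfl⟩

lemma half_pow (k : ℕ) : ((1 : ℝ) / 2) ^ k ≤ Real.exp (-((k : ℝ) / 2)) := by
  have h : (1 : ℝ) / 2 ≤ Real.exp (-(1 / 2)) := by
    have := Real.add_one_le_exp (-(1 / 2 : ℝ))
    linarith
  calc ((1 : ℝ) / 2) ^ k ≤ (Real.exp (-(1 / 2))) ^ k := pow_le_pow_left₀ (by norm_num) h k
    _ = Real.exp (-((k : ℝ) / 2)) := by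
        rw [← Real.exp_nat_mul]
        congr 1
        ring

lemma norm_lin (τ : ℂ) (m n : ℕ) : ‖(m + n * τ : ℂ)‖ ≤ m + n * ‖τ‖ := by
  refine (norm_add_le _ _).trans ?_
  rw [norm_mul, Complex.norm_natCast, Complex.norm_natCast]

lemma norm_half : ‖(1 / 2 : ℂ)‖ = 1 / 2 := by
  rw [norm_div, norm_one, Complex.norm_ofNat]

end I_Small

open I_Small in
/-- T4: smallness. -/
theorem Small_pf (h1 : S_Grow) (h2 : S_Schw) (_h3 : S_Bas) : S_Small := by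
  intro τ μ hτ hμ
  obtain ⟨Θ, G, H, C₀, r, hC₀, hr, hΘ, hG, hH, hgr, he, hdisk, hlow⟩ := h1 τ μ hτ hμ
  have hμn : 0 < ‖μ‖ := norm_pos_iff.mpr hμ
  have hhalf : (1 / 2 : ℂ) ∉ Lam τ := hdisk _ (by rw [sub_self, norm_zero]; exact hr.le)
  obtain ⟨C, hCdef⟩ : ∃ C : ℝ, C = 113 * C₀ + 8 + 2 * ‖τ‖ + r + ‖μ‖ / r := ⟨_, rfl⟩
  have hτn : 0 ≤ ‖τ‖ := norm_nonneg τ
  have hμr : 0 < ‖μ‖ / r := div_pos hμn hr
  have hC8 : 8 ≤ C := by rw [hCdef]; linarith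
  have hC113 : 113 * C₀ ≤ C := by rw [hCdef]; linarith
  have hCμ : ‖μ‖ / r ≤ C := by rw [hCdef]; linarith
  have hCτ : 2 * ‖τ‖ ≤ C := by rw [hCdef]; linarith
  have hCr : 1 + r + ‖τ‖ ≤ C := by rw [hCdef]; linarith
  refine ⟨C, by linarith, ?_⟩
  intro L T S R A P hL hA hR h0 h1' hcoef hord n t hn
  have hL1 : (1 : ℝ) ≤ L := by exact_mod_cast hL
  have hS0 : (0 : ℝ) ≤ S := Nat.cast_nonneg S
  have hn0 : (0 : ℝ) ≤ n := Nat.cast_nonneg n
  have hT0 : (0 : ℝ) ≤ T := Nat.cast_nonneg T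
  have hC0 : 0 < C := by linarith
  have hRC : C ≤ R := by nlinarith
  have hR8 : 8 ≤ R := by linarith
  have hR0 : 0 < R := by linarith
  -- the growth of Phi
  have hM : ∀ z, ‖z‖ ≤ 5 * R → ‖Phi Θ G H L P z‖ ≤ Real.exp (A + 110 * C₀ * L * R ^ 2) := by
    intro z hz
    have hE : (1 : ℝ) ≤ Real.exp (C₀ * (1 + ‖z‖) ^ 2) := Real.one_le_exp (by positivity)
    refine (Phi_le h0 h1' hE hcoef (hgr z).1 (hgr z).2.1 (hgr z).2.2).trans ?_
    have e1 : ((L : ℝ) + 1) ^ 2 ≤ Real.exp (2 * L) := by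
      have h3 : (L : ℝ) + 1 ≤ Real.exp L := Real.add_one_le_exp _
      calc ((L : ℝ) + 1) ^ 2 ≤ (Real.exp L) ^ 2 := pow_le_pow_left₀ (by positivity) h3 2
        _ = Real.exp (2 * L) := by
            rw [← Real.exp_nat_mul]
            norm_num
    have e2 : Real.exp (C₀ * (1 + ‖z‖) ^ 2) ^ (3 * L) = Real.exp (3 * L * (C₀ * (1 + ‖z‖) ^ 2)) := by
      rw [← Real.exp_nat_mul]
      push_cast
      rfl
    rw [e2]
    calc ((L : ℝ) + 1) ^ 2 * (Real.exp A * Real.exp (3 * L * (C₀ * (1 + ‖z‖) ^ 2)))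
        ≤ Real.exp (2 * L) * (Real.exp A * Real.exp (3 * L * (C₀ * (1 + ‖z‖) ^ 2))) :=
          mul_le_mul_of_nonneg_right e1 (by positivity)
      _ = Real.exp (2 * L + (A + 3 * L * (C₀ * (1 + ‖z‖) ^ 2))) := by
          rw [Real.exp_add, Real.exp_add]
      _ ≤ Real.exp (A + 110 * C₀ * L * R ^ 2) := by
          rw [Real.exp_le_exp]
          have h3 : (1 + ‖z‖) ^ 2 ≤ 36 * R ^ 2 := by
            have h4 : 1 + ‖z‖ ≤ 6 * R := by linarith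
            calc (1 + ‖z‖) ^ 2 ≤ (6 * R) ^ 2 := pow_le_pow_left₀ (by positivity) h4 2
              _ = 36 * R ^ 2 := by ring
          have h4 : 3 * L * (C₀ * (1 + ‖z‖) ^ 2) ≤ 3 * L * (C₀ * (36 * R ^ 2)) := by gcongr
          have h5 : (1 : ℝ) ≤ C₀ * R ^ 2 := by
            have : (1 : ℝ) ≤ R ^ 2 := one_le_pow₀ (by linarith)
            nlinarith
          have h6 : (L : ℝ) * 1 ≤ L * (C₀ * R ^ 2) := mul_le_mul_of_nonneg_left h5 (by linarith)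
          nlinarith
  -- the zeros
  obtain ⟨N, hNdef⟩ : ∃ N : ℕ, N = ⌊R / 2⌋₊ := ⟨_, rfl⟩
  have hN1 : (N : ℝ) ≤ R / 2 := by rw [hNdef]; exact Nat.floor_le (by positivity)
  have hN2 : R / 4 ≤ N := by
    have h3 : R / 2 < N + 1 := by rw [hNdef]; exact Nat.lt_floor_add_one _
    linarith
  obtain ⟨Z, hZc, hZ⟩ := pts hτ N S
  have hZ' : ∀ ζ ∈ Z, ‖ζ‖ ≤ R ∧ (T : ℕ∞) ≤ analyticOrderAt (Phi Θ G H L P) ζ := by
    intro ζ hζ
    obtain ⟨m, k, hm, hk, rfl⟩ := hZ ζ hζ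
    refine ⟨?_, order_le hτ hμ hhalf hΘ he h0 h1' m k (hord k hk)⟩
    refine (norm_add_le _ _).trans ?_
    rw [norm_half]
    have h3 := norm_lin τ m k
    have h4 : (m : ℝ) + 1 ≤ N := by exact_mod_cast hm
    have h5 : (k : ℝ) ≤ S := by exact_mod_cast hk.le
    have h6 : (k : ℝ) * ‖τ‖ ≤ S * ‖τ‖ := mul_le_mul_of_nonneg_right h5 hτn
    have h7 : 2 * ‖τ‖ * (1 + S) ≤ C * (1 + S) := mul_le_mul_of_nonneg_right hCτ (by positivity)
    nlinarith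
  have hsch := h2 (Phi Θ G H L P) R (Real.exp (A + 110 * C₀ * L * R ^ 2)) T Z
    (Phi_diff hΘ hG hH L P) hR0 hZ' hM
  have hsmall : ∀ z, ‖z‖ ≤ R → ‖Phi Θ G H L P z‖ ≤
      Real.exp (A + 110 * C₀ * L * R ^ 2 - T * S * R / 8) := by
    intro z hz
    refine (hsch z hz).trans ?_
    rw [hZc]
    calc Real.exp (A + 110 * C₀ * L * R ^ 2) * (1 / 2) ^ (T * (N * S))
        ≤ Real.exp (A + 110 * C₀ * L * R ^ 2) * Real.exp (-(((T * (N * S) : ℕ) : ℝ) / 2)) :=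
          mul_le_mul_of_nonneg_left (half_pow _) (Real.exp_pos _).le
      _ = Real.exp (A + 110 * C₀ * L * R ^ 2 + -(((T * (N * S) : ℕ) : ℝ) / 2)) := by
          rw [← Real.exp_add]
      _ ≤ Real.exp (A + 110 * C₀ * L * R ^ 2 - T * S * R / 8) := by
          rw [Real.exp_le_exp]
          push_cast
          have h3 : (T : ℝ) * S * (R / 4) ≤ T * S * N :=
            mul_le_mul_of_nonneg_left hN2 (by positivity)
          nlinarith
  -- the circle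
  have hρ : 0 < r / ‖μ‖ := div_pos hr hμn
  have hne : ∀ s : ℂ, ‖s‖ ≤ r / ‖μ‖ → ‖(1 / 2 + μ * s) - 1 / 2‖ ≤ r := by
    intro s hs
    rw [add_sub_cancel_left, norm_mul, mul_comm]
    exact (le_div_iff₀ hμn).mp hs
  have hdc : DiffContOnCl ℂ (fg τ μ (μ ^ 2 * et τ) (μ * kap) n P) (Metric.ball 0 (r / ‖μ‖)) := by
    apply DifferentiableOn.diffContOnCl
    rw [closure_ball _ hρ.ne']
    intro s hs
    rw [mem_closedBall_zero_iff] at hs
    have e : fg τ μ (μ ^ 2 * et τ) (μ * kap) n P = (pz τ μ n P) ∘ (fun s : ℂ => 1 / 2 + μ * s) := by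
      funext s
      exact fg_eq τ μ n P s
    rw [e]
    have h3 : DifferentiableAt ℂ (fun s : ℂ => 1 / 2 + μ * s) s := by fun_prop
    exact ((pz_an hτ μ n P (hdisk _ (hne s hs))).differentiableAt.comp s h3).differentiableWithinAt
  have hbd : ∀ s ∈ Metric.sphere (0 : ℂ) (r / ‖μ‖), ‖fg τ μ (μ ^ 2 * et τ) (μ * kap) n P s‖ ≤
      Real.exp (A + 113 * C₀ * L * R ^ 2 - T * S * R / 8) := by
    intro s hs
    rw [mem_sphere_zero_iff_norm] at hs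
    have hzr : ‖(1 / 2 + μ * s) - 1 / 2‖ = r := by
      rw [add_sub_cancel_left, norm_mul, hs]
      field_simp
    have hznl : (1 / 2 + μ * s : ℂ) ∉ Lam τ := hdisk _ hzr.le
    have hz' : (1 / 2 + μ * s) + ((0 : ℕ) + n * τ) ∉ Lam τ := by
      rw [mem_add]
      exact hznl
    have hval : Phi Θ G H L P ((1 / 2 + μ * s) + ((0 : ℕ) + n * τ)) =
        Θ ((1 / 2 + μ * s) + ((0 : ℕ) + n * τ)) ^ (3 * L) *
          fg τ μ (μ ^ 2 * et τ) (μ * kap) n P s := by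
      rw [Phi_eq h0 h1' (he _ hz').1 (he _ hz').2, fg_eq, ← pz_add hτ μ _ 0 n P]
      rfl
    have hnorm : ‖(1 / 2 + μ * s) + ((0 : ℕ) + n * τ)‖ ≤ R := by
      have e : (1 / 2 + μ * s) + ((0 : ℕ) + n * τ) =
          ((1 / 2 + μ * s) - 1 / 2) + 1 / 2 + ((0 : ℕ) + n * τ) := by ring
      rw [e]
      have h3 := norm_add_le (((1 / 2 + μ * s) - 1 / 2) + 1 / 2 : ℂ) ((0 : ℕ) + n * τ)
      have h4 := norm_add_le ((1 / 2 + μ * s) - 1 / 2 : ℂ) (1 / 2)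
      have h5 := norm_lin τ 0 n
      rw [norm_half, hzr] at h4
      have h6 : (1 + r + ‖τ‖) * (1 + n) ≤ C * (1 + n) := mul_le_mul_of_nonneg_right hCr (by positivity)
      have h7 : 0 ≤ r * n := by positivity
      have h8 : ‖((0 : ℕ) + n * τ : ℂ)‖ ≤ n * ‖τ‖ := h5.trans (le_of_eq (by simp))
      have h9 : (1 + r + ‖τ‖) * (1 + n) = 1 + r + ‖τ‖ + n + r * n + n * ‖τ‖ := by ring
      rw [h9] at h6
      calc ‖(((1 / 2 + μ * s) - 1 / 2) + 1 / 2 + ((0 : ℕ) + n * τ) : ℂ)‖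
          ≤ ‖(((1 / 2 + μ * s) - 1 / 2) + 1 / 2 : ℂ)‖ + ‖((0 : ℕ) + n * τ : ℂ)‖ := h3
        _ ≤ (r + 1 / 2) + n * ‖τ‖ := add_le_add h4 h8
        _ ≤ R := by linarith
    have h3 := hsmall _ hnorm
    rw [hval, norm_mul, norm_pow] at h3
    have h4 : Real.exp (-(C₀ * (1 + n) ^ 2)) ≤ ‖Θ ((1 / 2 + μ * s) + ((0 : ℕ) + n * τ))‖ := by
      have h5 := hlow n (1 / 2 + μ * s) hzr
      have e : (1 / 2 + μ * s) + ((0 : ℕ) + n * τ) = 1 / 2 + μ * s + n * τ := by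
        push_cast
        ring
      rw [e]
      exact h5
    have h5 : Real.exp (-(3 * C₀ * L * R ^ 2)) ≤
        ‖Θ ((1 / 2 + μ * s) + ((0 : ℕ) + n * τ))‖ ^ (3 * L) := by
      calc Real.exp (-(3 * C₀ * L * R ^ 2)) ≤ Real.exp (-(C₀ * (1 + n) ^ 2)) ^ (3 * L) := by
            rw [← Real.exp_nat_mul, Real.exp_le_exp]
            push_cast
            have h6 : (1 + (n : ℝ)) ^ 2 ≤ R ^ 2 := by
              apply pow_le_pow_left₀ (by positivity)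
              nlinarith
            have h7 : 3 * (L : ℝ) * C₀ * (1 + (n : ℝ)) ^ 2 ≤ 3 * (L : ℝ) * C₀ * R ^ 2 :=
              mul_le_mul_of_nonneg_left h6 (by positivity)
            nlinarith
        _ ≤ _ := pow_le_pow_left₀ (Real.exp_pos _).le h4 _
    have h6 : Real.exp (-(3 * C₀ * L * R ^ 2)) * ‖fg τ μ (μ ^ 2 * et τ) (μ * kap) n P s‖ ≤
        Real.exp (A + 110 * C₀ * L * R ^ 2 - T * S * R / 8) :=
      (mul_le_mul_of_nonneg_right h5 (norm_nonneg _)).trans h3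
    calc ‖fg τ μ (μ ^ 2 * et τ) (μ * kap) n P s‖
        = Real.exp (3 * C₀ * L * R ^ 2) * (Real.exp (-(3 * C₀ * L * R ^ 2)) *
          ‖fg τ μ (μ ^ 2 * et τ) (μ * kap) n P s‖) := by
          rw [← mul_assoc, ← Real.exp_add, add_neg_cancel, Real.exp_zero, one_mul]
      _ ≤ Real.exp (3 * C₀ * L * R ^ 2) *
          Real.exp (A + 110 * C₀ * L * R ^ 2 - T * S * R / 8) :=
          mul_le_mul_of_nonneg_left h6 (Real.exp_pos _).le
      _ = Real.exp (A + 113 * C₀ * L * R ^ 2 - T * S * R / 8) := by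
          rw [← Real.exp_add]
          congr 1
          ring
  have hcau := Complex.norm_iteratedDeriv_le_of_forall_mem_sphere_norm_le t hρ hdc hbd
  refine hcau.trans ?_
  have e1 : (t.factorial : ℝ) * Real.exp (A + 113 * C₀ * L * R ^ 2 - T * S * R / 8) /
      (r / ‖μ‖) ^ t = t.factorial * (‖μ‖ / r) ^ t *
        Real.exp (A + 113 * C₀ * L * R ^ 2 - T * S * R / 8) := by
    have e2 : ‖μ‖ / r = (r / ‖μ‖)⁻¹ := (inv_div _ _).symm
    rw [e2, inv_pow]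
    ring
  rw [e1]
  have h3 : (‖μ‖ / r) ^ t ≤ C ^ t := pow_le_pow_left₀ hμr.le hCμ t
  have h4 : Real.exp (A + 113 * C₀ * L * R ^ 2 - T * S * R / 8) ≤
      Real.exp (C * L * R ^ 2 + A - T * S * R / C) := by
    rw [Real.exp_le_exp]
    have h5 : 113 * C₀ * (L * R ^ 2) ≤ C * (L * R ^ 2) :=
      mul_le_mul_of_nonneg_right hC113 (by positivity)
    have h6 : (T : ℝ) * S * R / C ≤ T * S * R / 8 :=
      div_le_div_of_nonneg_left (by positivity) (by norm_num) hC8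
    nlinarith
  exact mul_le_mul (mul_le_mul_of_nonneg_left h3 (by positivity)) h4 (Real.exp_pos _).le
    (by positivity)

end Pool.Agent.Work.MP_8da9ea_nt.CH
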