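import Pool.Agent.Work.MP_8da9ea_nt.CH.Stmts

/-!
# Chudnovsky block, item Theta: a theta function
-/

set_option autoImplicit false

namespace Pool.Agent.Work.MP_8da9ea_nt.CH

open MvPolynomial Filter Topology Pool.Agent.Work.MP_327059_nt.GL Pool.Agent.Work.MP_8da9ea_nt.S
  Pool.Agent.Work.MP_8da9ea_nt.EB

namespace I_Theta

/-- The theta function with zeros on the lattice. -/
noncomputable def Th (τ z : ℂ) : ℂ := jacobiTheta₂ (z + (1 + τ) / 2) τ

lemma Th_diff {τ : ℂ} (hτ : 0 < τ.im) : Differentiable ℂ (Th τ) := by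
  intro z
  have h := differentiableAt_jacobiTheta₂_fst (z + (1 + τ) / 2) hτ
  have h2 : DifferentiableAt ℂ (fun z : ℂ => z + (1 + τ) / 2) z := by fun_prop
  exact DifferentiableAt.comp z h h2

lemma Th_one (τ z : ℂ) : Th τ (z + 1) = Th τ z := by
  unfold Th
  rw [show z + 1 + (1 + τ) / 2 = z + (1 + τ) / 2 + 1 by ring, jacobiTheta₂_add_left]

lemma norm_Th_tau (τ z : ℂ) :
    ‖Th τ (z + τ)‖ = Real.exp (2 * Real.pi * (z.im + τ.im)) * ‖Th τ z‖ := by
  unfold Th
  rw [show z + τ + (1 + τ) / 2 = z + (1 + τ) / 2 + τ by ring, jacobiTheta₂_add_left', norm_mul,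
    Complex.norm_exp]
  congr 2
  have e : -(Real.pi : ℂ) * Complex.I * (τ + 2 * (z + (1 + τ) / 2)) =
      ((-Real.pi : ℝ) : ℂ) * (Complex.I * (2 * (z + τ) + 1)) := by
    push_cast; ring
  rw [e, Complex.re_ofReal_mul]
  simp
  ring

lemma Th_zero (τ : ℂ) : Th τ 0 = 0 := by
  unfold Th
  rw [zero_add]
  have h1 : jacobiTheta₂ ((1 + τ) / 2) τ = jacobiTheta₂ (-((1 + τ) / 2)) τ := by
    rw [jacobiTheta₂_neg_left]
  have h2 : jacobiTheta₂ ((1 + τ) / 2) τ = - jacobiTheta₂ (-((1 + τ) / 2)) τ := by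
    have e : (1 + τ) / 2 = -((1 + τ) / 2) + 1 + τ := by ring
    conv_lhs => rw [e]
    rw [jacobiTheta₂_add_left', jacobiTheta₂_add_left]
    have e2 : -(Real.pi : ℂ) * Complex.I * (τ + 2 * (-((1 + τ) / 2) + 1)) =
        -(Real.pi * Complex.I) := by ring
    rw [e2, Complex.exp_neg, Complex.exp_pi_mul_I]
    norm_num
  rw [← h1] at h2
  have h3 : (2 : ℂ) * jacobiTheta₂ ((1 + τ) / 2) τ = 0 := by linear_combination h2
  simpa using h3

/-- The normalised absolute value. -/
noncomputable def hh (τ z : ℂ) : ℝ :=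
  ‖Th τ z‖ * Real.exp (-(Real.pi * z.im ^ 2 / τ.im + Real.pi * z.im))

lemma hh_one (τ : ℂ) : Function.Periodic (hh τ) 1 := by
  intro z
  unfold hh
  rw [Th_one]
  simp

lemma hh_tau {τ : ℂ} (hτ : 0 < τ.im) : Function.Periodic (hh τ) τ := by
  intro z
  unfold hh
  rw [norm_Th_tau, mul_comm (Real.exp _) ‖Th τ z‖, mul_assoc, ← Real.exp_add]
  congr 2
  rw [Complex.add_im]
  field_simp
  ring

lemma hh_lat {τ : ℂ} (hτ : 0 < τ.im) (z : ℂ) (m n : ℤ) : hh τ (z + (m + n * τ)) = hh τ z := by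
  have h1 := (hh_tau hτ).int_mul n (z + m)
  have h2 := (hh_one τ).int_mul m z
  rw [mul_one] at h2
  rw [← add_assoc, h1, h2]

lemma hh_cont {τ : ℂ} (hτ : 0 < τ.im) : Continuous (hh τ) := by
  unfold hh
  have h := (Th_diff hτ).continuous
  have h2 : Continuous (fun z : ℂ => z.im) := Complex.continuous_im
  fun_prop

lemma norm_Th (τ z : ℂ) :
    ‖Th τ z‖ = hh τ z * Real.exp (Real.pi * z.im ^ 2 / τ.im + Real.pi * z.im) := by
  unfold hh
  rw [mul_assoc, ← Real.exp_add, neg_add_cancel, Real.exp_zero, mul_one]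

lemma hh_bdd {τ : ℂ} (hτ : 0 < τ.im) : ∃ M : ℝ, ∀ z, hh τ z ≤ M := by
  let K : Set ℂ := (fun p : ℝ × ℝ => (p.1 : ℂ) + p.2 * τ) ''
    (Set.Icc (0 : ℝ) 1 ×ˢ Set.Icc (0 : ℝ) 1)
  have hK : IsCompact K := by
    refine (isCompact_Icc.prod isCompact_Icc).image ?_
    fun_prop
  obtain ⟨M, hM⟩ := hK.exists_bound_of_continuousOn (hh_cont hτ).continuousOn
  refine ⟨M, fun z => ?_⟩
  set b : ℝ := z.im / τ.im with hb
  set a : ℝ := z.re - b * τ.re with ha
  have hz : z = (a : ℂ) + b * τ := by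
    apply Complex.ext
    · simp [ha]
    · simp only [Complex.add_im, Complex.ofReal_im, Complex.mul_im, Complex.ofReal_re, zero_mul,
        zero_add, add_zero, hb]
      field_simp
  have hfr : ∀ a : ℝ, (a : ℂ) = ((⌊a⌋ : ℤ) : ℂ) + ((Int.fract a : ℝ) : ℂ) := fun a => by
    have := Int.floor_add_fract a
    exact_mod_cast this.symm
  have e : z = ((Int.fract a : ℝ) : ℂ) + ((Int.fract b : ℝ) : ℂ) * τ + (⌊a⌋ + ⌊b⌋ * τ) := by
    rw [hz]
    conv_lhs => rw [hfr a, hfr b]
    ring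
  rw [e, hh_lat hτ]
  refine le_trans (le_abs_self _) (hM _ ⟨(Int.fract a, Int.fract b), ⟨?_, ?_⟩, rfl⟩)
  · exact ⟨Int.fract_nonneg _, (Int.fract_lt_one _).le⟩
  · exact ⟨Int.fract_nonneg _, (Int.fract_lt_one _).le⟩

lemma theta_ne {τ : ℂ} (hτ : 0 < τ.im) : ∃ x : ℝ, jacobiTheta₂ x τ ≠ 0 := by
  by_contra hcon
  push Not at hcon
  let f : ℤ → C(ℝ, ℂ) := fun n => ⟨fun x => jacobiTheta₂_term n x τ, by
    unfold jacobiTheta₂_term; fun_prop⟩
  have hsum : Summable fun i : ℤ =>
      ‖(f i).restrict (⟨Set.uIcc (0 : ℝ) 1, isCompact_uIcc⟩ : TopologicalSpace.Compacts ℝ)‖ := by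
    have h := summable_pow_mul_jacobiTheta₂_term_bound 0 hτ 0
    refine Summable.of_nonneg_of_le (fun _ => norm_nonneg _) (fun n => ?_) h
    rw [ContinuousMap.norm_le _ (by positivity)]
    intro x
    have := norm_jacobiTheta₂_term_le (S := 0) hτ (z := ((x : ℝ) : ℂ)) (τ := τ) (by simp) le_rfl n
    simpa [f] using this
  have h1 := intervalIntegral.hasSum_intervalIntegral_of_summable_norm hsum
  have h2 : ∀ x : ℝ, (∑' i : ℤ, f i x) = 0 := fun x => hcon x
  simp only [h2, intervalIntegral.integral_zero] at h1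
  have h3 : ∀ n : ℤ, (∫ x in (0 : ℝ)..1, f n x) = if n = 0 then 1 else 0 := by
    intro n
    by_cases hn : n = 0
    · subst hn
      simp [f, jacobiTheta₂_term]
    · rw [if_neg hn]
      have hc : (2 * Real.pi * Complex.I * n : ℂ) ≠ 0 := by
        have : (n : ℂ) ≠ 0 := by exact_mod_cast hn
        have := Complex.two_pi_I_ne_zero
        positivity
      have e : ∀ x : ℝ, f n x = Complex.exp (Real.pi * Complex.I * n ^ 2 * τ) *
          Complex.exp ((2 * Real.pi * Complex.I * n) * x) := by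
        intro x
        show jacobiTheta₂_term n x τ = _
        rw [jacobiTheta₂_term, ← Complex.exp_add]
        congr 1
        ring
      simp only [e]
      rw [intervalIntegral.integral_const_mul, integral_exp_mul_complex hc]
      have e2 : Complex.exp (2 * Real.pi * Complex.I * n * ((1 : ℝ) : ℂ)) = 1 := by
        rw [Complex.exp_eq_one_iff]
        exact ⟨n, by push_cast; ring⟩
      rw [e2]
      simp
  simp only [h3] at h1
  have h4 : HasSum (fun n : ℤ => if n = 0 then (1 : ℂ) else 0) 1 := by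
    have := hasSum_ite_eq (0 : ℤ) (1 : ℂ)
    exact this
  have := h1.unique h4
  exact zero_ne_one this

end I_Theta

open I_Theta in
/-- Item Theta. -/
theorem Theta_pf : S_Theta := by
  intro τ hτ
  have hΘ := Th_diff hτ
  have hev : ∀ᶠ z in 𝓝[≠] (1 / 2 : ℂ), Th τ z ≠ 0 := by
    have hA : AnalyticAt ℂ (Th τ) (1 / 2) := hΘ.analyticAt _
    rcases hA.eventually_eq_zero_or_eventually_ne_zero with h | h
    · exfalso
      obtain ⟨x, hx⟩ := theta_ne hτ
      have hAll : AnalyticOnNhd ℂ (Th τ) Set.univ := fun z _ => hΘ.analyticAt z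
      have h0 := hAll.eqOn_zero_of_preconnected_of_eventuallyEq_zero isPreconnected_univ
        (Set.mem_univ (1 / 2 : ℂ)) h
      have h1 := h0 (Set.mem_univ ((x : ℂ) - (1 + τ) / 2))
      apply hx
      simpa [Th] using h1
    · exact h
  have hhalf : (1 / 2 : ℂ) ∉ Lam τ := by
    rw [mem_Lam]
    rintro ⟨m, n, hmn⟩
    have him := congrArg Complex.im hmn
    have hre := congrArg Complex.re hmn
    simp at him hre
    have hn : (n : ℝ) = 0 := by
      rcases him with h | h
      · exact_mod_cast h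
      · exact absurd h hτ.ne'
    rw [hn] at hre
    have h2 : (1 : ℝ) = 2 * m := by linarith
    have h3 : (1 : ℤ) = 2 * m := by exact_mod_cast h2
    omega
  have hev2 : ∀ᶠ z in 𝓝 (1 / 2 : ℂ), z ∉ Lam τ :=
    (isClosed_Lam hτ).isOpen_compl.mem_nhds hhalf
  rw [eventually_nhdsWithin_iff] at hev
  obtain ⟨ε, hε, hε'⟩ := Metric.eventually_nhds_iff.1 (hev.and hev2)
  set r : ℝ := ε / 2 with hr
  have hr0 : 0 < r := by positivity
  have hrε : r < ε := by linarith
  obtain ⟨M, hM⟩ := hh_bdd hτ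
  -- the lower bound
  have hsc : IsCompact (Metric.sphere (1 / 2 : ℂ) r) := isCompact_sphere _ _
  have hsn : (Metric.sphere (1 / 2 : ℂ) r).Nonempty := NormedSpace.sphere_nonempty.2 hr0.le
  obtain ⟨z0, hz0, hmin⟩ := hsc.exists_isMinOn hsn (hh_cont hτ).continuousOn
  have hm0 : 0 < hh τ z0 := by
    unfold hh
    have : Th τ z0 ≠ 0 := by
      refine (hε' (y := z0) ?_).1 ?_
      · rw [Metric.mem_sphere.1 hz0]; exact hrε
      · rintro rfl
        have := Metric.mem_sphere.1 hz0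
        simp at this
        linarith
    positivity
  set m := hh τ z0 with hm
  have hπ := Real.pi_pos
  -- constants
  set C : ℝ := 1 + |Real.log M| + |Real.log m| + Real.pi / τ.im + Real.pi + Real.pi * r +
    Real.pi * τ.im with hC
  have hp1 : 0 < Real.pi / τ.im := by positivity
  have hp2 : 0 < Real.pi * r := by positivity
  have hp3 : 0 < Real.pi * τ.im := by positivity
  have ha1 := abs_nonneg (Real.log M)
  have ha2 := abs_nonneg (Real.log m)
  refine ⟨Th τ, C, r, by linarith, hr0, hΘ, ?_, ?_, ?_, ?_⟩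
  · intro z
    have hM0 : 0 < M := lt_of_lt_of_le hm0 (hM z0)
    rw [norm_Th]
    calc hh τ z * Real.exp (Real.pi * z.im ^ 2 / τ.im + Real.pi * z.im)
        ≤ Real.exp (Real.log M) * Real.exp (Real.pi * z.im ^ 2 / τ.im + Real.pi * z.im) := by
          rw [Real.exp_log hM0]
          exact mul_le_mul_of_nonneg_right (hM z) (Real.exp_pos _).le
      _ = Real.exp (Real.log M + (Real.pi * z.im ^ 2 / τ.im + Real.pi * z.im)) := by
          rw [← Real.exp_add]
      _ ≤ Real.exp (C * (1 + ‖z‖) ^ 2) := by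
          apply Real.exp_le_exp.2
          have h1 : |z.im| ≤ ‖z‖ := Complex.abs_im_le_norm z
          have h2 : z.im ^ 2 ≤ ‖z‖ ^ 2 := by
            rw [← sq_abs z.im]
            exact pow_le_pow_left₀ (abs_nonneg _) h1 2
          have h3 : z.im ≤ ‖z‖ := le_trans (le_abs_self _) h1
          have h4 := le_abs_self (Real.log M)
          have h5 := norm_nonneg z
          have h6 : Real.pi * z.im ^ 2 / τ.im ≤ Real.pi / τ.im * ‖z‖ ^ 2 := by
            rw [mul_div_right_comm]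
            exact mul_le_mul_of_nonneg_left h2 hp1.le
          have h7 : Real.pi * z.im ≤ Real.pi * ‖z‖ := mul_le_mul_of_nonneg_left h3 hπ.le
          have h8 : (1 : ℝ) ≤ (1 + ‖z‖) ^ 2 := by nlinarith
          have h9 : ‖z‖ ^ 2 ≤ (1 + ‖z‖) ^ 2 := by nlinarith
          have h10 : ‖z‖ ≤ (1 + ‖z‖) ^ 2 := by nlinarith
          have h11 : |Real.log M| ≤ |Real.log M| * (1 + ‖z‖) ^ 2 :=
            le_mul_of_one_le_right ha1 h8
          have h12 : Real.pi / τ.im * ‖z‖ ^ 2 ≤ Real.pi / τ.im * (1 + ‖z‖) ^ 2 :=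
            mul_le_mul_of_nonneg_left h9 hp1.le
          have h13 : Real.pi * ‖z‖ ≤ Real.pi * (1 + ‖z‖) ^ 2 :=
            mul_le_mul_of_nonneg_left h10 hπ.le
          have h14 : 0 ≤ (1 + |Real.log m| + Real.pi * r + Real.pi * τ.im) * (1 + ‖z‖) ^ 2 := by
            positivity
          have h15 : C * (1 + ‖z‖) ^ 2 = |Real.log M| * (1 + ‖z‖) ^ 2 +
              Real.pi / τ.im * (1 + ‖z‖) ^ 2 + Real.pi * (1 + ‖z‖) ^ 2 +
              (1 + |Real.log m| + Real.pi * r + Real.pi * τ.im) * (1 + ‖z‖) ^ 2 := by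
            rw [hC]; ring
          rw [h15]
          linarith
  · intro z hz
    obtain ⟨p, q, rfl⟩ := mem_Lam.1 hz
    have h := hh_lat hτ 0 p q
    rw [zero_add] at h
    have h0 : hh τ 0 = 0 := by unfold hh; rw [Th_zero]; simp
    rw [h0] at h
    unfold hh at h
    have h2 := (mul_eq_zero.1 h).resolve_right (Real.exp_pos _).ne'
    exact norm_eq_zero.1 h2
  · intro z hz
    by_cases hz' : z = 1 / 2
    · rw [hz']; exact hhalf
    · refine (hε' (y := z) ?_).2
      rw [dist_eq_norm]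
      exact lt_of_le_of_lt hz hrε
  · intro n z hz
    have hmz : m ≤ hh τ z := hmin (by rw [Metric.mem_sphere, dist_eq_norm]; exact hz)
    have h := hh_lat hτ z 0 n
    rw [Int.cast_zero, zero_add, Int.cast_natCast] at h
    rw [norm_Th, h]
    set y : ℝ := (z + n * τ).im with hy
    have hy1 : y = z.im + n * τ.im := by simp [hy]
    have hy2 : -r ≤ z.im := by
      have h1 : |(z - 1 / 2).im| ≤ ‖z - 1 / 2‖ := Complex.abs_im_le_norm _
      rw [hz] at h1
      have h2 : (z - 1 / 2).im = z.im := by simp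
      rw [h2] at h1
      exact (abs_le.1 h1).1
    have hn : (0 : ℝ) ≤ n := Nat.cast_nonneg n
    have hy3 : -r ≤ y := by
      rw [hy1]
      have : 0 ≤ (n : ℝ) * τ.im := by positivity
      linarith
    calc Real.exp (-(C * (1 + n) ^ 2)) ≤ Real.exp (Real.log m + (-(Real.pi * r))) := by
          apply Real.exp_le_exp.2
          have h4 := neg_abs_le (Real.log m)
          have h8 : (1 : ℝ) ≤ (1 + n) ^ 2 := by nlinarith
          have h9 : C ≤ C * (1 + n) ^ 2 := le_mul_of_one_le_right (by linarith) h8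
          linarith
      _ = m * Real.exp (-(Real.pi * r)) := by rw [Real.exp_add, Real.exp_log hm0]
      _ ≤ hh τ z * Real.exp (Real.pi * y ^ 2 / τ.im + Real.pi * y) := by
          apply mul_le_mul hmz _ (Real.exp_pos _).le (le_trans hm0.le hmz)
          apply Real.exp_le_exp.2
          have h1 : 0 ≤ Real.pi * y ^ 2 / τ.im := by positivity
          have h2 : Real.pi * (-r) ≤ Real.pi * y := mul_le_mul_of_nonneg_left hy3 hπ.le
          linarith

end Pool.Agent.Work.MP_8da9ea_nt.CH
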