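import Pool.Agent.Work.MP_8da9ea_nt.CH.Stmts
import Pool.Agent.Work.MP_8da9ea_nt.EB.I_AddSiz

/-! Chudnovsky block, item Val: universal integral polynomials for the derivatives. -/

set_option autoImplicit false

namespace Pool.Agent.Work.MP_8da9ea_nt.CH

open MvPolynomial Filter Topology Pool.Agent.Work.MP_327059_nt.GL Pool.Agent.Work.MP_8da9ea_nt.S
  Pool.Agent.Work.MP_8da9ea_nt.EB

namespace I_Val

open Pool.Agent.Work.MP_8da9ea_nt.EB.I_AddSiz

theorem szC {σ : Type} (c : ℤ) : SZ 0 |(c : ℝ)| (C c : MvPolynomial σ ℤ) :=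
  ⟨by rw [totalDegree_C], Val_len_C c⟩

theorem szX {σ : Type} (i : σ) : SZ 1 1 (X i : MvPolynomial σ ℤ) := by
  refine ⟨?_, Val_len_X i⟩
  exact (totalDegree_X (R := ℤ) i).le

theorem szZero {σ : Type} : SZ 0 0 (0 : MvPolynomial σ ℤ) := by
  refine ⟨by simp, ?_⟩
  simp [len]

theorem szSum {σ κ : Type} (s : Finset κ) (f : κ → MvPolynomial σ ℤ) (d : ℕ) (l : κ → ℝ)
    (h : ∀ k ∈ s, SZ d (l k) (f k)) : SZ d (∑ k ∈ s, l k) (∑ k ∈ s, f k) :=
  ⟨totalDegree_finsetSum_le fun k hk => (h k hk).1,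
    (Val_len_sum s f).trans (Finset.sum_le_sum fun k hk => (h k hk).2)⟩

theorem szProd {σ κ : Type} (s : Finset κ) (g : κ → MvPolynomial σ ℤ) (m : κ → ℕ)
    (h : ∀ k ∈ s, SZ 1 1 (g k)) : SZ (∑ k ∈ s, m k) 1 (∏ k ∈ s, g k ^ m k) := by
  classical
  induction s using Finset.induction_on with
  | empty =>
    simp only [Finset.sum_empty, Finset.prod_empty]
    exact ⟨by simp, Val_len_one⟩
  | insert a s ha ih =>
    rw [Finset.sum_insert ha, Finset.prod_insert ha]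
    have h1 := (h a (Finset.mem_insert_self a s)).pow (m a)
    have h2 := ih fun k hk => h k (Finset.mem_insert_of_mem hk)
    have h3 := h1.mul h2
    rw [mul_one, one_pow, mul_one] at h3
    exact h3

/-- substitution of variables or zero -/
theorem szAeval {σ ρ : Type} (g : σ → MvPolynomial ρ ℤ) (hg : ∀ i, SZ 1 1 (g i))
    {P : MvPolynomial σ ℤ} {d : ℕ} {l : ℝ} (hP : SZ d l P) : SZ d l (aeval g P) := by
  have h1 : aeval g P = ∑ m ∈ P.support, C (P.coeff m) * ∏ i ∈ m.support, g i ^ m i := by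
    conv_lhs => rw [P.as_sum, map_sum]
    refine Finset.sum_congr rfl fun m _ => ?_
    rw [aeval_monomial]
    rfl
  have h2 := szSum P.support (fun m => C (P.coeff m) * ∏ i ∈ m.support, g i ^ m i) d
    (fun m => |((P.coeff m : ℤ) : ℝ)|) (by
      intro m hm
      have h3 := (szC (σ := ρ) (P.coeff m)).mul (szProd m.support g m fun k _ => hg k)
      rw [mul_one, zero_add] at h3
      exact h3.mono ((le_totalDegree hm).trans hP.1) le_rfl)
  rw [h1]
  exact h2.mono le_rfl hP.2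

/-- size of a derivation -/
theorem szDer {σ : Type} (f : σ → MvPolynomial σ ℤ) (hf : ∀ i, SZ 2 7 (f i))
    {P : MvPolynomial σ ℤ} {d : ℕ} {l : ℝ} (hP : SZ d l P) :
    SZ (d + 1) (7 * d * l) (mkDerivation ℤ f P) := by
  classical
  have h1 : mkDerivation ℤ f P = ∑ m ∈ P.support, ∑ i ∈ m.support,
      C (P.coeff m) * (monomial (m - Finsupp.single i 1) ((m i : ℕ) : ℤ) * f i) := by
    conv_lhs => rw [P.as_sum, map_sum]
    refine Finset.sum_congr rfl fun m _ => ?_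
    rw [mkDerivation_monomial, Finsupp.sum, Finset.smul_sum]
    refine Finset.sum_congr rfl fun i _ => ?_
    rw [smul_eq_mul, smul_eq_C_mul]
  have h2 := szSum P.support (fun m => ∑ i ∈ m.support,
      C (P.coeff m) * (monomial (m - Finsupp.single i 1) ((m i : ℕ) : ℤ) * f i)) (d + 1)
    (fun m => 7 * d * |((P.coeff m : ℤ) : ℝ)|) (by
      intro m hm
      have hdeg : (m.sum fun _ e => e) ≤ d := (le_totalDegree hm).trans hP.1
      have h3 := szSum m.support (fun i => C (P.coeff m) *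
        (monomial (m - Finsupp.single i 1) ((m i : ℕ) : ℤ) * f i)) (d + 1)
        (fun i => |((P.coeff m : ℤ) : ℝ)| * ((m i : ℝ) * 7)) (by
          intro i hi
          have hmi : 1 ≤ m i := Nat.one_le_iff_ne_zero.2 (Finsupp.mem_support_iff.1 hi)
          have e1 : (m - Finsupp.single i 1) + Finsupp.single i 1 = m :=
            tsub_add_cancel_of_le (Finsupp.single_le_iff.2 hmi)
          have e2 : ((m - Finsupp.single i 1).sum fun _ e => e) + 1 = m.sum fun _ e => e := by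
            conv_rhs => rw [← e1]
            rw [Finsupp.sum_add_index' (fun _ => rfl) (fun _ _ _ => rfl)]
            simp
          have s1 : SZ (d - 1) (m i : ℝ)
              (monomial (m - Finsupp.single i 1) ((m i : ℕ) : ℤ) : MvPolynomial σ ℤ) := by
            have e3 : ((m - Finsupp.single i 1).sum fun _ e => e) ≤ d - 1 := by omega
            refine ⟨(totalDegree_monomial_le _ _).trans e3, (Val_len_monomial _ _).trans ?_⟩
            simp
          have s2 := (szC (σ := σ) (P.coeff m)).mul (s1.mul (hf i))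
          refine s2.mono ?_ le_rfl
          omega)
      refine h3.mono le_rfl ?_
      rw [← Finset.mul_sum, ← Finset.sum_mul]
      have e3 : ∑ i ∈ m.support, (m i : ℝ) ≤ d := by
        have : ∑ i ∈ m.support, m i ≤ d := hdeg
        exact_mod_cast this
      have h4 := abs_nonneg ((P.coeff m : ℤ) : ℝ)
      nlinarith)
  rw [h1]
  refine h2.mono le_rfl ?_
  rw [← Finset.mul_sum]
  exact mul_le_mul_of_nonneg_left hP.2 (by positivity)

/-- the vector field -/
noncomputable def vf : Fin 6 → MvPolynomial (Fin 6) ℤ :=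
  ![0, 0, X 4, 0, C 6 * X 2 ^ 2 - X 3, -(X 2 + X 0)]

/-- the derivation -/
noncomputable def DD : Derivation ℤ (MvPolynomial (Fin 6) ℤ) (MvPolynomial (Fin 6) ℤ) :=
  mkDerivation ℤ vf

theorem szvf (i : Fin 6) : SZ 2 7 (vf i) := by
  have h0 : SZ 2 7 (0 : MvPolynomial (Fin 6) ℤ) := szZero.mono (by norm_num) (by norm_num)
  have h2 : SZ 2 7 (X 4 : MvPolynomial (Fin 6) ℤ) := (szX 4).mono (by norm_num) (by norm_num)
  have h4 : SZ 2 7 (C 6 * X 2 ^ 2 - X 3 : MvPolynomial (Fin 6) ℤ) := by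
    have e1 := (szC (σ := Fin 6) 6).mul ((szX (σ := Fin 6) 2).pow 2)
    have e2 := (e1.mono (d' := 2) (l' := 6) (by norm_num) (by norm_num)).sub
      ((szX (σ := Fin 6) 3).mono (d' := 2) (l' := 1) (by norm_num) le_rfl)
    exact e2.mono le_rfl (by norm_num)
  have h5 : SZ 2 7 (-(X 2 + X 0) : MvPolynomial (Fin 6) ℤ) :=
    (((szX (σ := Fin 6) 2).add (szX (σ := Fin 6) 0)).neg).mono (by norm_num) (by norm_num)
  fin_cases i
  · exact h0
  · exact h0
  · exact h2
  · exact h0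
  · exact h4
  · exact h5

/-- the starting polynomial -/
noncomputable def P0 (n a b : ℕ) : MvPolynomial (Fin 6) ℤ :=
  X 2 ^ a * (X 5 - C (n : ℤ) * X 1) ^ b

theorem szP0 (n a b : ℕ) : SZ (a + b) (((n : ℝ) + 1) ^ b) (P0 n a b) := by
  have e1 := (szC (σ := Fin 6) (n : ℤ)).mul (szX (σ := Fin 6) 1)
  have e2 := (szX (σ := Fin 6) 5).sub (e1.mono (d' := 1) (l' := (n : ℝ)) (by norm_num) (by simp))
  have e3 := ((szX (σ := Fin 6) 2).pow a).mul (e2.pow b)
  refine e3.mono (by omega) (le_of_eq ?_)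
  rw [one_pow, one_mul, add_comm]

theorem szIter (t n a b : ℕ) : ∀ j ≤ t, SZ (a + b + j)
    ((10 * (a + b + t : ℝ)) ^ j * ((n : ℝ) + 1) ^ b) (DD^[j] (P0 n a b)) := by
  intro j
  induction j with
  | zero =>
    intro _
    simpa using szP0 n a b
  | succ j ih =>
    intro hj
    have h1 := szDer vf szvf (ih (by omega))
    rw [Function.iterate_succ_apply']
    refine SZ.mono h1 (by omega) ?_
    rw [pow_succ]
    have h2 : (j : ℝ) ≤ t := by exact_mod_cast (show j ≤ t by omega)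
    have h3 : 7 * ((a + b + j : ℕ) : ℝ) ≤ 10 * (a + b + t : ℝ) := by
      push_cast
      have : (0 : ℝ) ≤ a + b + j := by positivity
      linarith
    have h4 : 0 ≤ (10 * (a + b + t : ℝ)) ^ j * ((n : ℝ) + 1) ^ b := by positivity
    calc 7 * ((a + b + j : ℕ) : ℝ) * ((10 * (a + b + t : ℝ)) ^ j * ((n : ℝ) + 1) ^ b)
        ≤ 10 * (a + b + t : ℝ) * ((10 * (a + b + t : ℝ)) ^ j * ((n : ℝ) + 1) ^ b) :=
          mul_le_mul_of_nonneg_right h3 h4
      _ = (10 * (a + b + t : ℝ)) ^ j * (10 * (a + b + t : ℝ)) * ((n : ℝ) + 1) ^ b := by ring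

/-- the point -/
noncomputable def pz (τ μ θ₁ θ₂ s : ℂ) : Fin 6 → ℂ :=
  ![θ₁, θ₂, xg τ μ s, μ ^ 4 * gg2 τ / 2, yg τ μ s, wg τ μ θ₁ s]

theorem hasDeriv {τ μ θ₁ θ₂ s : ℂ} (h1 : HasDerivAt (xg τ μ) (yg τ μ s) s)
    (h2 : HasDerivAt (yg τ μ) (6 * xg τ μ s ^ 2 - μ ^ 4 * gg2 τ / 2) s)
    (h3 : HasDerivAt (wg τ μ θ₁) (-xg τ μ s - θ₁) s) (P : MvPolynomial (Fin 6) ℤ) :
    HasDerivAt (fun s => aeval (pz τ μ θ₁ θ₂ s) P) (aeval (pz τ μ θ₁ θ₂ s) (DD P)) s := by
  have hc : ∀ i : Fin 6, HasDerivAt (fun s => pz τ μ θ₁ θ₂ s i)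
      (aeval (pz τ μ θ₁ θ₂ s) (vf i)) s := by
    intro i
    fin_cases i
    · have : aeval (pz τ μ θ₁ θ₂ s) (vf 0) = 0 := by simp [vf]
      show HasDerivAt (fun _ => θ₁) (aeval (pz τ μ θ₁ θ₂ s) (vf 0)) s
      rw [this]
      exact hasDerivAt_const s θ₁
    · have : aeval (pz τ μ θ₁ θ₂ s) (vf 1) = 0 := by simp [vf]
      show HasDerivAt (fun _ => θ₂) (aeval (pz τ μ θ₁ θ₂ s) (vf 1)) s
      rw [this]
      exact hasDerivAt_const s θ₂
    · have : aeval (pz τ μ θ₁ θ₂ s) (vf 2) = yg τ μ s := by simp [vf, pz]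
      show HasDerivAt (xg τ μ) (aeval (pz τ μ θ₁ θ₂ s) (vf 2)) s
      rw [this]
      exact h1
    · have : aeval (pz τ μ θ₁ θ₂ s) (vf 3) = 0 := by simp [vf]
      show HasDerivAt (fun _ => μ ^ 4 * gg2 τ / 2) (aeval (pz τ μ θ₁ θ₂ s) (vf 3)) s
      rw [this]
      exact hasDerivAt_const s _
    · have : aeval (pz τ μ θ₁ θ₂ s) (vf 4) = 6 * xg τ μ s ^ 2 - μ ^ 4 * gg2 τ / 2 := by
        simp [vf, pz]
      show HasDerivAt (yg τ μ) (aeval (pz τ μ θ₁ θ₂ s) (vf 4)) s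
      rw [this]
      exact h2
    · have : aeval (pz τ μ θ₁ θ₂ s) (vf 5) = -xg τ μ s - θ₁ := by
        simp [vf, pz]
        ring
      show HasDerivAt (wg τ μ θ₁) (aeval (pz τ μ θ₁ θ₂ s) (vf 5)) s
      rw [this]
      exact h3
  induction P using MvPolynomial.induction_on with
  | C c =>
    have e1 : DD (C c) = 0 := by
      exact derivation_C DD c
    rw [e1, map_zero]
    simp only [aeval_C]
    exact hasDerivAt_const s _
  | add p q hp hq =>
    simp only [map_add]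
    exact hp.add hq
  | mul_X p i hp =>
    have e1 : DD (p * X i) = p * vf i + X i * DD p := by
      rw [Derivation.leibniz, smul_eq_mul, smul_eq_mul]
      congr 2
      exact mkDerivation_X ℤ vf i
    rw [e1]
    simp only [map_mul, map_add, aeval_X]
    have h4 := hp.mul (hc i)
    refine h4.congr_deriv ?_
    ring

theorem iter {τ μ θ₁ θ₂ : ℂ} {r : ℝ}
    (h : ∀ s : ℂ, ‖s‖ < r → HasDerivAt (xg τ μ) (yg τ μ s) s ∧
      HasDerivAt (yg τ μ) (6 * xg τ μ s ^ 2 - μ ^ 4 * gg2 τ / 2) s ∧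
      HasDerivAt (wg τ μ θ₁) (-xg τ μ s - θ₁) s) (P : MvPolynomial (Fin 6) ℤ) (t : ℕ) :
    ∀ s : ℂ, ‖s‖ < r → iteratedDeriv t (fun s => aeval (pz τ μ θ₁ θ₂ s) P) s =
      aeval (pz τ μ θ₁ θ₂ s) (DD^[t] P) := by
  induction t with
  | zero =>
    intro s _
    rw [iteratedDeriv_zero]
    rfl
  | succ t ih =>
    intro s hs
    rw [iteratedDeriv_succ, Function.iterate_succ_apply']
    have h1 : iteratedDeriv t (fun s => aeval (pz τ μ θ₁ θ₂ s) P) =ᶠ[𝓝 s]
        fun s => aeval (pz τ μ θ₁ θ₂ s) (DD^[t] P) := by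
      have h2 : Metric.ball (0 : ℂ) r ∈ 𝓝 s := Metric.isOpen_ball.mem_nhds (by
        rw [mem_ball_zero_iff]
        exact hs)
      filter_upwards [h2] with s' hs'
      rw [mem_ball_zero_iff] at hs'
      exact ih s' hs'
    rw [h1.deriv_eq]
    obtain ⟨e1, e2, e3⟩ := h s hs
    exact (hasDeriv e1 e2 e3 _).deriv

/-- the substitution -/
noncomputable def sb : Fin 6 → MvPolynomial (Fin 4) ℤ := ![X 0, X 1, X 2, X 3, 0, 0]

theorem szsb (i : Fin 6) : SZ 1 1 (sb i) := by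
  have h0 : SZ 1 1 (0 : MvPolynomial (Fin 4) ℤ) := szZero.mono (by norm_num) (by norm_num)
  fin_cases i
  · exact szX 0
  · exact szX 1
  · exact szX 2
  · exact szX 3
  · exact h0
  · exact h0

end I_Val

open I_Val

/-- **Item Val.** -/
theorem Val_pf (hBas : S_Bas) : S_Val := by
  intro t n a b
  have hsz := szAeval sb szsb (szIter t n a b t le_rfl)
  refine ⟨aeval sb (DD^[t] (P0 n a b)), hsz.1, hsz.2, ?_⟩
  intro τ μ θ₁ θ₂ hτ hμ
  obtain ⟨⟨r, hr, hr'⟩, hx0, hy0, hw0, _⟩ := hBas τ μ hτ hμ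
  have h1 := iter (τ := τ) (μ := μ) (θ₁ := θ₁) (θ₂ := θ₂) (fun s hs => by
    obtain ⟨_, e1, e2, e3, _⟩ := hr' θ₁ s hs
    exact ⟨e1, e2, e3⟩) (P0 n a b) t 0 (by simpa using hr)
  have h2 : (fun s => aeval (pz τ μ θ₁ θ₂ s) (P0 n a b)) =
      fun s => xg τ μ s ^ a * (wg τ μ θ₁ s - n * θ₂) ^ b := by
    funext s
    simp [P0, pz]
  rw [h2] at h1
  rw [h1, comp_aeval_apply]
  congr 2
  funext i
  fin_cases i
  · simp [pz, sb]
  · simp [pz, sb]
  · simp [pz, sb, hx0]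
  · simp [pz, sb]
  · simp [pz, sb, hy0]
  · simp [pz, sb, hw0]

end Pool.Agent.Work.MP_8da9ea_nt.CH
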