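import Pool.Agent.Work.MP_8da9ea_nt.CH.Stmts

/-!
Z6: the zero estimate.
-/

set_option autoImplicit false

namespace Pool.Agent.Work.MP_8da9ea_nt.CH

open MvPolynomial Filter Topology Pool.Agent.Work.MP_327059_nt.GL Pool.Agent.Work.MP_8da9ea_nt.S
  Pool.Agent.Work.MP_8da9ea_nt.EB

namespace I_Zero

variable {τ μ θ₁ θ₂ : ℂ} {n : ℕ}

theorem fg_add (P Q : MvPolynomial (Fin 2) ℂ) :
    fg τ μ θ₁ θ₂ n (P + Q) = fg τ μ θ₁ θ₂ n P + fg τ μ θ₁ θ₂ n Q := by
  funext s; simp [fg]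

theorem fg_mul (P Q : MvPolynomial (Fin 2) ℂ) :
    fg τ μ θ₁ θ₂ n (P * Q) = fg τ μ θ₁ θ₂ n P * fg τ μ θ₁ θ₂ n Q := by
  funext s; simp [fg]

theorem xg_an (h : S_Bas) (hτ : 0 < τ.im) (hμ : μ ≠ 0) : AnalyticAt ℂ (xg τ μ) 0 := by
  obtain ⟨⟨r, hr, hd⟩, -⟩ := h τ μ hτ hμ
  have h1 : DifferentiableOn ℂ (xg τ μ) (Metric.ball 0 r) := by
    intro s hs
    exact (hd 0 s (by simpa using hs)).2.1.differentiableAt.differentiableWithinAt
  exact h1.analyticAt (Metric.ball_mem_nhds 0 hr)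

theorem wg_an (h : S_Bas) (hτ : 0 < τ.im) (hμ : μ ≠ 0) : AnalyticAt ℂ (wg τ μ θ₁) 0 := by
  obtain ⟨⟨r, hr, hd⟩, -⟩ := h τ μ hτ hμ
  have h1 : DifferentiableOn ℂ (wg τ μ θ₁) (Metric.ball 0 r) := by
    intro s hs
    exact (hd θ₁ s (by simpa using hs)).2.2.2.1.differentiableAt.differentiableWithinAt
  exact h1.analyticAt (Metric.ball_mem_nhds 0 hr)

theorem fg_an (h : S_Bas) (hτ : 0 < τ.im) (hμ : μ ≠ 0) (P : MvPolynomial (Fin 2) ℂ) :
    AnalyticAt ℂ (fg τ μ θ₁ θ₂ n P) 0 := by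
  induction P using MvPolynomial.induction_on with
  | C a =>
    have : fg τ μ θ₁ θ₂ n (C a) = fun _ => a := by funext s; simp [fg]
    rw [this]; exact analyticAt_const
  | add p q hp hq => rw [fg_add]; exact hp.add hq
  | mul_X p i hp =>
    rw [fg_mul]
    refine hp.mul ?_
    fin_cases i
    · have : fg τ μ θ₁ θ₂ n (X 0) = xg τ μ := by funext s; simp [fg]
      simpa [this] using xg_an h hτ hμ
    · have : fg τ μ θ₁ θ₂ n (X 1) = fun s => wg τ μ θ₁ s - n * θ₂ := by funext s; simp [fg]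
      have h2 : AnalyticAt ℂ (fun s => wg τ μ θ₁ s - n * θ₂) 0 :=
        (wg_an h hτ hμ).sub analyticAt_const
      simpa [this] using h2

theorem og_mul (h : S_Bas) (hτ : 0 < τ.im) (hμ : μ ≠ 0) (P Q : MvPolynomial (Fin 2) ℂ) :
    og τ μ θ₁ θ₂ n (P * Q) = og τ μ θ₁ θ₂ n P + og τ μ θ₁ θ₂ n Q := by
  unfold og
  rw [fg_mul]
  exact analyticOrderAt_mul (fg_an h hτ hμ P) (fg_an h hτ hμ Q)

theorem og_one : og τ μ θ₁ θ₂ n 1 = 0 := by
  unfold og
  have : fg τ μ θ₁ θ₂ n 1 = fun _ => 1 := by funext s; simp [fg]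
  rw [this, analyticOrderAt_eq_zero]
  right; norm_num

theorem og_unit (h : S_Bas) (hτ : 0 < τ.im) (hμ : μ ≠ 0) {u : MvPolynomial (Fin 2) ℂ}
    (hu : IsUnit u) : og τ μ θ₁ θ₂ n u = 0 := by
  obtain ⟨v, hv⟩ := hu.exists_right_inv
  have h1 := og_mul (θ₁ := θ₁) (θ₂ := θ₂) (n := n) h hτ hμ u v
  rw [hv, og_one] at h1
  exact (add_eq_zero.mp h1.symm).1

/-- `x(s) - e` has order at most `2`. -/
theorem ord_x (h : S_Bas) (hτ : 0 < τ.im) (hμ : μ ≠ 0) :
    analyticOrderAt (fun s => xg τ μ s - xe τ μ (1 / 2)) 0 ≤ 2 := by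
  have hx := xg_an h hτ hμ
  obtain ⟨⟨r, hr, hd⟩, -, -, -, hne⟩ := h τ μ hτ hμ
  by_contra hcon
  rw [not_le] at hcon
  have h3 : ((3 : ℕ) : ℕ∞) ≤ analyticOrderAt (fun s => xg τ μ s - xe τ μ (1 / 2)) 0 := by
    have h30 := Order.add_one_le_of_lt hcon
    have e30 : ((3 : ℕ) : ℕ∞) = 2 + 1 := by norm_num
    rw [e30]
    exact h30
  have hxe : AnalyticAt ℂ (fun s => xg τ μ s - xe τ μ (1 / 2)) 0 := hx.sub analyticAt_const
  rw [natCast_le_analyticOrderAt_iff_iteratedDeriv_eq_zero hxe] at h3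
  have h4 := h3 2 (by norm_num)
  have e1 : deriv (fun s => xg τ μ s - xe τ μ (1 / 2)) =ᶠ[𝓝 0] yg τ μ := by
    filter_upwards [Metric.ball_mem_nhds (0 : ℂ) hr] with s hs
    have := (hd 0 s (by simpa using hs)).2.1.sub_const (xe τ μ (1 / 2))
    exact this.deriv
  have e2 : deriv (deriv (fun s => xg τ μ s - xe τ μ (1 / 2))) 0 = deriv (yg τ μ) 0 :=
    e1.deriv_eq
  have e3 : deriv (yg τ μ) 0 = 6 * xg τ μ 0 ^ 2 - μ ^ 4 * gg2 τ / 2 :=
    (hd 0 0 (by simpa using hr)).2.2.1.deriv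
  have e4 : iteratedDeriv 2 (fun s => xg τ μ s - xe τ μ (1 / 2)) 0 =
      deriv (deriv (fun s => xg τ μ s - xe τ μ (1 / 2))) 0 := by
    rw [iteratedDeriv_succ, iteratedDeriv_one]
  have e5 : xg τ μ 0 = xe τ μ (1 / 2) := by unfold xg; simp
  rw [e4, e2, e3, e5] at h4
  exact hne h4

theorem eval_eq_of_deg (P : MvPolynomial (Fin 2) ℂ) (hP : P.degreeOf 1 = 0) (x w : ℂ) :
    eval ![x, w] P = Polynomial.eval x (aeval ![Polynomial.X, 0] P) := by
  have h1 : Polynomial.eval x (aeval ![Polynomial.X, 0] P) = eval ![x, 0] P := by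
    induction P using MvPolynomial.induction_on' with
    | monomial u a =>
      simp [aeval_monomial, eval_monomial, Finsupp.prod_fintype]
    | add p q hp hq =>
      rw [map_add, Polynomial.eval_add, map_add]
      have e1 : ∀ (p : MvPolynomial (Fin 2) ℂ), Polynomial.eval x (aeval ![Polynomial.X, 0] p)
          = eval ![x, 0] p := by
        intro p
        induction p using MvPolynomial.induction_on with
        | C a => simp
        | add p q hp hq => rw [map_add, Polynomial.eval_add, map_add, hp, hq]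
        | mul_X p i hp =>
          rw [map_mul, Polynomial.eval_mul, map_mul, hp]
          fin_cases i <;> simp
      rw [e1, e1]
  rw [h1, eval_eq', eval_eq']
  apply Finset.sum_congr rfl
  intro m hm
  have h2 : m 1 = 0 := by
    have := monomial_le_degreeOf 1 hm
    omega
  simp [Fin.prod_univ_two, h2]

theorem natDeg (P : MvPolynomial (Fin 2) ℂ) :
    (aeval ![Polynomial.X, 0] P : Polynomial ℂ).natDegree ≤ P.degreeOf 0 := by
  rw [aeval_def, eval₂_eq']
  apply Polynomial.natDegree_sum_le_of_forall_le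
  intro m hm
  rw [Fin.prod_univ_two]
  simp only [Matrix.cons_val_zero, Matrix.cons_val_one]
  have h1 := monomial_le_degreeOf 0 hm
  have e : (algebraMap ℂ (Polynomial ℂ)) (coeff m P) = Polynomial.C (coeff m P) := rfl
  rw [e]
  rcases Nat.eq_zero_or_pos (m 1) with h0 | h0
  · rw [h0, pow_zero, mul_one]
    exact (Polynomial.natDegree_C_mul_X_pow_le _ _).trans h1
  · rw [zero_pow (by omega)]
    simp

theorem og_uni (h : S_Bas) (hτ : 0 < τ.im) (hμ : μ ≠ 0) {P : MvPolynomial (Fin 2) ℂ}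
    (hP0 : P ≠ 0) (hP : P.degreeOf 1 = 0) :
    og τ μ θ₁ θ₂ n P ≤ ((2 * P.degreeOf 0 : ℕ) : ℕ∞) := by
  set p : Polynomial ℂ := aeval ![Polynomial.X, 0] P with hp
  set e := xe τ μ (1 / 2) with he
  have hx := xg_an h hτ hμ
  have hp0 : p ≠ 0 := by
    intro h0
    apply hP0
    apply MvPolynomial.funext
    intro v
    have : v = ![v 0, v 1] := by
      funext i; fin_cases i <;> rfl
    rw [this, eval_eq_of_deg P hP, ← hp, h0]
    simp
  obtain ⟨q, hq, hnd⟩ := Polynomial.exists_eq_pow_rootMultiplicity_mul_and_not_dvd p hp0 e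
  have hqe : q.eval e ≠ 0 := fun h0 => hnd (Polynomial.dvd_iff_isRoot.mpr h0)
  have h1 : fg τ μ θ₁ θ₂ n P =
      (fun s => xg τ μ s - e) ^ (p.rootMultiplicity e) * (fun s => q.eval (xg τ μ s)) := by
    funext s
    unfold fg
    rw [eval_eq_of_deg P hP, ← hp]
    conv_lhs => rw [hq]
    simp
  have hxe : AnalyticAt ℂ (fun s => xg τ μ s - e) 0 := hx.sub analyticAt_const
  have hqx : AnalyticAt ℂ (fun s => q.eval (xg τ μ s)) 0 := by
    have : AnalyticAt ℂ (fun z => q.eval z) (xg τ μ 0) := by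
      have := AnalyticOnNhd.aeval_polynomial (𝕜 := ℂ) (f := fun z : ℂ => z) (s := Set.univ)
        (analyticOnNhd_id) q
      simpa [Polynomial.aeval_def, Polynomial.eval₂_eq_eval_map] using this (xg τ μ 0) trivial
    exact this.comp hx
  have e0 : xg τ μ 0 = e := by rw [he]; unfold xg; simp
  have hq0 : analyticOrderAt (fun s => q.eval (xg τ μ s)) 0 = 0 := by
    rw [hqx.analyticOrderAt_eq_zero]
    simpa [e0] using hqe
  unfold og
  rw [h1, analyticOrderAt_mul (hxe.pow _) hqx, hq0, add_zero, analyticOrderAt_pow hxe]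
  have h2 := ord_x h hτ hμ
  rw [← he] at h2
  have h3 : p.rootMultiplicity e ≤ P.degreeOf 0 := by
    rw [← Polynomial.count_roots]
    exact (Multiset.count_le_card _ _).trans ((Polynomial.card_roots' p).trans (natDeg P))
  calc p.rootMultiplicity e • analyticOrderAt (fun s => xg τ μ s - e) 0
      ≤ p.rootMultiplicity e • (2 : ℕ∞) := nsmul_le_nsmul_right h2 _
    _ = ((2 * p.rootMultiplicity e : ℕ) : ℕ∞) := by
        rw [nsmul_eq_mul]; push_cast; ring
    _ ≤ ((2 * P.degreeOf 0 : ℕ) : ℕ∞) := by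
        exact_mod_cast Nat.mul_le_mul_left 2 h3

end I_Zero

open I_Zero

theorem Zero_pf (h1 : S_FinO) (h2 : S_Mult) (h3 : S_Bas) : S_Zero := by
  intro τ μ θ₁ θ₂ hτ hμ hθ P L S T hP0 ha hb hT
  have key : ∀ Q : MvPolynomial (Fin 2) ℂ, Q ≠ 0 →
      ∑ n ∈ Finset.range (S + 1), (og τ μ θ₁ θ₂ n Q).toNat ≤
        2 * Q.degreeOf 0 * (S + 1) + 8 * Q.degreeOf 0 * Q.degreeOf 1 + 5 * Q.degreeOf 1 := by
    intro Q
    induction Q using WfDvdMonoid.induction_on_irreducible with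
    | zero => intro h; exact absurd rfl h
    | unit u hu =>
      intro _
      rw [Finset.sum_eq_zero]
      · exact Nat.zero_le _
      · intro n _
        rw [og_unit h3 hτ hμ hu]
        rfl
    | mul Q i hQ hi ih =>
      intro _
      have hi0 := hi.ne_zero
      have hsum : ∑ n ∈ Finset.range (S + 1), (og τ μ θ₁ θ₂ n (i * Q)).toNat =
          ∑ n ∈ Finset.range (S + 1), (og τ μ θ₁ θ₂ n i).toNat +
          ∑ n ∈ Finset.range (S + 1), (og τ μ θ₁ θ₂ n Q).toNat := by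
        rw [← Finset.sum_add_distrib]
        apply Finset.sum_congr rfl
        intro n _
        rw [og_mul h3 hτ hμ]
        exact ENat.toNat_add (h1 τ μ θ₁ θ₂ hτ hμ n i hi0) (h1 τ μ θ₁ θ₂ hτ hμ n Q hQ)
      have hi1 : ∑ n ∈ Finset.range (S + 1), (og τ μ θ₁ θ₂ n i).toNat ≤
          2 * i.degreeOf 0 * (S + 1) + 8 * i.degreeOf 0 * i.degreeOf 1 + 5 * i.degreeOf 1 := by
        by_cases hd : i.degreeOf 1 = 0
        · have : ∑ n ∈ Finset.range (S + 1), (og τ μ θ₁ θ₂ n i).toNat ≤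
              ∑ _n ∈ Finset.range (S + 1), 2 * i.degreeOf 0 := by
            apply Finset.sum_le_sum
            intro n _
            have := og_uni (θ₁ := θ₁) (θ₂ := θ₂) (n := n) h3 hτ hμ hi0 hd
            exact ENat.toNat_le_of_le_coe this
          rw [Finset.sum_const, Finset.card_range, smul_eq_mul] at this
          nlinarith
        · have := h2 τ μ θ₁ θ₂ hτ hμ hθ i hi hd (Finset.range (S + 1))
          omega
      rw [hsum, degreeOf_mul_eq hi0 hQ, degreeOf_mul_eq hi0 hQ]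
      have h5 := ih hQ
      have h6 : 2 * (i.degreeOf 0 + Q.degreeOf 0) * (S + 1) +
          8 * (i.degreeOf 0 + Q.degreeOf 0) * (i.degreeOf 1 + Q.degreeOf 1) +
          5 * (i.degreeOf 1 + Q.degreeOf 1) =
          (2 * i.degreeOf 0 * (S + 1) + 8 * i.degreeOf 0 * i.degreeOf 1 + 5 * i.degreeOf 1) +
          (2 * Q.degreeOf 0 * (S + 1) + 8 * Q.degreeOf 0 * Q.degreeOf 1 + 5 * Q.degreeOf 1) +
          8 * (i.degreeOf 0 * Q.degreeOf 1 + Q.degreeOf 0 * i.degreeOf 1) := by ring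
      rw [h6]
      omega
  have h7 := key P hP0
  have h8 : (S + 1) * T ≤ ∑ n ∈ Finset.range (S + 1), (og τ μ θ₁ θ₂ n P).toNat := by
    calc (S + 1) * T = ∑ _n ∈ Finset.range (S + 1), T := by simp
      _ ≤ _ := by
        apply Finset.sum_le_sum
        intro n hn
        have h9 := hT n (by have := Finset.mem_range.mp hn; omega)
        have h10 := ENat.toNat_le_toNat h9 (h1 τ μ θ₁ θ₂ hτ hμ n P hP0)
        simpa using h10
  calc (S + 1) * T ≤ _ := h8
    _ ≤ _ := h7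
    _ ≤ 2 * L * (S + 1) + 8 * L * L + 5 * L := by gcongr
    _ = 2 * L * (S + 1) + 8 * L ^ 2 + 5 * L := by ring

end Pool.Agent.Work.MP_8da9ea_nt.CH
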