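import Pool.Agent.Work.MP_8da9ea_nt.CH.I_Bas
import Pool.Agent.Work.MP_8da9ea_nt.CH.I_Val
import Pool.Agent.Work.MP_8da9ea_nt.CH.I_Theta
import Pool.Agent.Work.MP_8da9ea_nt.CH.I_Grow
import Pool.Agent.Work.MP_8da9ea_nt.CH.I_Schw
import Pool.Agent.Work.MP_8da9ea_nt.CH.I_Rep
import Pool.Agent.Work.MP_8da9ea_nt.CH.I_SiegX
import Pool.Agent.Work.MP_8da9ea_nt.CH.I_Gcd
import Pool.Agent.Work.MP_8da9ea_nt.CH.I_SiegT
import Pool.Agent.Work.MP_8da9ea_nt.CH.I_Ind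
import Pool.Agent.Work.MP_8da9ea_nt.CH.I_FinO
import Pool.Agent.Work.MP_8da9ea_nt.CH.I_NonInv
import Pool.Agent.Work.MP_8da9ea_nt.CH.I_Bez
import Pool.Agent.Work.MP_8da9ea_nt.CH.I_Low
import Pool.Agent.Work.MP_8da9ea_nt.CH.I_Mult
import Pool.Agent.Work.MP_8da9ea_nt.CH.I_Zero
import Pool.Agent.Work.MP_8da9ea_nt.CH.I_Small
import Pool.Agent.Work.MP_8da9ea_nt.CH.I_Aux
import Pool.Agent.Work.MP_8da9ea_nt.CH.I_Chud
import Pool.Agent.Work.MP_8da9ea_nt.CH.I_Period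
import Pool.Agent.Work.MP_8da9ea_nt.CH.I_BaseCM
import Pool.Agent.Work.MP_8da9ea_nt.EB.I_WpUp
import Pool.Agent.Work.MP_8da9ea_nt.EB.I_Norm
import Pool.Agent.Work.MP_327059_nt.GL.Asm

/-!
# Chudnovsky block: assembly. `tr.deg` of the period field is at least two when `j` is algebraic
-/

set_option autoImplicit false

namespace Pool.Agent.Work.MP_8da9ea_nt.CH

theorem x_Bas : S_Bas := Bas_pf
theorem x_Val : S_Val := Val_pf x_Bas
theorem x_Grow : S_Grow := Grow_pf Theta_pf EB.WpUp_pf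
theorem x_Small : S_Small := Small_pf x_Grow Schw_pf x_Bas
theorem x_SiegT : S_SiegT := SiegT_pf Rep_pf SiegX_pf Gcd_pf
theorem x_FinO : S_FinO := FinO_pf Ind_pf x_Bas
theorem x_Mult : S_Mult :=
  Mult_pf x_Bas x_FinO (NonInv_pf Ind_pf) Bez_pf (Low_pf x_Bas x_FinO)
theorem x_Zero : S_Zero := Zero_pf x_FinO x_Mult x_Bas
theorem x_Aux : S_Aux := Aux_pf x_Bas x_Val x_Small x_SiegT
theorem x_Chud : S_Chud :=
  Chud_pf x_Bas x_Val x_Zero x_Aux Pool.Agent.Work.MP_327059_nt.GL.x_Crit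
theorem x_Period : S_Period := Period_pf x_Chud EB.Norm_pf
theorem x_BaseCM : S_BaseCM := BaseCM_pf x_Period

end Pool.Agent.Work.MP_8da9ea_nt.CH
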