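import Pool.Agent.Work.MP_8da9ea_nt.CH.Stmts
import Pool.Agent.Work.MP_8da9ea_nt.Bd.B01

/-!
# Chudnovsky block for arbitrary invariants: `(τ, μ) ↦ (e, H)` is open
-/

set_option autoImplicit false

namespace Pool.Agent.Work.MP_8da9ea_nt.CH

open MvPolynomial Filter Topology Pool.Agent.Work.MP_327059_nt.GL Pool.Agent.Work.MP_8da9ea_nt.S
  Pool.Agent.Work.MP_8da9ea_nt.EB

/-- every `(e', H')` near `(e(τ, μ), H(τ, μ))` is of this form -/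
def S_Loc : Prop := ∀ τ μ : ℂ, 0 < τ.im → μ ≠ 0 → ∃ δ : ℝ, 0 < δ ∧ ∀ e' H' : ℂ,
  ‖e' - xe τ μ (1 / 2)‖ < δ → ‖H' - μ ^ 4 * gg2 τ / 2‖ < δ →
    ∃ τ' μ' : ℂ, 0 < τ'.im ∧ μ' ≠ 0 ∧ xe τ' μ' (1 / 2) = e' ∧ μ' ^ 4 * gg2 τ' / 2 = H'

theorem Loc_pf : S_Loc := by
  intro τ μ hτ hμ
  have hz := half_notMem hτ
  -- derivatives
  have hE : HasDerivAt (fun t => wp 1 t (1 / 2)) (wpt τ (1 / 2)) τ := hasDerivAt_wp_t hτ hz
  have hEa : AnalyticAt ℂ (fun t => wp 1 t (1 / 2)) τ :=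
    analytic_wp (z := fun _ => 1 / 2) (τ := fun t => t) analyticAt_const analyticAt_id hτ
      (fun q h => hz ⟨q, h.symm⟩)
  have hG := ode_gg2 hτ
  have hGa : AnalyticAt ℂ gg2 τ :=
    analyticAt_const.mul (analytic_gk (τ := fun t => t) (k := 4) (by norm_num) analyticAt_id hτ)
  have sE : HasStrictDerivAt (fun t => wp 1 t (1 / 2)) (wpt τ (1 / 2)) τ := by
    have := hEa.hasStrictDerivAt
    rwa [hE.deriv] at this
  have sG : HasStrictDerivAt gg2 ((-4 * et τ * gg2 τ + 6 * gg3 τ) / kap) τ := by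
    have := hGa.hasStrictDerivAt
    rwa [hG.deriv] at this
  set E := wp 1 τ (1 / 2) with hEdef
  set G := gg2 τ with hGdef
  set E' := wpt τ (1 / 2) with hE'
  set G' := (-4 * et τ * G + 6 * gg3 τ) / kap with hG'
  have fst' : HasStrictFDerivAt (fun p : ℂ × ℂ => p.1) (ContinuousLinearMap.fst ℂ ℂ ℂ) (τ, μ) :=
    hasStrictFDerivAt_fst
  have snd' : HasStrictFDerivAt (fun p : ℂ × ℂ => p.2) (ContinuousLinearMap.snd ℂ ℂ ℂ) (τ, μ) :=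
    hasStrictFDerivAt_snd
  have f1 : HasStrictFDerivAt (fun p : ℂ × ℂ => wp 1 p.1 (1 / 2))
      (E' • ContinuousLinearMap.fst ℂ ℂ ℂ) (τ, μ) :=
    HasStrictDerivAt.comp_hasStrictFDerivAt (h₂ := fun t => wp 1 t (1 / 2))
      (f := fun p : ℂ × ℂ => p.1) (τ, μ) sE fst'
  have f2 : HasStrictFDerivAt (fun p : ℂ × ℂ => gg2 p.1)
      (G' • ContinuousLinearMap.fst ℂ ℂ ℂ) (τ, μ) :=
    HasStrictDerivAt.comp_hasStrictFDerivAt (h₂ := gg2)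
      (f := fun p : ℂ × ℂ => p.1) (τ, μ) sG fst'
  have g1 := (snd'.pow 2).mul f1
  have g2 := ((snd'.pow 4).mul f2).mul_const' (1 / 2 : ℂ)
  have hF := g1.prodMk g2
  -- the determinant
  have k0 := kap_ne_zero
  have eE : kap * E' = 2 * E ^ 2 - 2 * et τ * E - G / 3 := by
    have h := wpt_eq hτ hz
    rw [wpd_half hτ] at h
    rw [hE', h]
    ring
  have eG : kap * G' = -4 * et τ * G + 6 * gg3 τ := by
    rw [hG']
    field_simp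
  have e3 : gg3 τ = 4 * E ^ 3 - G * E := by
    have h := wpd_sq hτ hz
    rw [wpd_half hτ] at h
    linear_combination h
  have hdisc : (G - 3 * E ^ 2) * (G - 12 * E ^ 2) ^ 2 ≠ 0 := by
    have h := Fx.disc_ne hτ
    rw [e3] at h
    intro h0
    apply h
    rw [← h0]
    ring
  have hd1 : G - 3 * E ^ 2 ≠ 0 := fun h => hdisc (by rw [h, zero_mul])
  have hd2 : G - 12 * E ^ 2 ≠ 0 := fun h => hdisc (by rw [h]; ring)
  have hdet : 2 * E' * G - E * G' ≠ 0 := by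
    intro h0
    have h1 : kap * (2 * E' * G - E * G') = -(2 / 3) * ((G - 3 * E ^ 2) * (G - 12 * E ^ 2)) := by
      rw [show kap * (2 * E' * G - E * G') = 2 * (kap * E') * G - E * (kap * G') by ring, eE, eG, e3]
      ring
    rw [h0, mul_zero] at h1
    have h2 : (G - 3 * E ^ 2) * (G - 12 * E ^ 2) ≠ 0 := mul_ne_zero hd1 hd2
    apply h2
    linear_combination (3 / 2 : ℂ) * h1
  have hmap := hF.map_nhds_eq_of_surj (by
    rw [LinearMap.range_eq_top]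
    rintro ⟨a, b⟩
    -- solve the linear system
    set D := 2 * E' * G - E * G' with hD
    refine ⟨((2 * μ ^ 3 * G * a - 2 * μ * E * b) / (μ ^ 5 * D),
      (μ ^ 2 * E' * b - μ ^ 4 * G' / 2 * a) / (μ ^ 5 * D)), ?_⟩
    have hμD : μ ^ 5 * D ≠ 0 := mul_ne_zero (pow_ne_zero _ hμ) hdet
    ext
    · simp
      field_simp
      rw [hD]
      ring
    · simp
      field_simp
      rw [hD]
      ring)
  have hopen : ∀ᶠ p : ℂ × ℂ in 𝓝 (τ, μ), 0 < p.1.im ∧ p.2 ≠ 0 := by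
    have c1 : ContinuousAt (fun p : ℂ × ℂ => p.1.im) (τ, μ) := by fun_prop
    have c2 : ContinuousAt (fun p : ℂ × ℂ => p.2) (τ, μ) := by fun_prop
    exact (c1.eventually (lt_mem_nhds hτ)).and (c2.eventually_ne hμ)
  have h1 : {q : ℂ × ℂ | ∃ p : ℂ × ℂ, (0 < p.1.im ∧ p.2 ≠ 0) ∧
      (p.2 ^ 2 * wp 1 p.1 (1 / 2), p.2 ^ 4 * gg2 p.1 * (1 / 2)) = q} ∈
      𝓝 (μ ^ 2 * E, μ ^ 4 * G * (1 / 2)) := by
    have h2 := Filter.image_mem_map (m := fun p : ℂ × ℂ =>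
      (p.2 ^ 2 * wp 1 p.1 (1 / 2), p.2 ^ 4 * gg2 p.1 * (1 / 2))) hopen
    rw [show Filter.map (fun p : ℂ × ℂ => (p.2 ^ 2 * wp 1 p.1 (1 / 2), p.2 ^ 4 * gg2 p.1 * (1 / 2)))
      (𝓝 (τ, μ)) = 𝓝 (μ ^ 2 * E, μ ^ 4 * G * (1 / 2)) from hmap] at h2
    exact h2
  obtain ⟨δ, hδ, hb⟩ := Metric.mem_nhds_iff.1 h1
  refine ⟨δ, hδ, fun e' H' he hH => ?_⟩
  have h4 : (e', H') ∈ Metric.ball (μ ^ 2 * E, μ ^ 4 * G * (1 / 2)) δ := by
    rw [Metric.mem_ball, Prod.dist_eq, max_lt_iff, dist_eq_norm, dist_eq_norm]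
    refine ⟨he, ?_⟩
    have : μ ^ 4 * G * (1 / 2) = μ ^ 4 * G / 2 := by ring
    rw [this]
    exact hH
  obtain ⟨p, ⟨hp1, hp2⟩, hp3⟩ := hb h4
  have hp4 := congrArg Prod.fst hp3
  have hp5 := congrArg Prod.snd hp3
  refine ⟨p.1, p.2, hp1, hp2, hp4, ?_⟩
  rw [← show p.2 ^ 4 * gg2 p.1 * (1 / 2) = H' from hp5]
  ring

end Pool.Agent.Work.MP_8da9ea_nt.CH
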