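import Pool.Agent.Work.MP_8da9ea_nt.CH.Asm
import Pool.Agent.Work.MP_8da9ea_nt.CH.I_Loc
import Pool.Agent.Work.MP_8da9ea_nt.CD.Asm
import Pool.Agent.Work.MP_8da9ea_nt.Bd.B06
import Pool.Agent.Work.MP_8da9ea_nt.Bd.B10

/-!
# Chudnovsky's theorem for arbitrary invariants

For every `τ` and every `μ ≠ 0` two of the numbers `μ² η₁, μ 2πi, e, H` are algebraically independent. The
perturbed point of the criterion is again of the form `(θ₁, θ₂, e(τ', μ'), H(τ', μ'))` (`S_Loc`).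
-/

set_option autoImplicit false

namespace Pool.Agent.Work.MP_8da9ea_nt.CH

open MvPolynomial Filter Topology Pool.Agent.Work.MP_327059_nt.GL Pool.Agent.Work.MP_8da9ea_nt.S
  Pool.Agent.Work.MP_8da9ea_nt.EB

/-- the auxiliary function (as `S_Aux`, arbitrary invariants) -/
def S_AuxG : Prop := ∀ τ μ : ℂ, 0 < τ.im → μ ≠ 0 → TrLe 1 (th τ μ) → ∃ (i₀ : Fin 4) (C : ℕ), 1 ≤ C ∧
  ∀ K : ℕ, ∃ L₀ : ℕ, ∀ L : ℕ, L₀ ≤ L → ∃ p : Fin L → Fin L → Polynomial ℤ,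
    (∀ a b, (p a b).natDegree ≤ C * sz L ∧
      ∀ k, |(((p a b).coeff k : ℤ) : ℝ)| ≤ Real.exp ((C * sz L : ℕ) : ℝ)) ∧
    (∀ x : ℂ, ∃ a b, Polynomial.aeval x (p a b) ≠ 0) ∧
    ∀ n t : ℕ, C * n ≤ L → t ≤ K * L →
      ‖iteratedDeriv t (fg τ μ (μ ^ 2 * et τ) (μ * kap) n (auxP p (th τ μ i₀))) 0‖ ≤
        Real.exp (-((L : ℝ) ^ 3 / C))

/-- Chudnovsky's theorem for arbitrary invariants -/
def S_ChudG : Prop := ∀ τ μ : ℂ, 0 < τ.im → μ ≠ 0 → ¬ TrLe 1 (th τ μ)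

/-- the period field of every lattice has transcendence degree at least `2` -/
def S_PeriodG : Prop := ∀ ω₁ ω₂ : ℂ, LinearIndependent ℝ ![ω₁, ω₂] →
  ∀ (s n : ℕ) (t : Fin s → ℂ) (p : Fin n → ℂ), HasTrdeg (bigField ω₁ ω₂ t p) 2

open I_Aux in
theorem AuxG_pf (h1 : S_Bas) (h2 : S_Val) (h3 : S_Small) (h4 : S_SiegT) : S_AuxG := by
  intro τ μ hτ hμ hT
  obtain ⟨i₀, C₁, hC₁, hS⟩ := h4 (Fin 4) (th τ μ) hT
  obtain ⟨C₂, hC₂, hSm⟩ := h3 τ μ hτ hμ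
  -- constants
  have hC1r : (1 : ℝ) ≤ C₁ := by exact_mod_cast hC₁
  set ρ : ℝ := 1 / (8 * C₂ ^ 2 * C₁) with hρ
  have hρ0 : 0 < ρ := by positivity
  set K₀ : ℕ := ⌈16 * C₂ ^ 3⌉₊ with hK₀
  have hK₀1 : 16 * C₂ ^ 3 ≤ K₀ := Nat.le_ceil _
  have hK₀2 : 1 ≤ K₀ := by
    have : (1 : ℝ) ≤ K₀ := by nlinarith [one_le_pow₀ hC₂ (n := 3)]
    exact_mod_cast this
  have hK₀r : (1 : ℝ) ≤ K₀ := by exact_mod_cast hK₀2
  set C₃ : ℕ := 10 * (2 + K₀) * K₀ + K₀ + 2 with hC₃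
  set γ : ℝ := ρ / (C₁ * C₂) with hγ
  have hγ0 : 0 < γ := by positivity
  set C₅ : ℝ := 1 + (2 + ‖th τ μ i₀‖) * (C₁ * C₃ : ℕ) with hC₅
  have hC₅1 : 1 ≤ C₅ := by
    have : (0 : ℝ) ≤ (2 + ‖th τ μ i₀‖) * (C₁ * C₃ : ℕ) := by positivity
    linarith
  set C : ℕ := C₁ * C₃ + ⌈2 / γ⌉₊ + ⌈2 * C₂ / ρ⌉₊ with hC
  have hCa : C₁ * C₃ ≤ C := by omega
  have hCb : 2 / γ ≤ C := by
    have : (⌈2 / γ⌉₊ : ℝ) ≤ C := by exact_mod_cast (by omega : ⌈2 / γ⌉₊ ≤ C)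
    exact (Nat.le_ceil _).trans this
  have hCc : 2 * C₂ / ρ ≤ C := by
    have : (⌈2 * C₂ / ρ⌉₊ : ℝ) ≤ C := by exact_mod_cast (by omega : ⌈2 * C₂ / ρ⌉₊ ≤ C)
    exact (Nat.le_ceil _).trans this
  have hC1 : 1 ≤ C := by
    have : 1 ≤ C₁ * C₃ := Nat.mul_pos hC₁ (by omega)
    omega
  refine ⟨i₀, C, hC1, fun K => ?_⟩
  set E : ℝ := (C₂ * K ^ 2 + C₅ + K₀ * ρ / C₂) * (8 / (3 * γ)) with hE
  refine ⟨⌈E⌉₊ + ⌈2 * C₂ / ρ⌉₊ + 2, fun L hL => ?_⟩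
  have hL1 : 1 ≤ L := by omega
  have hLE : E ≤ L := by
    have : (⌈E⌉₊ : ℝ) ≤ L := by exact_mod_cast (by omega : ⌈E⌉₊ ≤ L)
    exact (Nat.le_ceil _).trans this
  have hLc : 2 * C₂ / ρ ≤ L := by
    have : (⌈2 * C₂ / ρ⌉₊ : ℝ) ≤ L := by exact_mod_cast (by omega : ⌈2 * C₂ / ρ⌉₊ ≤ L)
    exact (Nat.le_ceil _).trans this
  have hL0 : (0 : ℝ) < L := by exact_mod_cast hL1
  have hL1r : (1 : ℝ) ≤ L := by exact_mod_cast hL1
  set S : ℕ := L / (C₁ * K₀) with hSdef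
  have hpos : 0 < C₁ * K₀ := Nat.mul_pos hC₁ hK₀2
  have hS1 : C₁ * K₀ * S ≤ L := Nat.mul_div_le L (C₁ * K₀)
  have hS2 : L < C₁ * K₀ * (S + 1) := by
    rw [hSdef]
    exact Nat.lt_mul_div_succ L hpos
  have hSL : S ≤ L := Nat.div_le_self _ _
  have hss : 1 ≤ sz L := hL1.trans (le_sz L)
  obtain ⟨p, hp1, hp2, hp3⟩ := siegel h1 h2 hτ hμ hS (K₀ * L) L S (C₃ * sz L) hL1
    (Nat.mul_pos (by omega) hss)
    (by
      calc C₁ * (K₀ * L * S) = (C₁ * K₀ * S) * L := by ring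
        _ ≤ L * L := Nat.mul_le_mul_right _ hS1)
    (sq_le_two_pow L C₃ hL1 (by omega))
    (fun t n a b ht hn ha hb => size_ok K₀ L t n a b S ht hSL hn ha hb)
  have hmono : C₁ * (C₃ * sz L) ≤ C * sz L := by
    rw [← mul_assoc]
    exact Nat.mul_le_mul_right _ hCa
  refine ⟨p, fun a b => ⟨(hp1 a b).1.trans hmono, fun k => ((hp1 a b).2 k).trans ?_⟩, hp2, ?_⟩
  · apply Real.exp_le_exp.2
    exact_mod_cast hmono
  intro n t hn ht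
  -- the coefficients
  have hszL : (sz L : ℝ) ≤ (L : ℝ) ^ 2 := by exact_mod_cast sz_le L hL1
  have hcoef : ∀ m, ‖(auxP p (th τ μ i₀)).coeff m‖ ≤ Real.exp (C₅ * L ^ 2) := by
    intro m
    have hB : ∀ a b, ‖Polynomial.aeval (th τ μ i₀) (p a b)‖ ≤
        Real.exp ((C₁ * (C₃ * sz L) : ℕ) + (C₁ * (C₃ * sz L) : ℕ) +
          ‖th τ μ i₀‖ * (C₁ * (C₃ * sz L) : ℕ)) := fun a b =>
      aeval_bound (p a b) (th τ μ i₀) (C₁ * (C₃ * sz L)) _ (hp1 a b).1 (hp1 a b).2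
    refine (coeff_aux p (th τ μ i₀) m hB).trans ?_
    have e1 : (L : ℝ) ^ 2 ≤ Real.exp ((L : ℝ) ^ 2) := by linarith [Real.add_one_le_exp ((L : ℝ) ^ 2)]
    refine (mul_le_mul_of_nonneg_right e1 (Real.exp_nonneg _)).trans ?_
    rw [← Real.exp_add]
    apply Real.exp_le_exp.2
    have e2 : ((C₁ * (C₃ * sz L) : ℕ) : ℝ) ≤ (C₁ * C₃ : ℕ) * (L : ℝ) ^ 2 := by
      push_cast
      rw [← mul_assoc]
      gcongr
    have e3 : 0 ≤ ‖th τ μ i₀‖ := norm_nonneg _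
    rw [hC₅]
    nlinarith [mul_le_mul_of_nonneg_left e2 e3]
  -- S_Small
  have hSr : (C₁ * K₀ * S : ℝ) ≤ L := by exact_mod_cast hS1
  have hSr2 : (L : ℝ) < C₁ * K₀ * (S + 1) := by exact_mod_cast hS2
  have hρL : C₂ ≤ ρ * L / 2 := by
    rw [div_le_iff₀ hρ0] at hLc
    linarith
  have hCS : C₂ * S ≤ ρ * L / 2 := by
    have e1 : C₁ * (16 * C₂ ^ 3) * S ≤ L := by
      refine le_trans ?_ hSr
      gcongr
    have e2 : ρ * L / 2 = L / (16 * C₂ ^ 2 * C₁) := by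
      rw [hρ]
      field_simp
      ring
    rw [e2, le_div_iff₀ (by positivity)]
    have e3 : C₂ * S * (16 * C₂ ^ 2 * C₁) = C₁ * (16 * C₂ ^ 3) * S := by ring
    rw [e3]
    exact e1
  have hCn : C₂ * n ≤ ρ * L / 2 := by
    have e1 : (C : ℝ) * n ≤ L := by exact_mod_cast hn
    have e2 : 2 * C₂ / ρ * n ≤ L := by
      refine le_trans ?_ e1
      gcongr
    have e3 : 2 * C₂ / ρ * n = (2 * C₂ * n) / ρ := by ring
    rw [e3, div_le_iff₀ hρ0] at e2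
    linarith
  have hfin := hSm L (K₀ * L) S (ρ * L) (C₅ * L ^ 2) (auxP p (th τ μ i₀)) hL1
    (by nlinarith [one_le_pow₀ hL1r (n := 2)]) (by linarith) (deg_aux p _ 0) (deg_aux p _ 1) hcoef
    hp3 n t (by linarith)
  refine hfin.trans ?_
  have hfb := fact_bound t K L C₂ hC₂ ht
  refine (mul_le_mul_of_nonneg_right hfb (Real.exp_nonneg _)).trans ?_
  rw [← Real.exp_add]
  apply Real.exp_le_exp.2
  -- numbers
  have f1 : C₂ * L * (ρ * L) ^ 2 = γ / 8 * L ^ 3 := by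
    rw [hγ, hρ]
    field_simp
  have f2 : γ * L ^ 3 - K₀ * ρ / C₂ * L ^ 2 ≤ ((K₀ * L : ℕ) : ℝ) * S * (ρ * L) / C₂ := by
    have g1 : (L : ℝ) / C₁ - K₀ ≤ K₀ * S := by
      have : (L : ℝ) / C₁ ≤ K₀ * (S + 1) := by
        rw [div_le_iff₀ (by positivity)]
        linarith
      linarith
    have g2 : 0 ≤ ρ * L ^ 2 / C₂ := by positivity
    have g3 := mul_le_mul_of_nonneg_left g1 g2
    have g4 : ρ * L ^ 2 / C₂ * ((L : ℝ) / C₁ - K₀) = γ * L ^ 3 - K₀ * ρ / C₂ * L ^ 2 := by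
      rw [hγ]
      field_simp
    have g5 : ρ * L ^ 2 / C₂ * (K₀ * S : ℝ) = ((K₀ * L : ℕ) : ℝ) * S * (ρ * L) / C₂ := by
      push_cast
      ring
    rw [g4, g5] at g3
    exact g3
  have f3 : (C₂ * K ^ 2 + C₅ + K₀ * ρ / C₂) * L ^ 2 ≤ 3 / 8 * γ * L ^ 3 := by
    have g1 : (C₂ * K ^ 2 + C₅ + K₀ * ρ / C₂) ≤ 3 / 8 * γ * L := by
      have : (C₂ * K ^ 2 + C₅ + K₀ * ρ / C₂) = 3 / 8 * γ * E := by
        rw [hE]
        field_simp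
      rw [this]
      gcongr
    calc (C₂ * K ^ 2 + C₅ + K₀ * ρ / C₂) * L ^ 2 ≤ (3 / 8 * γ * L) * L ^ 2 := by gcongr
      _ = _ := by ring
  have f4 : (L : ℝ) ^ 3 / C ≤ γ / 2 * L ^ 3 := by
    have hC0 : (0 : ℝ) < C := by exact_mod_cast hC1
    rw [div_le_iff₀ hC0]
    have : 2 ≤ C * γ := by rwa [div_le_iff₀ hγ0] at hCb
    have h5 : (0 : ℝ) ≤ L ^ 3 := by positivity
    nlinarith
  have f5 : C₂ * K ^ 2 * L ^ 2 + (C₂ * L * (ρ * L) ^ 2 + C₅ * L ^ 2 -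
      ((K₀ * L : ℕ) : ℝ) * S * (ρ * L) / C₂) ≤ -(γ / 2 * L ^ 3) := by
    rw [f1]
    nlinarith
  linarith

open I_Chud in
theorem ChudG_pf (hB : S_Bas) (hV : S_Val) (hZ : S_Zero) (hA : S_AuxG) (hC : S_Crit) (hL : S_Loc) :
    S_ChudG := by
  intro τ μ hτ hμ hTh
  obtain ⟨i₀, C₁, hC₁, hAux⟩ := hA τ μ hτ hμ hTh
  choose A hAdeg hAlen hAval using hV
  set K : ℕ := 2 + 13 * C₁ with hK
  obtain ⟨L₁, hL₁⟩ := hAux K
  obtain ⟨δL, hδL, hLoc⟩ := hL τ μ hτ hμ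
  obtain ⟨C₂, hC₂, hCrit⟩ := hC (Fin 4) 1 (th τ μ) hTh
  have hθ2 : μ * kap ≠ 0 := mul_ne_zero hμ kap_ne_zero
  set δ : ℝ := min δL ‖μ * kap‖ with hδ
  have hδ0 : 0 < δ := lt_min hδL (norm_pos_iff.2 hθ2)
  set C₃ : ℕ := 3 + 2 * C₁ + 10 * K * (K + 2) + K with hC₃
  obtain ⟨L₂, hL₂⟩ := sz_growth (C₁ * C₂ * C₃ ^ 2) (-Real.log δ + 1)
  set L : ℕ := max L₁ L₂ with hL
  obtain ⟨hg1, hg2, hg3⟩ := hL₂ L (le_max_right _ _)
  obtain ⟨p, hp1, hp2, hp3⟩ := hL₁ L (le_max_left _ _)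
  have hsz1 : 1 ≤ sz L := le_trans hg3 (le_sz L)
  set X' : ℕ := C₃ * sz L with hX'
  set V : ℝ := (L : ℝ) ^ 3 / C₁ with hVdef
  have hC₁' : (1 : ℝ) ≤ C₁ := by exact_mod_cast hC₁
  have hC₃1 : 1 ≤ C₃ := by omega
  have hX1 : 1 ≤ X' := Nat.mul_pos hC₃1 hsz1
  have hX1' : (1 : ℝ) ≤ X' := by exact_mod_cast hX1
  have hXV : C₂ * (X' : ℝ) ^ (1 + 1) ≤ V := by
    rw [hVdef, le_div_iff₀ (by linarith), hX']
    push_cast
    calc _ = (C₁ * C₂ * C₃ ^ 2) * ((sz L : ℕ) : ℝ) ^ 2 := by ring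
      _ ≤ _ := hg1
  have hszX : sz L ≤ X' := Nat.le_mul_of_pos_left _ hC₃1
  -- the set of polynomials
  set PP : Set (MvPolynomial (Fin 4) ℤ) := {P | (∃ n t : ℕ, C₁ * n ≤ L ∧ t ≤ K * L ∧
    P = BB A p i₀ n t)} with hPP
  have hnL : ∀ n : ℕ, C₁ * n ≤ L → n ≤ L := by
    intro n hn
    exact le_trans (Nat.le_mul_of_pos_left _ hC₁) hn
  have hPPb : ∀ P ∈ PP, P.totalDegree ≤ X' ∧ len P ≤ Real.exp X' ∧
      ‖aeval (th τ μ) P‖ ≤ Real.exp (-V) := by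
    intro P hP
    obtain ⟨n, t, hn, ht, rfl⟩ := hP
    · obtain ⟨h1, h2⟩ := size_BB (fun t n a b => ⟨hAdeg t n a b, hAlen t n a b⟩) hg3 K C₁ p i₀ hp1
        n t (hnL n hn) ht
      have h3 : (3 + 2 * C₁ + 10 * K * (K + 2) + K) * sz L ≤ X' := by
        rw [hX']
      refine ⟨h1.trans h3, h2.trans (Real.exp_le_exp.2 (by exact_mod_cast h3)), ?_⟩
      have h4 := val_eq hB hAval p i₀ τ μ (μ ^ 2 * et τ) (μ * kap) hτ hμ n t
      have h5 := hp3 n t hn ht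
      have h6 : th τ μ = ![μ ^ 2 * et τ, μ * kap, xe τ μ (1 / 2), μ ^ 4 * gg2 τ / 2] := rfl
      rw [h6] at h5 ⊢
      rw [h4] at h5
      exact h5
  obtain ⟨v, hv1, hv2⟩ := hCrit X' V hX1 hXV PP hPPb
  -- the new point is close
  have hclose : ∀ i, ‖v i - th τ μ i‖ < δ := by
    intro i
    refine (hv2 i).trans_lt ?_
    have h1 : -V / (C₂ * (X' : ℝ) ^ 1) ≤ -(sz L : ℝ) := by
      rw [neg_div, neg_le_neg_iff, le_div_iff₀ (by positivity), pow_one]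
      have h2 : (sz L : ℝ) ≤ X' := by exact_mod_cast hszX
      calc (sz L : ℝ) * (C₂ * X') ≤ X' * (C₂ * X') :=
            mul_le_mul_of_nonneg_right h2 (by positivity)
        _ = C₂ * (X' : ℝ) ^ (1 + 1) := by ring
        _ ≤ V := hXV
    calc Real.exp (-V / (C₂ * (X' : ℝ) ^ 1)) ≤ Real.exp (-(sz L : ℝ)) := Real.exp_le_exp.2 h1
      _ ≤ Real.exp (Real.log δ - 1) := Real.exp_le_exp.2 (by linarith)
      _ < Real.exp (Real.log δ) := Real.exp_lt_exp.2 (by linarith)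
      _ = δ := Real.exp_log hδ0
  obtain ⟨τ', μ', hτ', hμ', hv_2, hv_3⟩ := hLoc (v 2) (v 3)
    ((hclose 2).trans_le (min_le_left _ _)) ((hclose 3).trans_le (min_le_left _ _))
  have hv_1 : v 1 ≠ 0 := by
    intro h0
    have h1 := (hclose 1).trans_le (min_le_right _ _)
    have h2 : th τ μ 1 = μ * kap := rfl
    rw [h0, h2, zero_sub, norm_neg] at h1
    exact lt_irrefl _ h1
  have hv : v = ![v 0, v 1, xe τ' μ' (1 / 2), μ' ^ 4 * gg2 τ' / 2] := by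
    funext i
    fin_cases i
    · rfl
    · rfl
    · exact hv_2.symm
    · exact hv_3.symm
  -- the new auxiliary polynomial
  obtain ⟨a, b, hab⟩ := hp2 (v i₀)
  have hP0 := auxP_ne p (v i₀) a b hab
  have hord : ∀ n ≤ L / C₁, ((K * L : ℕ) : ℕ∞) ≤ og τ' μ' (v 0) (v 1) n (auxP p (v i₀)) := by
    intro n hn
    have hn' : C₁ * n ≤ L := by
      rw [mul_comm]
      exact (Nat.le_div_iff_mul_le (by omega)).1 hn
    unfold og
    rw [natCast_le_analyticOrderAt_iff_iteratedDeriv_eq_zero (an_fg hB _ _ hτ' hμ' n p (v i₀))]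
    intro t ht
    have h1 := hv1 _ (show BB A p i₀ n t ∈ PP from ⟨n, t, hn', ht.le, rfl⟩)
    have h2 := val_eq hB hAval p i₀ τ' μ' (v 0) (v 1) hτ' hμ' n t
    rw [← hv] at h2
    rw [h2, h1]
  have hfin := hZ τ' μ' (v 0) (v 1) hτ' hμ' hv_1 (auxP p (v i₀)) L (L / C₁) (K * L) hP0
    (auxP_deg p _ 0) (auxP_deg p _ 1) hord
  -- contradiction
  have h1 : L < C₁ * (L / C₁ + 1) := Nat.lt_mul_div_succ L (by omega)
  set S' := L / C₁ with hS'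
  have h2 : (S' + 1) * (K * L) = 2 * L * (S' + 1) + 13 * (C₁ * (S' + 1)) * L := by
    rw [hK]
    ring
  rw [h2] at hfin
  have h3 : 13 * (L + 1) * L ≤ 13 * (C₁ * (S' + 1)) * L :=
    Nat.mul_le_mul_right _ (Nat.mul_le_mul_left _ h1)
  have h4 : 13 * (L + 1) * L = 13 * L ^ 2 + 13 * L := by ring
  have h5 : 0 < L := hg3
  have h6 : 0 < L ^ 2 := by positivity
  omega

theorem x_AuxG : S_AuxG := AuxG_pf x_Bas x_Val x_Small x_SiegT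

/-- **Chudnovsky's theorem**, arbitrary invariants -/
theorem x_ChudG : S_ChudG :=
  ChudG_pf x_Bas x_Val x_Zero x_AuxG Pool.Agent.Work.MP_327059_nt.GL.x_Crit Loc_pf

/-- the root `e` is algebraic over a field containing the invariants -/
theorem alg_e {τ μ : ℂ} (hτ : 0 < τ.im) (hμ : μ ≠ 0) (K : IntermediateField ℚ ℂ)
    (h2 : μ ^ 4 * gg2 τ ∈ K) (h3 : μ ^ 6 * gg3 τ ∈ K) : IsAlgebraic K (xe τ μ (1 / 2)) := by
  obtain ⟨⟨r, hr, h⟩, h0, h1, -⟩ := x_Bas τ μ hτ hμ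
  have h4 := (h 0 0 (by simpa using hr)).2.2.2.2
  rw [h0, h1] at h4
  refine ⟨Polynomial.C 4 * Polynomial.X ^ 3 -
    Polynomial.C (⟨μ ^ 4 * gg2 τ, h2⟩ : K) * Polynomial.X -
      Polynomial.C (⟨μ ^ 6 * gg3 τ, h3⟩ : K), ?_, ?_⟩
  · intro h0
    have h1 := congrArg (fun p : Polynomial K => p.coeff 3) h0
    simp at h1
  · simp only [map_sub, map_mul, map_pow, Polynomial.aeval_C, Polynomial.aeval_X]
    have e4 : (algebraMap K ℂ) 4 = 4 := map_ofNat _ 4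
    rw [e4]
    change 4 * xe τ μ (1 / 2) ^ 3 - μ ^ 4 * gg2 τ * xe τ μ (1 / 2) - μ ^ 6 * gg3 τ = 0
    linear_combination -h4

theorem x_PeriodG : S_PeriodG := by
  classical
  intro ω₁ ω₂ hli s n t p
  have hω₁ : ω₁ ≠ 0 := by
    intro h0
    have := hli.ne_zero 0
    simp [h0] at this
  have him : (ω₂ / ω₁).im ≠ 0 := by
    intro h0
    rw [LinearIndependent.pair_iff] at hli
    have h3 := hli ((ω₂ / ω₁).re) (-1) (by
      have h4 : (((ω₂ / ω₁).re : ℝ) : ℂ) = ω₂ / ω₁ := by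
        apply Complex.ext
        · simp
        · simp [h0]
      rw [Complex.real_smul, Complex.real_smul, h4]
      push_cast
      field_simp
      ring)
    exact absurd h3.2 (by norm_num)
  obtain ⟨τ, hτ, hω⟩ : ∃ τ : ℂ, 0 < τ.im ∧ (ω₂ = ω₁ * τ ∨ ω₂ = -(ω₁ * τ)) := by
    rcases lt_or_gt_of_ne him with hlt | hgt
    · exact ⟨-(ω₂ / ω₁), by simpa using hlt, Or.inr (by field_simp)⟩
    · exact ⟨ω₂ / ω₁, hgt, Or.inl (by field_simp)⟩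
  have hB : bigField ω₁ ω₂ t p = bigField ω₁ (ω₁ * τ) t p := by
    rcases hω with h | h
    · rw [h]
    · rw [h, bigField_neg]
  rw [hB]
  set B := bigField ω₁ (ω₁ * τ) t p with hBdef
  have k1 : gg2 τ ∈ B := mul_mem (ofNat_mem B 60) (big_gk4 t p hω₁)
  have k2 : gg3 τ ∈ B := mul_mem (ofNat_mem B 140) (big_gk6 t p hω₁)
  have h3 := x_ChudG τ 1 hτ one_ne_zero
  unfold TrLe at h3
  push Not at h3
  obtain ⟨e, he⟩ := h3
  refine CD.hasTrdeg_acl ⟨_, fun i => ?_, he⟩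
  have h4 : ∀ i : Fin 4, th τ 1 i ∈ CD.acl B := by
    intro i
    fin_cases i
    · exact mul_mem (pow_mem (one_mem _) 2) (CD.le_acl _ (big_et t p hω₁))
    · exact mul_mem (one_mem _) (CD.le_acl _ (big_pi t p hω₁ hτ))
    · exact CD.mem_acl.2 (alg_e hτ one_ne_zero B (mul_mem (pow_mem (one_mem _) 4) k1)
        (mul_mem (pow_mem (one_mem _) 6) k2))
    · have : (1 : ℂ) ^ 4 * gg2 τ / 2 ∈ CD.acl B :=
        div_mem (mul_mem (pow_mem (one_mem _) 4) (CD.le_acl _ k1)) (ofNat_mem _ 2)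
      exact this
  exact h4 (e i)

end Pool.Agent.Work.MP_8da9ea_nt.CH
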