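import Pool.Agent.Work.MP_8da9ea_nt.CH.Stmts
import Pool.Agent.Work.MP_8da9ea_nt.Bd.B01

/-!
Chudnovsky block, item Bas: the differential equations of the functions `x`, `y`, `w` near `0`.
-/

set_option autoImplicit false

namespace Pool.Agent.Work.MP_8da9ea_nt.CH

open MvPolynomial Filter Topology Pool.Agent.Work.MP_327059_nt.GL Pool.Agent.Work.MP_8da9ea_nt.S
  Pool.Agent.Work.MP_8da9ea_nt.EB

namespace I_Bas

theorem half_notMem {τ : ℂ} (hτ : 0 < τ.im) : (1 / 2 : ℂ) ∉ Lam τ := by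
  rw [mem_Lam]
  rintro ⟨m, n, h⟩
  have him := congrArg Complex.im h
  have hre := congrArg Complex.re h
  simp only [one_div, Complex.inv_im, Complex.im_ofNat, neg_zero, zero_div, Complex.add_im,
    Complex.intCast_im, Complex.mul_im, Complex.intCast_re, zero_mul, add_zero, zero_add] at him
  have hn : (n : ℝ) = 0 := by
    rcases mul_eq_zero.mp him.symm with h1 | h1
    · exact h1
    · exact absurd h1 hτ.ne'
  have hre2 : (1 / 2 : ℝ) = m := by
    have : ((1 / 2 : ℂ)).re = 1 / 2 := by norm_num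
    rw [this] at hre
    rw [hre, Complex.add_re, Complex.mul_re, Complex.intCast_re, Complex.intCast_re,
      Complex.intCast_im, hn]
    ring
  have h3 : (1 : ℝ) = 2 * m := by linarith
  have h4 : (1 : ℤ) = 2 * m := by exact_mod_cast h3
  omega

theorem wpd_half {τ : ℂ} (hτ : 0 < τ.im) : wpd τ (1 / 2) = 0 := by
  have h := wpd_add_one hτ (-(1 / 2))
  rw [wpd_neg hτ, show -(1 / 2 : ℂ) + 1 = 1 / 2 by norm_num] at h
  have h2 : (2 : ℂ) * wpd τ (1 / 2) = 0 := by linear_combination h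
  rcases mul_eq_zero.mp h2 with h3 | h3
  · norm_num at h3
  · exact h3

theorem dlin (μ s : ℂ) : HasDerivAt (fun s : ℂ => 1 / 2 + μ * s) μ s := by
  have h := ((hasDerivAt_id s).const_mul μ).const_add (1 / 2)
  simpa using h

end I_Bas

open I_Bas

theorem Bas_pf : S_Bas := by
  intro τ μ hτ hμ
  have hhalf := half_notMem hτ
  obtain ⟨ε, hε, hball⟩ := Metric.isOpen_iff.mp (Lam_compl_open hτ) (1 / 2) hhalf
  have hμn : 0 < ‖μ‖ := norm_pos_iff.mpr hμ
  refine ⟨⟨ε / ‖μ‖, div_pos hε hμn, fun θ₁ s hs => ?_⟩, ?_, ?_, ?_, ?_⟩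
  · have hz : 1 / 2 + μ * s ∉ Lam τ := by
      apply hball
      rw [Metric.mem_ball, dist_eq_norm, add_sub_cancel_left, norm_mul, mul_comm]
      exact (lt_div_iff₀ hμn).mp hs
    refine ⟨hz, ?_, ?_, ?_, ?_⟩
    · have h1 := ((hasDerivAt_wp_z hτ hz).comp s (dlin μ s)).const_mul (μ ^ 2)
      have h2 : μ ^ 2 * (wpd τ (1 / 2 + μ * s) * μ) = yg τ μ s := by
        unfold yg ye
        ring
      rw [h2] at h1
      exact h1
    · have h1 := ((hasDerivAt_wpd_z hτ hz).comp s (dlin μ s)).const_mul (μ ^ 3)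
      have h2 : μ ^ 3 * (wpdd τ (1 / 2 + μ * s) * μ) =
          6 * xg τ μ s ^ 2 - μ ^ 4 * gg2 τ / 2 := by
        rw [wpdd_eq hτ hz]
        unfold xg xe
        ring
      rw [h2] at h1
      exact h1
    · have h0 : HasDerivAt (fun s : ℂ => θ₁ * s) θ₁ s := by
        have h := (hasDerivAt_id s).const_mul θ₁
        simpa using h
      have h1 := ((((hasDerivAt_zt_z hτ hz).comp s (dlin μ s)).sub_const
        (zt 1 τ (1 / 2))).const_mul μ).sub h0
      have h2 : μ * (-wp 1 τ (1 / 2 + μ * s) * μ) - θ₁ = -xg τ μ s - θ₁ := by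
        unfold xg xe
        ring
      rw [h2] at h1
      exact h1
    · have h1 := wpd_sq hτ hz
      unfold yg ye xg xe
      linear_combination μ ^ 6 * h1
  · unfold xg
    rw [mul_zero, add_zero]
  · unfold yg ye
    rw [mul_zero, add_zero, wpd_half hτ, mul_zero]
  · intro θ₁
    unfold wg
    rw [mul_zero, mul_zero, add_zero, sub_self, mul_zero, sub_zero]
  · intro h0
    have h1 := wpd_sq hτ hhalf
    rw [wpd_half hτ] at h1
    have h2 : gg2 τ = 12 * wp 1 τ (1 / 2) ^ 2 := by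
      unfold xe at h0
      have hμ4 : μ ^ 4 ≠ 0 := pow_ne_zero _ hμ
      have h3 : μ ^ 4 * (gg2 τ - 12 * wp 1 τ (1 / 2) ^ 2) = 0 := by
        linear_combination -2 * h0
      rcases mul_eq_zero.mp h3 with h4 | h4
      · exact absurd h4 hμ4
      · exact sub_eq_zero.mp h4
    have h5 : gg3 τ = -8 * wp 1 τ (1 / 2) ^ 3 := by
      rw [h2] at h1
      linear_combination h1
    apply Fx.disc_ne hτ
    rw [h2, h5]
    ring

end Pool.Agent.Work.MP_8da9ea_nt.CH
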