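import Pool.Agent.Work.MP_8da9ea_nt.CH.Stmts
import Pool.Agent.Work.MP_8da9ea_nt.Bd.B01

/-!
# Chudnovsky block, item Ind: algebraic independence of the two functions
-/

set_option autoImplicit false

namespace Pool.Agent.Work.MP_8da9ea_nt.CH

open MvPolynomial Filter Topology Pool.Agent.Work.MP_327059_nt.GL Pool.Agent.Work.MP_8da9ea_nt.S
  Pool.Agent.Work.MP_8da9ea_nt.EB

namespace I_Ind

/-- A period with nonzero increment. -/
lemma period {τ μ θ₁ : ℂ} (hτ : 0 < τ.im) (hμ : μ ≠ 0) :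
    ∃ ω κ : ℂ, κ ≠ 0 ∧ ∀ z, (z + ω ∈ Lam τ ↔ z ∈ Lam τ) ∧ wp 1 τ (z + ω) = wp 1 τ z ∧
      μ * zt 1 τ (z + ω) - θ₁ * (z + ω) / μ = μ * zt 1 τ z - θ₁ * z / μ + κ := by
  by_cases h : μ * et τ - θ₁ / μ = 0
  · refine ⟨τ, -(μ * kap), neg_ne_zero.2 (mul_ne_zero hμ kap_ne_zero),
      fun z => ⟨add_tau_mem, wp_add_tau hτ z, ?_⟩⟩
    have h1 : θ₁ / μ = μ * et τ := (sub_eq_zero.1 h).symm
    have e : θ₁ * (z + τ) / μ = θ₁ * z / μ + τ * (θ₁ / μ) := by ring
    rw [zt_add_tau hτ, e, h1]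
    unfold kap
    ring
  · refine ⟨1, μ * et τ - θ₁ / μ, h, fun z => ⟨add_one_mem, wp_add_one hτ z, ?_⟩⟩
    rw [zt_add_one' hτ]
    ring

lemma period_nat {τ μ θ₁ ω κ : ℂ}
    (h : ∀ z, (z + ω ∈ Lam τ ↔ z ∈ Lam τ) ∧ wp 1 τ (z + ω) = wp 1 τ z ∧
      μ * zt 1 τ (z + ω) - θ₁ * (z + ω) / μ = μ * zt 1 τ z - θ₁ * z / μ + κ) (k : ℕ) (z : ℂ) :
    (z + k * ω ∈ Lam τ ↔ z ∈ Lam τ) ∧ wp 1 τ (z + k * ω) = wp 1 τ z ∧
      μ * zt 1 τ (z + k * ω) - θ₁ * (z + k * ω) / μ = μ * zt 1 τ z - θ₁ * z / μ + k * κ := by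
  induction k with
  | zero => simp
  | succ k ih =>
    obtain ⟨i1, i2, i3⟩ := ih
    obtain ⟨j1, j2, j3⟩ := h (z + k * ω)
    have e : z + ((k + 1 : ℕ) : ℂ) * ω = z + k * ω + ω := by
      push_cast
      ring
    rw [e]
    refine ⟨j1.trans i1, j2.trans i2, ?_⟩
    rw [j3, i3]
    push_cast
    ring

lemma image_inf {τ μ : ℂ} (hτ : 0 < τ.im) (hμ : μ ≠ 0) {z₀ : ℂ} (hz : z₀ ∉ Lam τ) :
    {x : ℂ | ∃ z ∉ Lam τ, xe τ μ z = x}.Infinite := by
  have h1 := Fx.ef_image_infinite hτ true (z := z₀) (by simpa [Fx.pol] using hz)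
    ((Lam_compl_open hτ).mem_nhds hz)
  have h2 : Set.InjOn (fun x : ℂ => μ ^ 2 * x) (Fx.ef τ true '' (Lam τ)ᶜ) :=
    fun a _ b _ hab => mul_left_cancel₀ (pow_ne_zero 2 hμ) hab
  refine ((h1.image h2)).mono ?_
  rintro _ ⟨_, ⟨z, hz', rfl⟩, rfl⟩
  exact ⟨z, hz', by simp [xe, Fx.ef]⟩

end I_Ind

/-- The functions `X(z)` and `ε W(z) + c` are algebraically independent. -/
theorem Ind_pf : S_Ind := by
  intro τ μ θ₁ hτ hμ P ε c z₀ hP hε hz₀ hev
  obtain ⟨ω, κ, hκ, hper⟩ := I_Ind.period (θ₁ := θ₁) hτ hμ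
  have hX : ∀ z ∈ (Lam τ)ᶜ, AnalyticAt ℂ (fun z => xe τ μ z) z := by
    have h : DifferentiableOn ℂ (fun z => xe τ μ z) (Lam τ)ᶜ := fun z hz =>
      (((hasDerivAt_wp_z hτ hz).const_mul (μ ^ 2)).differentiableAt).differentiableWithinAt
    exact h.analyticOnNhd (Lam_compl_open hτ)
  have hW : ∀ z ∈ (Lam τ)ᶜ,
      AnalyticAt ℂ (fun z => ε * (μ * zt 1 τ z - θ₁ * z / μ) + c) z := by
    have h : DifferentiableOn ℂ (fun z => ε * (μ * zt 1 τ z - θ₁ * z / μ) + c) (Lam τ)ᶜ := by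
      intro z hz
      have h1 := (hasDerivAt_zt_z hτ hz).differentiableAt
      have h2 : DifferentiableAt ℂ (fun z => ε * (μ * zt 1 τ z - θ₁ * z / μ) + c) z := by
        fun_prop
      exact h2.differentiableWithinAt
    exact h.analyticOnNhd (Lam_compl_open hτ)
  have hF : AnalyticOnNhd ℂ
      (fun z => eval ![xe τ μ z, ε * (μ * zt 1 τ z - θ₁ * z / μ) + c] P) (Lam τ)ᶜ := by
    intro z hz
    have h := AnalyticAt.aeval_mvPolynomial (𝕜 := ℂ)
      (f := fun z : ℂ => ![xe τ μ z, ε * (μ * zt 1 τ z - θ₁ * z / μ) + c]) (z := z) (by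
        intro i
        fin_cases i
        · exact hX z hz
        · exact hW z hz) P
    simpa [MvPolynomial.coe_aeval_eq_eval] using h
  have hzero := hF.eqOn_zero_of_preconnected_of_eventuallyEq_zero Lam_compl_conn hz₀ hev
  have h3 : ∀ z ∉ Lam τ, ∀ t : ℂ, eval ![xe τ μ z, t] P = 0 := by
    intro z hz
    set Q : Polynomial ℂ := aeval ![Polynomial.C (xe τ μ z), Polynomial.X] P with hQ
    have hQe : ∀ t : ℂ, Q.eval t = eval ![xe τ μ z, t] P := by
      intro t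
      have e1 : Q.eval t = (Polynomial.aeval t) Q := by
        rw [Polynomial.coe_aeval_eq_eval]
      have e2 : (fun i => Polynomial.aeval t
          ((![Polynomial.C (xe τ μ z), Polynomial.X] : Fin 2 → Polynomial ℂ) i)) =
          ![xe τ μ z, t] := by
        ext i
        fin_cases i
        · simp
        · simp
      rw [e1, hQ, MvPolynomial.comp_aeval_apply, e2, MvPolynomial.aeval_eq_eval]
    have hQ0 : Q = 0 := by
      refine Polynomial.eq_zero_of_infinite_isRoot Q ?_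
      refine (Set.infinite_range_of_injective
        (f := fun k : ℕ => ε * (μ * zt 1 τ z - θ₁ * z / μ + k * κ) + c) ?_).mono ?_
      · intro a b hab
        have h4 : ε * κ * ((a : ℂ) - b) = 0 := by
          linear_combination hab
        rcases mul_eq_zero.1 h4 with h5 | h5
        · exact absurd h5 (mul_ne_zero hε hκ)
        · exact_mod_cast sub_eq_zero.1 h5
      · rintro _ ⟨k, rfl⟩
        obtain ⟨i1, i2, i3⟩ := I_Ind.period_nat hper k z
        have h4 := hzero (x := z + k * ω) (fun h => hz (i1.1 h))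
        show Q.eval _ = 0
        rw [hQe]
        have e : xe τ μ (z + k * ω) = xe τ μ z := by
          unfold xe
          rw [i2]
        simp only [Pi.zero_apply] at h4
        rw [e, i3] at h4
        exact h4
    intro t
    rw [← hQe, hQ0, Polynomial.eval_zero]
  refine hP (MvPolynomial.funext_set ![{x : ℂ | ∃ z ∉ Lam τ, xe τ μ z = x}, Set.univ] ?_ ?_)
  · intro i
    fin_cases i
    · exact I_Ind.image_inf hτ hμ hz₀
    · exact Set.infinite_univ
  · intro x hx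
    obtain ⟨z, hz, hzx⟩ := hx 0 (Set.mem_univ _)
    have e : x = ![xe τ μ z, x 1] := by
      ext i
      fin_cases i
      · exact hzx.symm
      · rfl
    rw [e, h3 z hz, map_zero]

end Pool.Agent.Work.MP_8da9ea_nt.CH
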