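import Pool.Agent.Work.MP_8da9ea_nt.CH.Stmts
import Pool.Agent.Work.MP_8da9ea_nt.EB.StmtsG
import Pool.Agent.Work.MP_8da9ea_nt.CD.Asm
import Pool.Agent.Work.MP_8da9ea_nt.Bd.B06
import Pool.Agent.Work.MP_8da9ea_nt.Bd.B10

/-!
# Chudnovsky block, item Period: the transcendence degree of the period field
-/

set_option autoImplicit false

namespace Pool.Agent.Work.MP_8da9ea_nt.CH

open MvPolynomial Pool.Agent.Work.MP_327059_nt.GL Pool.Agent.Work.MP_8da9ea_nt.S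
  Pool.Agent.Work.MP_8da9ea_nt.EB

theorem Period_pf (h1 : S_Chud) (h2 : EB.S_Norm) : S_Period := by
  classical
  intro ω₁ ω₂ hli hj s n t p
  have hω₁ : ω₁ ≠ 0 := by
    intro h0
    have := hli.ne_zero 0
    simp [h0] at this
  have him : (ω₂ / ω₁).im ≠ 0 := by
    intro h0
    rw [LinearIndependent.pair_iff] at hli
    have h3 := hli ((ω₂ / ω₁).re) (-1) (by
      have h4 : (((ω₂ / ω₁).re : ℝ) : ℂ) = ω₂ / ω₁ := by
        apply Complex.ext
        · simp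
        · simp [h0]
      rw [Complex.real_smul, Complex.real_smul, h4]
      push_cast
      field_simp
      ring)
    exact absurd h3.2 (by norm_num)
  obtain ⟨τ, hτ, hω⟩ : ∃ τ : ℂ, 0 < τ.im ∧ (ω₂ = ω₁ * τ ∨ ω₂ = -(ω₁ * τ)) := by
    rcases lt_or_gt_of_ne him with hlt | hgt
    · exact ⟨-(ω₂ / ω₁), by simpa using hlt, Or.inr (by field_simp)⟩
    · exact ⟨ω₂ / ω₁, hgt, Or.inl (by field_simp)⟩
  have hj' : IsAlgebraic ℚ (jInv 1 τ) := by
    rcases hω with h | h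
    · rwa [h, jInv_smul hω₁] at hj
    · rwa [h, jInv_neg, jInv_smul hω₁] at hj
  have hB : bigField ω₁ ω₂ t p = bigField ω₁ (ω₁ * τ) t p := by
    rcases hω with h | h
    · rw [h]
    · rw [h, bigField_neg]
  rw [hB]
  obtain ⟨μ, hμ, hμK⟩ := h2 τ hτ hj'
  have hμB : μ ∈ CD.acl (bigField ω₁ (ω₁ * τ) t p) :=
    CD.mem_acl.2 (hμK _ (mul_mem (ofNat_mem (bigField ω₁ (ω₁ * τ) t p) 60) (big_gk4 t p hω₁))
      (mul_mem (ofNat_mem (bigField ω₁ (ω₁ * τ) t p) 140) (big_gk6 t p hω₁)))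
  have h3 := h1 τ μ hμ
  unfold TrLe at h3
  push Not at h3
  obtain ⟨e, he⟩ := h3
  refine CD.hasTrdeg_acl ⟨_, fun i => ?_, he⟩
  have h4 : ∀ i : Fin 2, (![μ ^ 2 * et τ, μ * kap] : Fin 2 → ℂ) i ∈
      CD.acl (bigField ω₁ (ω₁ * τ) t p) := by
    intro i
    fin_cases i
    · exact mul_mem (pow_mem hμB 2) (CD.le_acl _ (big_et t p hω₁))
    · exact mul_mem hμB (CD.le_acl _ (big_pi t p hω₁ hτ))
  exact h4 (e i)

end Pool.Agent.Work.MP_8da9ea_nt.CH
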