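import Pool.Agent.Work.MP_8da9ea_nt.EB.Defs

/-!
# Chudnovsky block: algebraic independence of `η₁ / ω₁` and `π / ω₁`

Lattice `Lam τ = ℤ + ℤ τ`, scaled by `μ` so that `μ ^ 4 g₂`, `μ ^ 6 g₃` are algebraic (`Nrm τ μ`). The two
numbers are `θ₁ = μ² η₁` (`η₁ = et τ = 2 ζ(1/2)`) and `θ₂ = μ 2πi`. In the variable `s`, `z = 1/2 + μ s`:
`x(s) = μ² ℘(z)`, `y(s) = μ³ ℘'(z)`, `w(s) = μ (ζ(z) - ζ(1/2)) - θ₁ s`, so that
`x' = y`, `y' = 6 x² - H`, `w' = - x - θ₁`, `H = μ⁴ g₂ / 2`, `x(0) = e`, `y(0) = 0`, `w(0) = 0`.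
For the true `θ₁` the function `W(z) = μ (ζ(z) - η₁ z)` (`W(1/2) = 0`, `w(s) = W(1/2 + μ s)`) satisfies
`W(z + 1) = W(z)`, `W(z + τ) = W(z) - θ₂`.
-/

set_option autoImplicit false

namespace Pool.Agent.Work.MP_8da9ea_nt.CH

open MvPolynomial Filter Topology Pool.Agent.Work.MP_327059_nt.GL Pool.Agent.Work.MP_8da9ea_nt.S
  Pool.Agent.Work.MP_8da9ea_nt.EB

/-- `x(s) = X(1/2 + μ s)`. -/
noncomputable def xg (τ μ s : ℂ) : ℂ := xe τ μ (1 / 2 + μ * s)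

/-- `y(s) = Y(1/2 + μ s)`. -/
noncomputable def yg (τ μ s : ℂ) : ℂ := ye τ μ (1 / 2 + μ * s)

/-- `w(s) = μ (ζ(1/2 + μ s) - ζ(1/2)) - θ₁ s`. -/
noncomputable def wg (τ μ θ₁ s : ℂ) : ℂ := μ * (zt 1 τ (1 / 2 + μ * s) - zt 1 τ (1 / 2)) - θ₁ * s

/-- The germ `P(x(s), w(s) - n θ₂)`. -/
noncomputable def fg (τ μ θ₁ θ₂ : ℂ) (n : ℕ) (P : MvPolynomial (Fin 2) ℂ) (s : ℂ) : ℂ :=
  eval ![xg τ μ s, wg τ μ θ₁ s - n * θ₂] P

/-- Its order of vanishing at `0`. -/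
noncomputable def og (τ μ θ₁ θ₂ : ℂ) (n : ℕ) (P : MvPolynomial (Fin 2) ℂ) : ℕ∞ :=
  analyticOrderAt (fg τ μ θ₁ θ₂ n P) 0

/-- `(θ₁, θ₂, e, H)` with the true `θ₁`, `θ₂`. -/
noncomputable def th (τ μ : ℂ) : Fin 4 → ℂ :=
  ![μ ^ 2 * et τ, μ * kap, xe τ μ (1 / 2), μ ^ 4 * gg2 τ / 2]

/-! ## B. Basic facts -/

/-- B1: the differential equations near `0`. `hasDerivAt_wp_z`, `hasDerivAt_wpd_z` (and
`wpdd = 6 ℘² - g₂/2`, see `Ode*.lean`), `hasDerivAt_zt_z`, `wpd_sq`, `wpd_half`, `half_notMem`; the last clause: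
`e` would be a double root of `4 x³ - μ⁴ g₂ x - μ⁶ g₃`, contradiction to `Fx.disc_ne` (`Bd/B01`). -/
def S_Bas : Prop := ∀ (τ μ : ℂ), 0 < τ.im → μ ≠ 0 → (∃ r : ℝ, 0 < r ∧ ∀ (θ₁ s : ℂ), ‖s‖ < r →
    1 / 2 + μ * s ∉ Lam τ ∧ HasDerivAt (xg τ μ) (yg τ μ s) s ∧
    HasDerivAt (yg τ μ) (6 * xg τ μ s ^ 2 - μ ^ 4 * gg2 τ / 2) s ∧
    HasDerivAt (wg τ μ θ₁) (-xg τ μ s - θ₁) s ∧
    yg τ μ s ^ 2 = 4 * xg τ μ s ^ 3 - μ ^ 4 * gg2 τ * xg τ μ s - μ ^ 6 * gg3 τ) ∧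
  xg τ μ 0 = xe τ μ (1 / 2) ∧ yg τ μ 0 = 0 ∧ (∀ θ₁ : ℂ, wg τ μ θ₁ 0 = 0) ∧
  6 * xe τ μ (1 / 2) ^ 2 - μ ^ 4 * gg2 τ / 2 ≠ 0

/-- B2: the derivatives at `0` are integral polynomials in `(θ₁, θ₂, e, H)`, uniformly in `τ, μ, θ₁, θ₂`.
On `ℤ[x, y, v, θ₁, H]` let `D = y ∂x + (6 x² - H) ∂y - (x + θ₁) ∂v`. Near `0` the `t`-th derivative of
`x(s)^a v(s)^b`, `v = w - n θ₂`, is `D^t (x^a v^b)` at `(x(s), y(s), v(s), θ₁, H)` (induction, S_Bas); at `s = 0`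
put `x = e`, `y = 0`, `v = - n θ₂`. `D` raises the total degree by at most `1` and
`len (D P) ≤ 7 deg P len P`. -/
def S_Val : Prop := ∀ (t n a b : ℕ), ∃ A : MvPolynomial (Fin 4) ℤ, A.totalDegree ≤ a + b + t ∧
  len A ≤ (10 * (a + b + t : ℝ)) ^ t * ((n : ℝ) + 1) ^ b ∧
  ∀ (τ μ θ₁ θ₂ : ℂ), 0 < τ.im → μ ≠ 0 →
    iteratedDeriv t (fun s => xg τ μ s ^ a * (wg τ μ θ₁ s - n * θ₂) ^ b) 0 =
      aeval ![θ₁, θ₂, xe τ μ (1 / 2), μ ^ 4 * gg2 τ / 2] A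

/-! ## T. Growth and smallness -/

/-- T1: a theta function. `Θ(z) = jacobiTheta₂ (z + (1 + τ)/2) τ` (Mathlib). Periodic with period `1`,
`Θ(z + τ) = exp(-2πi(τ + z) + πi..) Θ(z)` (`jacobiTheta₂_add_left'`), so the growth follows from compactness
(reduce `z` to the fundamental parallelogram) and so does the lower bound on the rows; it vanishes at `0`
(`jacobiTheta₂` is even in `z`) and so on `Lam τ`; it is not identically zero (its zeroth Fourier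
coefficient on the line `Im z = const`, i.e. `∫_0^1 jacobiTheta₂ (x) τ dx = 1`), so its zeros are isolated and there
is a small circle around `1/2` without zeros and with no lattice point in the closed disk. -/
def S_Theta : Prop := ∀ τ : ℂ, 0 < τ.im → ∃ (Θ : ℂ → ℂ) (C r : ℝ), 1 ≤ C ∧ 0 < r ∧
  Differentiable ℂ Θ ∧ (∀ z, ‖Θ z‖ ≤ Real.exp (C * (1 + ‖z‖) ^ 2)) ∧ (∀ z ∈ Lam τ, Θ z = 0) ∧
  (∀ z, ‖z - 1 / 2‖ ≤ r → z ∉ Lam τ) ∧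
  ∀ (n : ℕ) (z : ℂ), ‖z - 1 / 2‖ = r → Real.exp (-(C * (1 + n) ^ 2)) ≤ ‖Θ (z + n * τ)‖

/-- T2: clearing the poles of `X` and of `W(z) = μ (ζ(z) - η₁ z)`. `Θ² X` and `Θ W` are differentiable off
`Lam τ` and bounded near each lattice point (`S_WpUp`; `W` has simple poles, `|W(z)| d1(z) ≤ C (1 + |z|)` by
`W(z + m + n τ) = W(z) - n μ kap` and compactness), so they extend to entire functions `G`, `H`
(removable singularities). Growth: if `d1 z ≥ r₀` directly, otherwise by the maximum principle on a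
circle of a fixed small radius around the nearest lattice point. -/
def S_Grow : Prop := ∀ τ μ : ℂ, 0 < τ.im → μ ≠ 0 → ∃ (Θ G H : ℂ → ℂ) (C r : ℝ), 1 ≤ C ∧ 0 < r ∧
  Differentiable ℂ Θ ∧ Differentiable ℂ G ∧ Differentiable ℂ H ∧
  (∀ z, ‖Θ z‖ ≤ Real.exp (C * (1 + ‖z‖) ^ 2) ∧ ‖G z‖ ≤ Real.exp (C * (1 + ‖z‖) ^ 2) ∧
    ‖H z‖ ≤ Real.exp (C * (1 + ‖z‖) ^ 2)) ∧
  (∀ z ∉ Lam τ, G z = Θ z ^ 2 * xe τ μ z ∧ H z = Θ z * (μ * (zt 1 τ z - et τ * z))) ∧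
  (∀ z, ‖z - 1 / 2‖ ≤ r → z ∉ Lam τ) ∧
  ∀ (n : ℕ) (z : ℂ), ‖z - 1 / 2‖ = r → Real.exp (-(C * (1 + n) ^ 2)) ≤ ‖Θ (z + n * τ)‖

/-- T3: Schwarz lemma. Divide `G` by `∏ (z - ζ)^T` (entire quotient); maximum principle on `|z| ≤ 5 R`:
`|z - ζ| ≥ 4 R` there and `|z - ζ| ≤ 2 R` for `|z| ≤ R`. -/
def S_Schw : Prop := ∀ (G : ℂ → ℂ) (R M : ℝ) (T : ℕ) (Z : Finset ℂ), Differentiable ℂ G → 0 < R →
  (∀ ζ ∈ Z, ‖ζ‖ ≤ R ∧ (T : ℕ∞) ≤ analyticOrderAt G ζ) → (∀ z, ‖z‖ ≤ 5 * R → ‖G z‖ ≤ M) →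
  ∀ z, ‖z‖ ≤ R → ‖G z‖ ≤ M * (1 / 2) ^ (T * Z.card)

/-- T4: smallness. `Φ = ∑ coeff P (a, b) Θ^(3L-2a-b) G^a H^b` is entire and equals `Θ^(3L) P(X, W)` off
`Lam τ`, `|Φ| ≤ exp(A + C L R²)` for `|z| ≤ 5 R` (`(L + 1)²` monomials). By `W(z + m + n τ) = W(z) - n θ₂` the
hypothesis gives zeros of order `≥ T` at `1/2 + m + n τ`, `n < S`, for all `m ≥ 0`; at least `S R / 4` of these
points have norm `≤ R`. T3: `|Φ| ≤ exp(A + C L R² - T S R / C)` for `|z| ≤ R`. On the circle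
`|z - 1/2| = r` divide by `Θ(z + n τ)^(3L)`, then Cauchy's estimate for the derivatives in `s`. -/
def S_Small : Prop := ∀ τ μ : ℂ, 0 < τ.im → μ ≠ 0 → ∃ C : ℝ, 1 ≤ C ∧
  ∀ (L T S : ℕ) (R A : ℝ) (P : MvPolynomial (Fin 2) ℂ), 1 ≤ L → 1 ≤ A → C * (1 + S) ≤ R →
    P.degreeOf 0 ≤ L → P.degreeOf 1 ≤ L → (∀ m, ‖P.coeff m‖ ≤ Real.exp A) →
    (∀ n < S, (T : ℕ∞) ≤ og τ μ (μ ^ 2 * et τ) (μ * kap) n P) →
    ∀ n t : ℕ, C * (1 + n) ≤ R →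
      ‖iteratedDeriv t (fg τ μ (μ ^ 2 * et τ) (μ * kap) n P) 0‖ ≤
        t.factorial * C ^ t * Real.exp (C * L * R ^ 2 + A - T * S * R / C)

/-! ## G. Siegel's lemma in transcendence degree one -/

/-- G1: multiplication in a finite extension of `ℚ(ξ)`, `ξ = θ i₀`. By `TrLe 1 θ` there is `i₀` such that
all `θ i` are algebraic over `ℚ(θ i₀)` (a transcendental coordinate if there is one, otherwise any). Let
`w` be a basis of the finite extension `ℚ(ξ)(θ)` of `ℚ(ξ)`, `w₀ = 1`; `θ i w_k = ∑ (m_ikl(ξ)/a(ξ)) w_l` with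
`m_ikl, a ∈ ℤ[x]`, `a(ξ) ≠ 0`, also `1 = ∑ (m_l(ξ)/a(ξ)) w_l` . By induction on the degree: each monomial of
degree `≤ X` times `a(ξ)^(X+1)` is `∑ c_l(ξ) w_l` with `deg c_l ≤ C X`, `|coeff| ≤ exp(C X)`; add up. (To have
the exponent `X` and not `X + 1` put `w₀ = a(ξ)`.) -/
def S_Rep : Prop := ∀ (σ : Type) [Fintype σ] [Nonempty σ] (θ : σ → ℂ), TrLe 1 θ →
  ∃ (i₀ : σ) (d C : ℕ) (w : Fin d → ℂ) (a : Polynomial ℤ) (w₀ : ℂ), w₀ ≠ 0 ∧ 1 ≤ C ∧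
    Polynomial.aeval (θ i₀) a ≠ 0 ∧ ∀ X : ℕ, 1 ≤ X → ∀ A : MvPolynomial σ ℤ,
      A.totalDegree ≤ X → len A ≤ Real.exp X → ∃ c : Fin d → Polynomial ℤ,
        (∀ l, (c l).natDegree ≤ C * X ∧
          ∀ k, |(((c l).coeff k : ℤ) : ℝ)| ≤ Real.exp ((C * X : ℕ) : ℝ)) ∧
        Polynomial.aeval (θ i₀) a ^ X * aeval θ A * w₀ =
          ∑ l, Polynomial.aeval (θ i₀) (c l) * w l

/-- G2: Siegel's lemma over `ℤ[x]`. Unknowns: the `N (C X + 1)` coefficients of the `p i` of degree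
`≤ C X`; equations: `M (2 C X + 1)`. Mathlib `Int.Matrix.exists_ne_zero_int_vec_norm_le`. -/
def S_SiegX : Prop := ∀ C : ℕ, 1 ≤ C → ∃ C' : ℕ, 1 ≤ C' ∧ ∀ (M N X : ℕ), 1 ≤ X → 1 ≤ N →
  C' * M ≤ N → N ≤ 2 ^ X → ∀ c : Fin M → Fin N → Polynomial ℤ,
    (∀ j i, (c j i).natDegree ≤ C * X ∧
      ∀ k, |(((c j i).coeff k : ℤ) : ℝ)| ≤ Real.exp ((C * X : ℕ) : ℝ)) →
    ∃ p : Fin N → Polynomial ℤ, p ≠ 0 ∧
      (∀ i, (p i).natDegree ≤ C * X ∧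
        ∀ k, |(((p i).coeff k : ℤ) : ℝ)| ≤ Real.exp ((C' * X : ℕ) : ℝ)) ∧
      ∀ j, ∑ i, p i * c j i = 0

/-- G3: removing the greatest common divisor `g` of the `p i` in `ℤ[x]` (a unique factorisation domain).
If all `q i` vanish at `x ∈ ℂ` then `x` is algebraic and its primitive minimal polynomial divides all `q i`
(Gauss). Heights: Mahler measure is multiplicative and `≥ 1` for `g`,
`|coeff q| ≤ 2^D M(q) ≤ 2^D M(p) ≤ 2^D (D + 1) H`. -/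
def S_Gcd : Prop := ∀ (N D : ℕ) (H : ℝ) (p : Fin N → Polynomial ℤ), p ≠ 0 →
  (∀ i, (p i).natDegree ≤ D ∧ ∀ k, |(((p i).coeff k : ℤ) : ℝ)| ≤ H) →
  ∃ (g : Polynomial ℤ) (q : Fin N → Polynomial ℤ), g ≠ 0 ∧ (∀ i, p i = g * q i) ∧
    (∀ i, (q i).natDegree ≤ D ∧ ∀ k, |(((q i).coeff k : ℤ) : ℝ)| ≤ (D + 1) * 2 ^ D * H) ∧
    ∀ x : ℂ, ∃ i, Polynomial.aeval x (q i) ≠ 0

/-- G4: exact Siegel lemma; the solution has no common zero. S_Rep (write `A j i` as `c j i l`), S_SiegX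
for the `M d` equations `∑ i, p i * c j i l = 0`, S_Gcd (the equations can be divided by `g` in `ℤ[x]`), then
multiply by `w l` and sum over `l`. -/
def S_SiegT : Prop := ∀ (σ : Type) [Fintype σ] [Nonempty σ] (θ : σ → ℂ), TrLe 1 θ →
  ∃ (i₀ : σ) (C : ℕ), 1 ≤ C ∧ ∀ (M N X : ℕ), 1 ≤ X → 1 ≤ N → C * M ≤ N → N ≤ 2 ^ X →
    ∀ A : Fin M → Fin N → MvPolynomial σ ℤ,
      (∀ j i, (A j i).totalDegree ≤ X ∧ len (A j i) ≤ Real.exp X) →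
      ∃ p : Fin N → Polynomial ℤ,
        (∀ i, (p i).natDegree ≤ C * X ∧
          ∀ k, |(((p i).coeff k : ℤ) : ℝ)| ≤ Real.exp ((C * X : ℕ) : ℝ)) ∧
        (∀ x : ℂ, ∃ i, Polynomial.aeval x (p i) ≠ 0) ∧
        ∀ j, ∑ i, Polynomial.aeval (θ i₀) (p i) * aeval θ (A j i) = 0

/-! ## Z. Zero estimate -/

/-- Z1: `℘` and `ζ(z) - θ z` are algebraically independent. Identity theorem on `(Lam τ)ᶜ` (preconnected,
`Lam_compl_conn`): the relation holds for all `z ∉ Lam τ`. Some `ω ∈ {1, τ}` has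
`μ (ζ(z + ω) - ζ(z)) - θ₁ ω / μ = c_ω ≠ 0` (the increments are `μ η₁ - θ₁/μ` and `μ (τ η₁ - kap) - θ₁ τ / μ`). For
fixed `z` the polynomial `P(X(z), ·)` vanishes at `ε W(z) + c + k ε c_ω`, `k ∈ ℤ`, so it is zero: all
coefficients of `P` in the second variable vanish at `X(z)`, for all `z`; `X` takes infinitely many
values. -/
def S_Ind : Prop := ∀ (τ μ θ₁ : ℂ), 0 < τ.im → μ ≠ 0 → ∀ (P : MvPolynomial (Fin 2) ℂ)
  (ε c z₀ : ℂ), P ≠ 0 → ε ≠ 0 → z₀ ∉ Lam τ →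
    ¬ ∀ᶠ z in 𝓝 z₀, eval ![xe τ μ z, ε * (μ * zt 1 τ z - θ₁ * z / μ) + c] P = 0

/-- Z1': finite orders. S_Ind with `ε = 1` and `z = 1/2 + μ s`, S_Bas (analyticity). -/
def S_FinO : Prop := ∀ (τ μ θ₁ θ₂ : ℂ), 0 < τ.im → μ ≠ 0 → ∀ (n : ℕ)
  (P : MvPolynomial (Fin 2) ℂ), P ≠ 0 → og τ μ θ₁ θ₂ n P ≠ ⊤

/-- The norm of the derivative of `P` along the flow:
`(x + θ₁)² P_w² - (4 x³ - G₂ x - G₃) P_x²`. -/
noncomputable def NP (τ μ θ₁ : ℂ) (P : MvPolynomial (Fin 2) ℂ) : MvPolynomial (Fin 2) ℂ :=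
  (X 0 + C θ₁) ^ 2 * (pderiv 1 P) ^ 2 -
    (4 * X 0 ^ 3 - C (μ ^ 4 * gg2 τ) * X 0 - C (μ ^ 6 * gg3 τ)) * (pderiv 0 P) ^ 2

/-- Z2: no invariant curves. `P` and `P_w` are coprime (`P` irreducible, `P_w` of smaller degree in `w`
and not zero), so there are `U, V` with `U P + V P_w = R(x) ≠ 0` (GL.S_ZRes, resultant). Choose `z₀` with
`R(X(z₀)) ≠ 0`, leading coefficient `≠ 0` at `X(z₀)` and `Y(z₀) ≠ 0`, a root `w₀` of `P(X(z₀), ·)`; then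
`P_w ≠ 0` there and the implicit function theorem gives an analytic `φ` near `z₀` with
`P(X(z), φ(z)) = 0` (EB.S_Branch with `m = 1` also gives such a `φ`). With `' = μ d/dz`: `P_x Y + P_w φ' = 0`. If
`P ∣ NP P` then `(X + θ₁)² P_w² = Y² P_x² = P_w² φ'²`, so `φ' = ± (X + θ₁)` near `z₀` (a product of two analytic
functions vanishes), `φ = ∓ W + const`, contradiction to S_Ind. -/
def S_NonInv : Prop := ∀ (τ μ θ₁ : ℂ), 0 < τ.im → μ ≠ 0 → ∀ P : MvPolynomial (Fin 2) ℂ,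
  Irreducible P → P.degreeOf 1 ≠ 0 → ¬ P ∣ NP τ μ θ₁ P

/-- Z3: Bezout by counting. Put `a₁ = P.degreeOf 0`, `b₁ = P.degreeOf 1`, `E(A, B)` = polynomials with
`degreeOf 0 < A`, `degreeOf 1 < B`, of dimension `A B`. For large `A, B` the map
`(u, v) ↦ P u + Q v` from `E(A-a₁, B-b₁) × E(A-a, B-b)` to `E(A, B) ∩ ker Λ` has kernel
`{(-Q v', P v')}`, `v' ∈ E(A-a-a₁, B-b-b₁)` (`P` is prime and does not divide `Q`; `degreeOf_mul`), so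
`dim Λ(E(A, B)) ≤ A B - (A-a₁)(B-b₁) - (A-a)(B-b) + (A-a-a₁)(B-b-b₁) = a₁ b + b₁ a`. -/
def S_Bez : Prop := ∀ (P Q : MvPolynomial (Fin 2) ℂ) (a b : ℕ), Irreducible P → ¬ P ∣ Q →
  Q.degreeOf 0 ≤ a → Q.degreeOf 1 ≤ b → ∀ (d : ℕ) (Λ : MvPolynomial (Fin 2) ℂ →ₗ[ℂ] (Fin d → ℂ)),
    (∀ u, Λ (P * u) = 0) → (∀ u, Λ (Q * u) = 0) →
      Module.finrank ℂ (LinearMap.range Λ) ≤ P.degreeOf 0 * b + P.degreeOf 1 * a

/-- Z4: independent conditions. `Λ f` = the values `iteratedDeriv k (fg n f) 0`, `n ∈ I`, `k < t n`. For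
`n₀ ∈ I`, `2 k < t n₀` the polynomial `(x - e)^k ∏_{n ∈ I, n ≠ n₀} (w + n θ₂)^(t n)` has order `≥ t n` on the
germ `n ≠ n₀` and exactly `2 k` on the germ `n₀` (`x(s) - e` has order exactly `2` by S_Bas, the other factors do
not vanish as `θ₂ ≠ 0`), so their images are linearly independent: `rank ≥ ∑ ⌈t n / 2⌉`. -/
def S_Low : Prop := ∀ (τ μ θ₁ θ₂ : ℂ), 0 < τ.im → μ ≠ 0 → θ₂ ≠ 0 → ∀ (I : Finset ℕ) (t : ℕ → ℕ),
  ∃ (d : ℕ) (Λ : MvPolynomial (Fin 2) ℂ →ₗ[ℂ] (Fin d → ℂ)),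
    (∀ f, Λ f = 0 ↔ ∀ n ∈ I, (t n : ℕ∞) ≤ og τ μ θ₁ θ₂ n f) ∧
    ∑ n ∈ I, t n ≤ 2 * Module.finrank ℂ (LinearMap.range Λ)

/-- Z5: an irreducible factor. Let `o n` be the order of `P` on the germ `n`, `I'` the set of the
`n ∈ I` with `o n ≥ 1`, `t n = o n - 1`. On the germ `n` the polynomial `NP P` is
`- (y P_x - (x + θ₁) P_w) (y P_x + (x + θ₁) P_w)`, the first factor is the derivative of `fg n P`: so `P` and
`NP P` have order `≥ t n` (also their multiples). S_Low, S_Bez (`NP P` has degree `≤ 2 a + 2` in `x`, `≤ 2 b` in `w`),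
S_NonInv: `∑_{I'} t n ≤ 2 (a 2 b + b (2 a + 2)) = 8 a b + 4 b`. `|I'| ≤ b`: the numbers `- n θ₂` are different roots
of `P(e, ·)`, which is not zero (otherwise `x - e` divides `P`, so `degreeOf 1 = 0`). -/
def S_Mult : Prop := ∀ (τ μ θ₁ θ₂ : ℂ), 0 < τ.im → μ ≠ 0 → θ₂ ≠ 0 →
  ∀ P : MvPolynomial (Fin 2) ℂ, Irreducible P → P.degreeOf 1 ≠ 0 → ∀ I : Finset ℕ,
    ∑ n ∈ I, (og τ μ θ₁ θ₂ n P).toNat ≤ 8 * P.degreeOf 0 * P.degreeOf 1 + 5 * P.degreeOf 1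

/-- Z6: the zero estimate. Show by induction on the factorisation of `P ≠ 0`
(`UniqueFactorizationMonoid`), with `a = P.degreeOf 0`, `b = P.degreeOf 1` (additive on products):
`∑_{n ≤ S} ord ≤ 2 a (S + 1) + 8 a b + 5 b`. Orders are additive (`analyticOrderAt_mul`, finite by S_FinO).
Irreducible with `b ≠ 0`: S_Mult. Irreducible with `b = 0`: `P = c (x - x₀)`, order `0` or `2`. Units: `0`. -/
def S_Zero : Prop := ∀ (τ μ θ₁ θ₂ : ℂ), 0 < τ.im → μ ≠ 0 → θ₂ ≠ 0 →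
  ∀ (P : MvPolynomial (Fin 2) ℂ) (L S T : ℕ), P ≠ 0 → P.degreeOf 0 ≤ L → P.degreeOf 1 ≤ L →
    (∀ n ≤ S, (T : ℕ∞) ≤ og τ μ θ₁ θ₂ n P) → (S + 1) * T ≤ 2 * L * (S + 1) + 8 * L ^ 2 + 5 * L

/-! ## F. The theorem -/

/-- The auxiliary polynomial `∑ p_ab(ξ) x^a w^b`. -/
noncomputable def auxP {L : ℕ} (p : Fin L → Fin L → Polynomial ℤ) (ξ : ℂ) :
    MvPolynomial (Fin 2) ℂ :=
  ∑ a : Fin L, ∑ b : Fin L, C (Polynomial.aeval ξ (p a b)) * X 0 ^ (a : ℕ) * X 1 ^ (b : ℕ)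

/-- The size parameter `L log L`. -/
def sz (L : ℕ) : ℕ := L * (Nat.log 2 L + 1)

/-- F1: the auxiliary function is small. Let `C₁` be the constant of S_SiegT for `th τ μ`, `C₂` the one of
S_Small, `ρ = 1/(8 C₂² C₁)`, `K₀` large (`C₂ / (C₁ K₀) ≤ ρ / 4`), `T = K₀ L`, `S = ⌊L / (C₁ K₀)⌋`, `X = C₃ sz L`,
`N = L²`, `M = T S ≤ L² / C₁`. The `A j i` are the polynomials of S_Val, `t < T`, `n < S`, `a, b < L` (size `≤ X`).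
S_SiegT gives `p_ab`; `P = auxP p (th i₀)` has coefficients `≤ exp(C X)`, and `iteratedDeriv t (fg n P) 0 = 0` for
`t < T`, `n < S`, so the orders are `≥ T`. S_Small with `R = ρ L`: exponent
`C₂ ρ² L³ + C X - T S ρ L / C₂ ≤ - L³ / C` for large `L`, as `T S ≥ L² / (2 C₁)`; and
`t! C₂^t ≤ exp(C K L log L)` for `t ≤ K L`. -/
def S_Aux : Prop := ∀ τ μ : ℂ, Nrm τ μ → TrLe 1 (th τ μ) → ∃ (i₀ : Fin 4) (C : ℕ), 1 ≤ C ∧
  ∀ K : ℕ, ∃ L₀ : ℕ, ∀ L : ℕ, L₀ ≤ L → ∃ p : Fin L → Fin L → Polynomial ℤ,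
    (∀ a b, (p a b).natDegree ≤ C * sz L ∧
      ∀ k, |(((p a b).coeff k : ℤ) : ℝ)| ≤ Real.exp ((C * sz L : ℕ) : ℝ)) ∧
    (∀ x : ℂ, ∃ a b, Polynomial.aeval x (p a b) ≠ 0) ∧
    ∀ n t : ℕ, C * n ≤ L → t ≤ K * L →
      ‖iteratedDeriv t (fg τ μ (μ ^ 2 * et τ) (μ * kap) n (auxP p (th τ μ i₀))) 0‖ ≤
        Real.exp (-((L : ℝ) ^ 3 / C))

/-- F2: **Chudnovsky's theorem.** Suppose `TrLe 1`; `e` and `H` are algebraic (`e` is a root of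
`4 x³ - G₂ x - G₃`), so `TrLe 1 (th τ μ)`. S_Aux with `C`; `S' = ⌊L / C⌋`; `K` such that
`(S' + 1) K L > 2 L (S' + 1) + 8 L² + 5 L` (`K = 2 + 13 C` is enough). For `n ≤ S'`, `t ≤ K L` let
`B_(n,t) = ∑ p_ab(X i₀) A_(n,t,a,b) ∈ ℤ[X 0, …, X 3]` (S_Val): degree and log length `≤ X' = C' sz L`,
`B_(n,t)(th) = iteratedDeriv t (fg n (auxP p ξ)) 0` has absolute value `≤ exp(- L³ / C)`. GL.S_Crit (`τ = 1`) for
these and the (integral) minimal polynomials of `e` (in `X 2`) and `H` (in `X 3`), `V = L³ / C ≥ C'' X'^2` for large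
`L`: `θ'` with `B_(n,t)(θ') = 0`, `|θ' - th| ≤ exp(- V / (C'' X'))`, so for large `L` `θ' 2 = e`, `θ' 3 = H`,
`θ' 1 ≠ 0`. `P' = auxP p (θ' i₀) ≠ 0`, and by S_Val all derivatives of order `≤ K L` of `fg τ μ (θ' 0) (θ' 1) n P'`
vanish at `0` for `n ≤ S'`: contradiction to S_Zero. -/
def S_Chud : Prop := ∀ τ μ : ℂ, Nrm τ μ → ¬ TrLe 1 ![μ ^ 2 * et τ, μ * kap]

/-- F3: the period field of a lattice with algebraic invariant has transcendence degree at least `2`.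
Reduce to `ω₂ = ± ω₁ τ` (bigField_neg, as in `EB/I_FinalZ`), `EB.S_Norm`: `μ` algebraic over `ℚ(g₂(τ), g₃(τ))`. The
algebraic closure of `bigField` contains `ω₁`, `g₂(Ω) = ω₁^(-4) gg2 τ`, `g₃(Ω)`, so `gg2 τ`, `gg3 τ`, `μ`, and `η₁(Ω) = et τ / ω₁`,
so `et τ`, and `kap` (Legendre: `η₁ ω₂ - η₂ ω₁ = ± kap`). Use S_Chud and that `bigField` has as many algebraically
independent elements as its algebraic closure (`TG` / `FixFinal`). -/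
def S_Period : Prop := ∀ ω₁ ω₂ : ℂ, LinearIndependent ℝ ![ω₁, ω₂] → IsAlgebraic ℚ (jInv ω₁ ω₂) →
  ∀ (s n : ℕ) (t : Fin s → ℂ) (p : Fin n → ℂ), HasTrdeg (bigField ω₁ ω₂ t p) 2

/-- F4: so the inequality of the problem holds for every lattice with complex multiplication (and
algebraic invariant) if there are no points. S_Period; `tDim = 0` and `kDim2 = 0` for empty families. -/
def S_BaseCM : Prop := ∀ ω₁ ω₂ : ℂ, LinearIndependent ℝ ![ω₁, ω₂] → IsAlgebraic ℚ (jInv ω₁ ω₂) →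
  IsCM ω₁ ω₂ → ∀ (t : Fin 0 → ℂ) (p : Fin 0 → ℂ), Q1 ω₁ ω₂ t p

end Pool.Agent.Work.MP_8da9ea_nt.CH
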